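import Pool.Agent.Lib.MP_b9fd58_lc.R.HDef

/-!
# Stream R, Laurent polynomials
-/

set_option autoImplicit false

namespace StrAlg

open Module Polynomial

variable {D : Dat} {k : Type} [Field k] {S : Sides D}

/-- every finitely supported function is encoded by a polynomial -/
theorem exists_enc (u : ℤ → k) (hu : (Function.support u).Finite) : ∃ (s : k[X]) (N : ℤ), Enc s N u := by
  obtain ⟨N, hN⟩ : ∃ N : ℕ, ∀ t, u t ≠ 0 → t.natAbs ≤ N := by
    refine ⟨hu.toFinset.sup (fun t => t.natAbs), fun t ht => ?_⟩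
    exact Finset.le_sup (f := fun t : ℤ => t.natAbs) (hu.mem_toFinset.2 ht)
  refine ⟨∑ n ∈ Finset.range (2 * N + 1), Polynomial.monomial n (u ((n : ℤ) - N)), N, ?_, ?_⟩
  · intro n
    rw [Polynomial.finsetSum_coeff]
    simp only [Polynomial.coeff_monomial]
    rw [Finset.sum_ite_eq']
    by_cases hn : n ∈ Finset.range (2 * N + 1)
    · rw [if_pos hn]
    · rw [if_neg hn]
      by_contra hne
      have h1 := hN _ (Ne.symm hne)
      rw [Finset.mem_range] at hn
      omega
  · intro t ht
    have := hN t ht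
    omega

theorem Enc.zero_iff {s : k[X]} {N : ℤ} {u : ℤ → k} (h : Enc s N u) : s = 0 ↔ ∀ t, u t = 0 := by
  constructor
  · intro hs t
    by_contra hne
    have h1 := h.2 t hne
    have h2 := h.1 (t + N).toNat
    rw [hs, Polynomial.coeff_zero] at h2
    have h3 : (((t + N).toNat : ℕ) : ℤ) - N = t := by omega
    rw [h3] at h2
    exact hne h2.symm
  · intro hu
    ext n
    rw [h.1 n, hu, Polynomial.coeff_zero]

theorem hf1_pow {V : Type} [AddCommGroup V] [Module k V] (T : V ≃ₗ[k] V) (n : ℕ) (v : V) :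
    (T.toLinearMap ^ n) v = (T ^ (n : ℤ)) v := by
  rw [zpow_natCast]
  induction n generalizing v with
  | zero => rfl
  | succ n ih =>
    rw [pow_succ, pow_succ]
    show (T.toLinearMap ^ n) (T v) = (T ^ n) (T v)
    exact ih (T v)

/-- the value at an automorphism -/
theorem Enc.aeval {s : k[X]} {N : ℤ} {u : ℤ → k} (h : Enc s N u) {V : Type} [AddCommGroup V] [Module k V]
    (T : V ≃ₗ[k] V) (v : V) (A : Finset ℤ) (hA : ∀ t, u t ≠ 0 → t ∈ A) :
    Polynomial.aeval T.toLinearMap s v = (T ^ N) (∑ t ∈ A, u t • (T ^ t) v) := by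
  rw [Polynomial.aeval_eq_sum_range, LinearMap.sum_apply, map_sum]
  have h1 : ∀ n : ℕ, (s.coeff n • T.toLinearMap ^ n) v = u ((n : ℤ) - N) • (T ^ (n : ℤ)) v := by
    intro n
    rw [LinearMap.smul_apply, h.1 n, hf1_pow]
  rw [Finset.sum_congr rfl (fun n _ => h1 n)]
  have h2 : ∀ t ∈ A, (T ^ N) (u t • (T ^ t) v) = u t • (T ^ (N + t)) v := by
    intro t _
    rw [map_smul, zpow_add]
    rfl
  rw [Finset.sum_congr rfl h2]
  -- both sums are over the support
  apply Finset.sum_bij_ne_zero (fun (n : ℕ) _ _ => (n : ℤ) - N)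
  · intro n _ hne
    apply hA
    intro h0
    rw [h0, zero_smul] at hne
    exact hne rfl
  · intro a _ _ b _ _ hab
    omega
  · intro t _ hne
    have hut : u t ≠ 0 := by
      intro h0
      rw [h0, zero_smul] at hne
      exact hne rfl
    have h3 := h.2 t hut
    have h4 : (((t + N).toNat : ℕ) : ℤ) - N = t := by omega
    refine ⟨(t + N).toNat, ?_, ?_, h4⟩
    · rw [Finset.mem_range, Nat.lt_succ_iff]
      apply Polynomial.le_natDegree_of_ne_zero
      rw [h.1, h4]
      exact hut
    · rw [h4]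
      have h5 : (((t + N).toNat : ℕ) : ℤ) = N + t := by omega
      rw [h5]
      exact hne
  · intro n _ _
    have h5 : N + ((n : ℤ) - N) = n := by ring
    rw [h5]

end StrAlg
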