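import Pool.Agent.Lib.MP_b9fd58_lc.R.HDef

/-!
# Stream R, Laurent coefficients of a pair of graph maps
-/

set_option autoImplicit false

namespace StrAlg

open Module Polynomial

variable {D : Dat} {k : Type} [Field k] {S : Sides D}

theorem cof_finite (X Y : Blk S k) (a : X.M.C) (b : Dual k Y.M.C) (c : Str S) {l : ℕ} (hl : 0 < l)
    (o : Bool) (p q : ℤ) (o' : Bool) (q' r : ℤ) (φ : (Fin X.n → k) →ₗ[k] k) (y : Fin Y.n → k) :
    (Function.support (cof X Y a b c l o p q o' q' r φ y)).Finite := by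
  have hl' : (l : ℤ) ≠ 0 := by exact_mod_cast hl.ne'
  apply Set.Finite.subset (((clI X.x.L c.L o p q ×ˢ clI c.L Y.x.L o' q' r).image
    (fun x : ℤ × ℤ => (stn o x.1 q - (q' + x.2)) / (l : ℤ))).finite_toSet)
  intro t ht
  rw [Function.mem_support] at ht
  unfold cof at ht
  obtain ⟨i, hi, hne⟩ := Finset.exists_ne_zero_of_sum_ne_zero ht
  obtain ⟨j, hj, hne2⟩ := Finset.exists_ne_zero_of_sum_ne_zero hne
  rw [Finset.mem_coe, Finset.mem_image]
  refine ⟨(i, j), Finset.mem_product.2 ⟨hi, hj⟩, ?_⟩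
  have h1 : stn o i q - (q' + j) = t * l := by
    by_contra h2
    rw [if_neg h2] at hne2
    exact hne2 rfl
  show (stn o i q - (q' + j)) / (l : ℤ) = t
  rw [h1]
  exact Int.mul_ediv_cancel _ hl'

/-- the vector of `val_gm_gm` in terms of the Laurent coefficients; `LB.spr_apply` -/
theorem cof_sum (X Y : Blk S k) (a : X.M.C) (b : Dual k Y.M.C) (c : Str S) {l : ℕ} (hl : 0 < l)
    {V : Type} [AddCommGroup V] [Module k V] {T : V ≃ₗ[k] V} (h : c.PerOK l T)
    (o : Bool) (p q : ℤ) (o' : Bool) (q' r : ℤ) (φ : (Fin X.n → k) →ₗ[k] k) (y : Fin Y.n → k) (v : V)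
    (A : Finset ℤ) (hA : ∀ t, cof X Y a b c l o p q o' q' r φ y t ≠ 0 → t ∈ A) :
    ∑ i ∈ clI X.x.L c.L o p q, ∑ j ∈ clI c.L Y.x.L o' q' r,
        (φ (X.fn a (p + i)) * Y.cf b (stn o' j r) y) • (c.LB l T h).spr (stn o i q) v (q' + j) =
      ∑ t ∈ A, cof X Y a b c l o p q o' q' r φ y t • (T ^ t) v := by
  classical
  have hl' : (l : ℤ) ≠ 0 := by exact_mod_cast hl.ne'
  set A' : Finset ℤ := A ∪ (clI X.x.L c.L o p q ×ˢ clI c.L Y.x.L o' q' r).image
    (fun x : ℤ × ℤ => (stn o x.1 q - (q' + x.2)) / (l : ℤ)) with hA'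
  have h1 : ∑ t ∈ A, cof X Y a b c l o p q o' q' r φ y t • (T ^ t) v =
      ∑ t ∈ A', cof X Y a b c l o p q o' q' r φ y t • (T ^ t) v := by
    apply Finset.sum_subset Finset.subset_union_left
    intro t _ ht
    have : cof X Y a b c l o p q o' q' r φ y t = 0 := by
      by_contra hne
      exact ht (hA t hne)
    rw [this, zero_smul]
  rw [h1]
  have h2 : ∀ t ∈ A', cof X Y a b c l o p q o' q' r φ y t • (T ^ t) v =
      ∑ i ∈ clI X.x.L c.L o p q, ∑ j ∈ clI c.L Y.x.L o' q' r,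
        (if stn o i q - (q' + j) = t * l then
          (φ (X.fn a (p + i)) * Y.cf b (stn o' j r) y) • (T ^ t) v else 0) := by
    intro t _
    unfold cof
    rw [Finset.sum_smul]
    apply Finset.sum_congr rfl
    intro i _
    rw [Finset.sum_smul]
    apply Finset.sum_congr rfl
    intro j _
    rw [ite_smul, zero_smul]
  rw [Finset.sum_congr rfl h2]
  symm
  rw [Finset.sum_comm]
  apply Finset.sum_congr rfl
  intro i hi
  rw [Finset.sum_comm]
  apply Finset.sum_congr rfl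
  intro j hj
  symm
  have h3 : (c.LB l T h).spr (stn o i q) v (q' + j) =
      if (l : ℤ) ∣ (stn o i q - (q' + j)) then (T ^ ((stn o i q - (q' + j)) / l)) v else 0 :=
    LB.spr_apply _ _ _ _
  rw [h3]
  by_cases hd : (l : ℤ) ∣ (stn o i q - (q' + j))
  · rw [if_pos hd]
    have hmem : (stn o i q - (q' + j)) / (l : ℤ) ∈ A' := by
      rw [hA', Finset.mem_union, Finset.mem_image]
      exact Or.inr ⟨(i, j), Finset.mem_product.2 ⟨hi, hj⟩, rfl⟩
    rw [Finset.sum_eq_single_of_mem _ hmem]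
    · rw [if_pos (Int.ediv_mul_cancel hd).symm]
    · intro t _ hne
      rw [if_neg]
      intro h4
      apply hne
      rw [h4, Int.mul_ediv_cancel _ hl']
  · rw [if_neg hd, smul_zero]
    symm
    apply Finset.sum_eq_zero
    intro t _
    rw [if_neg]
    intro h4
    exact hd ⟨t, by rw [h4]; ring⟩

end StrAlg
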