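import Pool.Agent.Lib.MP_b9fd58_lc.R.Hh1
import Pool.Agent.Lib.MP_b9fd58_lc.R.Hf1
import Pool.Agent.Lib.MP_b9fd58_lc.R.Hf2

/-!
# Stream R: the polynomials `Om` vanish iff the pair satisfies the criterion for `c` (II)

See the header of `Hh1.lean`.
-/

set_option autoImplicit false

namespace StrAlg

open Module Polynomial

variable {D : Dat} {k : Type} [Field k] {S : Sides D}

theorem hh2_mem_clI {L₁ L₂ : Ln (Fin D.nV) S.nx} {o : Bool} {p q i : ℤ} :
    i ∈ clI L₁ L₂ o p q ↔ -(lenD L₁ L₂ o false p q : ℤ) ≤ i ∧ i ≤ (lenD L₁ L₂ o true p q : ℤ) := by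
  unfold clI
  rw [Finset.mem_Icc]

theorem cof_eq_Om {c : Str S} {l : ℕ} (hl : c.MinPer l) (X Y : Blk S k) (a : X.M.C) (b : Dual k Y.M.C)
    {o : Bool} {p q : ℤ} {o' : Bool} {q' r : ℤ} (h1 : Ord X.x c o p q) (h2 : Ord c Y.x o' q' r)
    (φ : (Fin X.n → k) →ₗ[k] k) (y : Fin Y.n → k) {t i₀ j₀ : ℤ} (hi : i₀ ∈ clI X.x.L c.L o p q)
    (hj : j₀ ∈ clI c.L Y.x.L o' q' r) (ht : stn o i₀ q - (q' + j₀) = t * l) :
    cof X Y a b c l o p q o' q' r φ y t =
      Om X.x.L Y.x.L (X.fn a) (Y.cf b) (φ.smulRight y) (o == o') (p + i₀) (stn o' j₀ r) := by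
  classical
  have hper : c.Per l := hl.2.1
  have hQ : stn o i₀ q = (q' + j₀) + t * l := by linarith
  -- the conditions at the common position
  have hO1' : Ord X.x c o (p + i₀) (stn o i₀ q) := h1.cl hi
  have hO1 : Ord X.x c o (p + i₀) (q' + j₀) := by
    have := Ord.shift hper hO1' (-t)
    rw [hQ] at this
    have e : (q' + j₀) + t * (l : ℤ) + (-t) * (l : ℤ) = q' + j₀ := by ring
    rwa [e] at this
  have hO2 : Ord c Y.x o' (q' + j₀) (stn o' j₀ r) := h2.cl hj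
  -- the index sets
  have m1 : ∀ i : ℤ, i ∈ clI X.x.L c.L o (p + i₀) (q' + j₀) ↔ i + i₀ ∈ clI X.x.L c.L o p q := by
    intro i
    have e1 : ∀ e : Bool, lenD X.x.L c.L o e (p + i₀) (q' + j₀) =
        lenD X.x.L c.L o e (p + i₀) (stn o i₀ q) := by
      intro e
      rw [hQ, lenD_per hper]
    obtain ⟨s1, s2⟩ := lenD_shift h1.2.2.2.2 hi
    rw [hh2_mem_clI, hh2_mem_clI, e1, e1, s1, s2]
    constructor <;> rintro ⟨x1, x2⟩ <;> constructor <;> linarith
  have m2 : ∀ j : ℤ, j ∈ clI c.L Y.x.L o' (q' + j₀) (stn o' j₀ r) ↔ j + j₀ ∈ clI c.L Y.x.L o' q' r := by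
    intro j
    obtain ⟨s1, s2⟩ := lenD_shift h2.2.2.2.2 hj
    rw [hh2_mem_clI, hh2_mem_clI, s1, s2]
    constructor <;> rintro ⟨x1, x2⟩ <;> constructor <;> linarith
  have m3 : ∀ i : ℤ, i ∈ clI X.x.L Y.x.L (o == o') (p + i₀) (stn o' j₀ r) ↔
      i + i₀ ∈ clI X.x.L c.L o p q ∧ (if o then i else -i) + j₀ ∈ clI c.L Y.x.L o' q' r := by
    intro i
    rw [clI_comp hO1 hO2, m1, m2]
  -- the condition in the double sum
  have hcond : ∀ i j : ℤ, (stn o i q - (q' + j) = t * l) ↔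
      j = (if o then i - i₀ else -(i - i₀)) + j₀ := by
    intro i j
    have e : stn o i q = stn o i₀ q + (if o then i - i₀ else -(i - i₀)) := by
      cases o <;> simp
    rw [e, hQ]
    constructor
    · intro h
      linarith
    · intro h
      linarith
  unfold cof
  have s1 : ∀ i ∈ clI X.x.L c.L o p q, (∑ j ∈ clI c.L Y.x.L o' q' r,
      if stn o i q - (q' + j) = t * l then φ (X.fn a (p + i)) * Y.cf b (stn o' j r) y else 0) =
      if (if o then i - i₀ else -(i - i₀)) + j₀ ∈ clI c.L Y.x.L o' q' r then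
        φ (X.fn a (p + i)) * Y.cf b (stn o' ((if o then i - i₀ else -(i - i₀)) + j₀) r) y else 0 := by
    intro i _
    rw [← Finset.sum_ite_eq' (clI c.L Y.x.L o' q' r) ((if o then i - i₀ else -(i - i₀)) + j₀)
      (fun j => φ (X.fn a (p + i)) * Y.cf b (stn o' j r) y)]
    refine Finset.sum_congr rfl (fun j _ => ?_)
    by_cases h : stn o i q - (q' + j) = t * l
    · rw [if_pos h, if_pos ((hcond i j).1 h)]
    · rw [if_neg h, if_neg (fun h' => h ((hcond i j).2 h'))]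
  rw [Finset.sum_congr rfl s1, ← Finset.sum_filter]
  unfold Om
  refine Finset.sum_nbij' (fun i => i - i₀) (fun i => i + i₀) ?_ ?_ ?_ ?_ ?_
  · intro i hi'
    rw [Finset.mem_filter] at hi'
    show i - i₀ ∈ clI X.x.L Y.x.L (o == o') (p + i₀) (stn o' j₀ r)
    rw [m3, sub_add_cancel]
    exact hi'
  · intro i hi'
    have hi2 : i ∈ clI X.x.L Y.x.L (o == o') (p + i₀) (stn o' j₀ r) := hi'
    rw [m3] at hi2
    rw [Finset.mem_filter, add_sub_cancel_right]
    exact hi2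
  · intro i _
    exact sub_add_cancel i i₀
  · intro i _
    exact add_sub_cancel_right i i₀
  · intro i _
    have e1 : p + i₀ + (i - i₀) = p + i := by ring
    have e2 : stn (o == o') (i - i₀) (stn o' j₀ r) =
        stn o' ((if o then i - i₀ else -(i - i₀)) + j₀) r := by
      cases o <;> cases o' <;> simp <;> ring
    rw [e1, e2, LinearMap.smulRight_apply, map_smul, smul_eq_mul]

/-- `→`: decompose `κ` into terms of rank one (`exists_rank_one`), use `cof_eq_Om` with `t = 0`, `i₀ = j₀ = 0`, `q' = q` and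
`exists_enc`, `Enc.zero_iff`; `←`: a nonzero coefficient has indices `i₀, j₀`, use `cof_eq_Om` and `CritB` at the
position `q' + j₀` -/
theorem om_zero_iff {c : Str S} {l : ℕ} (hl : c.MinPer l) (X Y : Blk S k) (a : X.M.C) (b : Dual k Y.M.C) :
    (∀ s ∈ (rdat c l X Y a b).Om, s = 0) ↔ CritB X Y a b c := by
  constructor
  · intro h o o' p q r hp hq hr m1 m2 l1 l2 f1 f2 κ
    by_contra hne
    obtain ⟨φ, y, hy⟩ := exists_rank_one hne
    have h1 : Ord X.x c o p q := ⟨hp, hq, m1, l1, f1⟩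
    have h2 : Ord c Y.x o' q r := ⟨hq, hr, m2, l2, f2⟩
    have hc := cof_eq_Om hl X Y a b h1 h2 φ y (t := 0) (zero_mem_clI _ _ _ _ _) (zero_mem_clI _ _ _ _ _)
      (by rw [stn_zero, zero_mul, add_zero, sub_self])
    rw [add_zero, stn_zero] at hc
    obtain ⟨s, N, hs⟩ := exists_enc _ (cof_finite X Y a b c hl.1 o p q o' q r φ y)
    have hs0 : s = 0 := h s ⟨o, p, q, o', q, r, φ, y, N, h1, h2, hs⟩
    rw [hs.zero_iff] at hs0
    rw [hs0 0] at hc
    exact hy hc.symm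
  · rintro h s ⟨o, p, q, o', q', r, φ, y, N, h1, h2, hs⟩
    rw [hs.zero_iff]
    intro t
    by_contra hne
    have hne' := hne
    unfold cof at hne'
    obtain ⟨i₀, hi, hne1⟩ := Finset.exists_ne_zero_of_sum_ne_zero hne'
    obtain ⟨j₀, hj, hne2⟩ := Finset.exists_ne_zero_of_sum_ne_zero hne1
    have ht : stn o i₀ q - (q' + j₀) = t * l := by
      by_contra hcon
      rw [if_neg hcon] at hne2
      exact hne2 rfl
    rw [cof_eq_Om hl X Y a b h1 h2 φ y hi hj ht] at hne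
    have hO1' : Ord X.x c o (p + i₀) (stn o i₀ q) := h1.cl hi
    have hO1 : Ord X.x c o (p + i₀) (q' + j₀) := by
      have h3 := Ord.shift hl.2.1 hO1' (-t)
      have e : stn o i₀ q + (-t) * (l : ℤ) = q' + j₀ := by linarith
      rwa [e] at h3
    have hO2 : Ord c Y.x o' (q' + j₀) (stn o' j₀ r) := h2.cl hj
    exact hne (h o o' _ _ _ hO1.1 hO1.2.1 hO2.2.1 hO1.2.2.1 hO2.2.2.1 hO1.2.2.2.1 hO2.2.2.2.1
      hO1.2.2.2.2 hO2.2.2.2.2 _)

end StrAlg
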