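import Pool.Agent.Lib.MP_b9fd58_lc.R.HDef

/-!
# Stream R, algebra over `k[X]`
-/

set_option autoImplicit false

namespace StrAlg

open Module Polynomial

variable {D : Dat} {k : Type} [Field k] {S : Sides D}

/-- the band modules with finite-dimensional coefficients are finite-dimensional -/
theorem ME_fd {c : Str S} {l : ℕ} (hl : 0 < l) {V : Type} [AddCommGroup V] [Module k V] {T : V ≃ₗ[k] V}
    (h : c.PerOK l T) (hV : FiniteDimensional k V) : FiniteDimensional k (c.ME l T h).C := by
  let F : (c.ME l T h).C →ₗ[k] (Fin l → V) := LinearMap.pi fun i : Fin l => xiE h (i : ℤ)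
  have hF : Function.Injective F := by
    rw [injective_iff_map_eq_zero]
    intro m hm
    have h1 : ∀ i : ℤ, 0 ≤ i → i < l → cfE h m i = 0 := by
      intro i hi hil
      have h2 := congrFun hm ⟨i.toNat, by omega⟩
      have h3 : F m ⟨i.toNat, by omega⟩ = cfE h m ((i.toNat : ℕ) : ℤ) := rfl
      rw [h3, Int.toNat_of_nonneg hi] at h2
      exact h2
    have hstep : ∀ p : ℤ, cfE h m (p + l) = 0 ↔ cfE h m p = 0 := by
      intro p
      have h2 := cfE_per h m p
      constructor
      · intro h3
        rw [← h2, h3, map_zero]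
      · intro h3
        rw [h3] at h2
        exact T.map_eq_zero_iff.1 h2
    have hstep' : ∀ (n : ℕ) (p : ℤ), cfE h m (p + n * l) = 0 ↔ cfE h m p = 0 := by
      intro n
      induction n with
      | zero => intro p; simp
      | succ n ih =>
        intro p
        have h2 : p + ((n + 1 : ℕ) : ℤ) * l = (p + n * l) + l := by push_cast; ring
        rw [h2, hstep, ih]
    refine cfE_inj h (funext fun p => ?_)
    rw [map_zero, Pi.zero_apply]
    have h4 : cfE h m (p % l) = 0 :=
      h1 _ (Int.emod_nonneg _ (by omega)) (Int.emod_lt_of_pos _ (by omega))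
    have h6 := Int.emod_add_mul_ediv p l
    rcases Int.eq_nat_or_neg (p / l) with ⟨n, hn | hn⟩
    · have h5 : p = p % l + n * l := by
        rw [← hn]; linarith
      rw [h5, hstep']
      exact h4
    · have h5 : p % l = p + n * l := by
        have h7 : (n : ℤ) = - (p / l) := by omega
        rw [h7]; linarith
      rw [h5, hstep'] at h4
      exact h4
  exact FiniteDimensional.of_injective F hF

/-- a module over `k[X]` on which `X` is bijective is `EM T` -/
theorem exists_EM (V : Type) [AddCommGroup V] [Module k V] [Module k[X] V] [IsScalarTower k k[X] V]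
    (hX : Function.Bijective fun x : V => (X : k[X]) • x) :
    ∃ (T : V ≃ₗ[k] V) (e : V ≃ₗ[k[X]] SAlg.EM T.toLinearMap), ∀ v, e v = SAlg.EM.of _ v := by
  let T : V ≃ₗ[k] V := LinearEquiv.ofBijective
    ((LinearMap.lsmul k[X] V (X : k[X])).restrictScalars k) hX
  have hT : ∀ v, T v = (X : k[X]) • v := fun v => rfl
  let f : V →ₗ[k[X]] SAlg.EM T.toLinearMap :=
    SAlg.ofX (SAlg.EM.of T.toLinearMap).toLinearMap (fun m => by
      show SAlg.EM.of T.toLinearMap ((X : k[X]) • m) = (X : k[X]) • SAlg.EM.of T.toLinearMap m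
      rw [SAlg.EM.X_smul_of, ← hT]
      rfl)
  exact ⟨T, LinearEquiv.ofBijective f (SAlg.EM.of T.toLinearMap).bijective, fun v => rfl⟩

/-- the same without a given `k`-structure (take `Module.compHom V (algebraMap k k[X])`) -/
theorem exists_EM' (V : Type) [AddCommGroup V] [Module k[X] V]
    (hX : Function.Bijective fun x : V => (X : k[X]) • x) :
    ∃ (W : Type) (_ : AddCommGroup W) (_ : Module k W) (T : W ≃ₗ[k] W),
      Nonempty (V ≃ₗ[k[X]] SAlg.EM T.toLinearMap) := by
  let _ : Module k V := Module.compHom V (algebraMap k k[X])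
  have : IsScalarTower k k[X] V := ⟨fun c r v => by
    have h1 : c • (r • v) = (algebraMap k k[X] c) • (r • v) := rfl
    rw [h1, smul_smul, Algebra.smul_def]⟩
  obtain ⟨T, e, _⟩ := exists_EM V hX
  exact ⟨V, inferInstance, inferInstance, T, ⟨e⟩⟩

/-- a polynomial coprime to `π` acts bijectively on a module all of whose elements are killed by a power of `π` -/
theorem smul_bijective_of_coprime {V : Type} [AddCommGroup V] [Module k[X] V] {π s : k[X]} (hs : IsCoprime s π)
    (hV : ∀ v : V, ∃ n : ℕ, π ^ n • v = 0) : Function.Bijective fun x : V => s • x := by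
  constructor
  · intro x y hxy
    have h1 : s • (x - y) = 0 := by
      rw [smul_sub, sub_eq_zero]; exact hxy
    obtain ⟨n, hn⟩ := hV (x - y)
    obtain ⟨a, b, hab⟩ := hs.pow_right (n := n)
    have h2 : x - y = 0 := by
      calc x - y = (a * s + b * π ^ n) • (x - y) := by rw [hab, one_smul]
        _ = 0 := by rw [add_smul, mul_smul, mul_smul, h1, hn, smul_zero, smul_zero, add_zero]
    exact sub_eq_zero.1 h2
  · intro y
    obtain ⟨n, hn⟩ := hV y
    obtain ⟨a, b, hab⟩ := hs.pow_right (n := n)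
    refine ⟨a • y, ?_⟩
    calc s • a • y = (a * s + b * π ^ n) • y := by
          rw [add_smul, mul_smul b, hn, smul_zero, add_zero, smul_smul, mul_comm]
      _ = y := by rw [hab, one_smul]

theorem prime_natDegree {π : k[X]} (hπ : Prime π) (hX : ¬ π ∣ X) : 0 < π.natDegree ∧ π.coeff 0 ≠ 0 := by
  refine ⟨hπ.irreducible.natDegree_pos, fun h0 => hX ?_⟩
  exact (Polynomial.irreducible_X.associated_of_dvd hπ.irreducible (X_dvd_iff.2 h0)).symm.dvd

theorem not_dvd_X {π : k[X]} (h0 : 0 < π.natDegree) (h : π.coeff 0 ≠ 0) : ¬ π ∣ X := by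
  intro hd
  rcases (Polynomial.irreducible_X.dvd_iff).1 hd with hu | ha
  · have := natDegree_eq_zero_of_isUnit hu
    omega
  · exact h (X_dvd_iff.1 ha.dvd)

theorem coprime_X {π : k[X]} (h : π.coeff 0 ≠ 0) : IsCoprime X π :=
  (Polynomial.irreducible_X.coprime_iff_not_dvd).2 fun hd => h (X_dvd_iff.1 hd)

/-- `X` is bijective on `R/(π^n)`, `R[1/π]/R`, `R_(π)` if `π` is prime and does not divide `X` -/
theorem X_bij_quot {π : k[X]} (h : π.coeff 0 ≠ 0) (n : ℕ) :
    Function.Bijective fun x : k[X] ⧸ Ideal.span {π ^ n} => (X : k[X]) • x := by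
  refine smul_bijective_of_coprime (coprime_X h) fun v => ⟨n, ?_⟩
  obtain ⟨r, rfl⟩ := Ideal.Quotient.mk_surjective v
  show Ideal.Quotient.mk (Ideal.span {π ^ n}) (π ^ n * r) = 0
  exact Ideal.Quotient.eq_zero_iff_mem.2 (Ideal.mem_span_singleton.2 (dvd_mul_right _ _))

theorem X_bij_PR {π : k[X]} (hπ : Prime π) (h : π.coeff 0 ≠ 0) :
    Function.Bijective fun x : SAlg.PR π => (X : k[X]) • x :=
  smul_bijective_of_coprime (coprime_X h) fun v => SAlg.PR_tors π v

theorem X_bij_AD {π : k[X]} (hπ : Prime π) (h : π.coeff 0 ≠ 0) :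
    Function.Bijective fun x : SAlg.AD π => (X : k[X]) • x := by
  have hu : IsUnit (algebraMap k[X] (SAlg.AD π) X) :=
    IsLocalization.map_units (SAlg.AD π) (⟨X, coprime_X h⟩ : SAlg.copr π)
  have h1 : (fun x : SAlg.AD π => (X : k[X]) • x) = fun x => algebraMap k[X] (SAlg.AD π) X * x := by
    funext x
    rw [Algebra.smul_def]
  rw [h1]
  exact IsUnit.isUnit_iff_mulLeft_bijective.1 hu

theorem fd_quot {π : k[X]} (hπ : π ≠ 0) : FiniteDimensional k (k[X] ⧸ Ideal.span {π}) :=
  (AdjoinRoot.powerBasis hπ).finite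

end StrAlg
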