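import Pool.Agent.Lib.MP_b9fd58_lc.R.AlgC

/-!
# MP_b9fd58_lc, stream R: the module part of a pair and the list of the four types
-/

set_option autoImplicit false

namespace SAlg

open Function

universe u v w

/-- The part of a block pair which is seen by the modules `M(b,V)`. -/
structure RDat (R : Type u) [CommRing R] (A : Type w) [AddCommGroup A] where
  /-- the module of the source block -/
  V1 : Type v
  /-- the module of the target block -/
  V2 : Type v
  [a1 : AddCommGroup V1]
  [a2 : AddCommGroup V2]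
  [m1 : Module R V1]
  [m2 : Module R V2]
  [n1 : IsNoetherian R V1]
  /-- annihilators -/
  g1 : R
  g2 : R
  g1_ne : g1 ≠ 0
  g2_ne : g2 ≠ 0
  kill1 : ∀ v : V1, g1 • v = 0
  kill2 : ∀ v : V2, g2 • v = 0
  /-- the polynomials of the pairs of finite graph maps -/
  Om : Set R
  /-- the vectors of the target graph maps -/
  S2 : Set V1
  /-- the functionals of the source graph maps -/
  S3 : Set (V2 →+ A)
  /-- the functionals of the module part -/
  S4 : Set ((V1 →ₗ[R] V2) →+ A)

attribute [instance] RDat.a1 RDat.a2 RDat.m1 RDat.m2 RDat.n1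

variable {R : Type u} [CommRing R] {A : Type w} [AddCommGroup A]

/-- The datum is closed on `V`. -/
structure RDat.Closed (D : RDat.{u, v, w} R A) (V : Type*) [AddCommGroup V] [Module R V] :
    Prop where
  c1 : ∀ r ∈ D.Om, ∀ v : V, r • v = 0
  c2 : ∀ x ∈ D.S2, ∀ f : D.V1 →ₗ[R] V, f x = 0
  c3 : ∀ l ∈ D.S3, ∀ (G : V →ₗ[R] D.V2) (x : V), l (G x) = 0
  c4 : ∀ o ∈ D.S4, ∀ (f : D.V1 →ₗ[R] V) (G : V →ₗ[R] D.V2), o (G ∘ₗ f) = 0

/-- Closed at the prime `π`, first kind: for the module `R[1/π]/R`. -/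
structure RDat.ClosedP (D : RDat.{u, v, w} R A) (π : R) : Prop where
  c1 : ∀ r ∈ D.Om, r = 0
  c2 : ∀ x ∈ D.S2, ∃ s : R, IsCoprime s π ∧ s • x = 0

/-- Closed at the prime `π`, second kind: for the module `R_(π)`. -/
structure RDat.ClosedA (D : RDat.{u, v, w} R A) (π : R) : Prop where
  c1 : ∀ r ∈ D.Om, r = 0
  c3 : ∀ l ∈ D.S3, ∀ (n : ℕ) (x : D.V2), π ^ n • x = 0 → l x = 0

variable [IsDomain R] [IsPrincipalIdealRing R]

theorem RDat.closed_PR_iff (D : RDat.{u, v, w} R A) {π : R} (hπ : Prime π) :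
    D.Closed (PR π) ↔ D.ClosedP π := by
  constructor
  · intro h
    refine ⟨fun r hr => ?_, fun x hx => ?_⟩
    · by_contra hr0
      obtain ⟨y, hy⟩ := PR_faithful hπ r hr0
      exact hy (h.c1 r hr y)
    · by_contra hcon
      push Not at hcon
      obtain ⟨f, hf⟩ := PR_hom hπ x hcon
      exact hf (h.c2 x hx f)
  · intro h
    refine ⟨fun r hr v => ?_, fun x hx f => ?_, fun l _ G x => ?_, fun o _ f G => ?_⟩
    · rw [h.c1 r hr, zero_smul]
    · obtain ⟨s, hs, hsx⟩ := h.c2 x hx
      exact PR_hom_kill f x s hs hsx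
    · rw [PR_hom_zero hπ D.g2 D.g2_ne D.kill2 G, LinearMap.zero_apply, map_zero]
    · rw [PR_hom_zero hπ D.g2 D.g2_ne D.kill2 G, LinearMap.zero_comp, map_zero]

theorem RDat.closed_AD_iff (D : RDat.{u, v, w} R A) {π : R} (hπ : Prime π) :
    D.Closed (AD π) ↔ D.ClosedA π := by
  constructor
  · intro h
    refine ⟨fun r hr => ?_, fun l hl n x hx => ?_⟩
    · by_contra hr0
      have hdom : IsDomain (AD π) := IsLocalization.isDomain_localization (copr_le hπ)
      exact one_ne_zero (AD_torsionFree hπ r hr0 (1 : AD π) (h.c1 r hr 1))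
    · obtain ⟨G, hG⟩ := AD_exists n x hx
      rw [← hG]
      exact h.c3 l hl G 1
  · intro h
    refine ⟨fun r hr v => ?_, fun x _ f => ?_, fun l hl G x => ?_, fun o _ f G => ?_⟩
    · rw [h.c1 r hr, zero_smul]
    · rw [AD_hom_zero hπ D.g1 D.g1_ne D.kill1 f, LinearMap.zero_apply]
    · obtain ⟨n, hn⟩ := AD_hom_tors hπ D.g2 D.g2_ne D.kill2 G x
      exact h.c3 l hl n _ hn
    · rw [AD_hom_zero hπ D.g1 D.g1_ne D.kill1 f, LinearMap.comp_zero, map_zero]

omit [IsDomain R] [IsPrincipalIdealRing R] in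
/-- A datum closed on `V` is closed on the direct summands of `V`. -/
theorem RDat.Closed.retract {D : RDat.{u, v, w} R A} {V V' : Type*} [AddCommGroup V] [Module R V]
    [AddCommGroup V'] [Module R V'] (h : D.Closed V) (ι : V' →ₗ[R] V) (e : V →ₗ[R] V')
    (hιe : ∀ x, e (ι x) = x) : D.Closed V' := by
  have hinj : Injective ι := LeftInverse.injective hιe
  refine ⟨fun r hr v => ?_, fun x hx f => ?_, fun l hl G x => ?_, fun o ho f G => ?_⟩
  · apply hinj
    rw [map_smul, h.c1 r hr, map_zero]
  · apply hinj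
    rw [map_zero]
    exact h.c2 x hx (ι ∘ₗ f)
  · have := h.c3 l hl (G ∘ₗ e) (ι x)
    rwa [LinearMap.comp_apply, hιe] at this
  · have := h.c4 o ho (ι ∘ₗ f) (G ∘ₗ e)
    have h2 : (G ∘ₗ e) ∘ₗ (ι ∘ₗ f) = G ∘ₗ f := by
      ext x
      simp [hιe]
    rwa [h2] at this

/-- The transfer to `R[1/π]/R`. -/
theorem transfer_P {π : R} (hπ : Prime π) {V : Type*} [AddCommGroup V] [Module R V] (z : V)
    (hz0 : z ≠ 0) (hinf : ∀ n : ℕ, ∃ w : V, z = π ^ n • w) (hz : π • z = 0)
    {V₁ : Type*} [AddCommGroup V₁] [Module R V₁] (g : R) (hg0 : g ≠ 0) (hg : ∀ v : V₁, g • v = 0)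
    (v : V₁) (hv : ∀ f : V₁ →ₗ[R] V, f v = 0) : ∃ s : R, IsCoprime s π ∧ s • v = 0 := by
  by_contra hcon
  push Not at hcon
  obtain ⟨a, u, rfl, hu⟩ := exists_pow_mul' hπ hg0
  -- a multiple of `v` in the socle
  have huv : u • v ≠ 0 := hcon u hu
  have hex : ∃ i : ℕ, π ^ i • u • v = 0 := ⟨a, by rw [smul_smul]; exact hg v⟩
  classical
  have hfind := Nat.find_spec hex
  have hmin := fun m (hm : m < Nat.find hex) => Nat.find_min hex hm
  set N := Nat.find hex with hN
  have hN0 : N ≠ 0 := by
    intro h0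
    rw [h0, pow_zero, one_smul] at hfind
    exact huv hfind
  obtain ⟨i, hi⟩ := Nat.exists_eq_succ_of_ne_zero hN0
  have h1 : π ^ i • u • v ≠ 0 := hmin i (by omega)
  set z₁ : V₁ := π ^ i • u • v with hz₁
  have h2 : π • z₁ = 0 := by
    rw [hz₁, smul_smul, ← pow_succ', ← Nat.succ_eq_add_one, ← hi]
    exact hfind
  rcases height_cases π z₁ h2 with h3 | ⟨n, w₁, hw₁, hPS⟩
  · exact h1 (inf_height_zero hπ _ hg0 hg z₁ h2 h3)
  · obtain ⟨ι, e, -, -, he⟩ := exists_split hπ hPS
    obtain ⟨w, hw⟩ := hinf n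
    have hw' : π ^ (n + 1) • w = 0 := by rw [pow_succ', mul_smul, ← hw, hz]
    let θ : (R ⧸ Ideal.span {π ^ (n + 1)}) →ₗ[R] V :=
      Submodule.liftQ (Ideal.span {π ^ (n + 1)}) (LinearMap.toSpanSingleton R V w) (by
        show Submodule.span R {π ^ (n + 1)} ≤ _
        rw [Submodule.span_le, Set.singleton_subset_iff]
        exact hw')
    have hθ : θ 1 = w := by
      show (1 : R) • w = w
      rw [one_smul]
    have h4 : θ (e z₁) = z := by
      rw [hw₁, map_smul, he, map_smul, hθ, ← hw]
    have h5 := hv (θ ∘ₗ e)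
    have h6 : θ (e z₁) = 0 := by
      have : (θ ∘ₗ e) z₁ = π ^ i • u • (θ ∘ₗ e) v := by rw [hz₁, map_smul, map_smul]
      rw [h5, smul_zero, smul_zero] at this
      exact this
    exact hz0 (by rw [← h4, h6])

/-- The transfer to `R_(π)`. -/
theorem transfer_A {π : R} (hπ : Prime π) {V : Type*} [AddCommGroup V] [Module R V]
    {A' : Type*} [AddCommGroup A'] (z : V →+ A') (hz0 : z ≠ 0) (hz : ∀ v, z (π • v) = 0)
    (hinf : ∀ (n : ℕ) (v : V), π ^ n • v = 0 → z v = 0)
    {V₂ : Type*} [AddCommGroup V₂] [Module R V₂] (n : ℕ) (u : V₂) (hu : π ^ n • u = 0) :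
    ∃ (G : V →ₗ[R] V₂) (t : V), G t = u := by
  obtain ⟨t, ht⟩ : ∃ t, z t ≠ 0 := by
    by_contra hcon
    push Not at hcon
    exact hz0 (AddMonoidHom.ext hcon)
  obtain ⟨G, hG⟩ := exists_proj hπ n t (by
    intro s hs
    have h1 : π ^ n • (t - π • s) = 0 := by
      rw [smul_sub, hs, smul_smul, pow_succ, sub_self]
    have h2 := hinf n _ h1
    rw [map_sub, hz, sub_zero] at h2
    exact ht h2)
  let θ : (R ⧸ Ideal.span {π ^ (n + 1)}) →ₗ[R] V₂ :=
    Submodule.liftQ (Ideal.span {π ^ (n + 1)}) (LinearMap.toSpanSingleton R V₂ u) (by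
      show Submodule.span R {π ^ (n + 1)} ≤ _
      rw [Submodule.span_le, Set.singleton_subset_iff]
      show π ^ (n + 1) • u = 0
      rw [pow_succ', mul_smul, hu, smul_zero])
  refine ⟨θ ∘ₗ G, t, ?_⟩
  rw [LinearMap.comp_apply, hG]
  show (1 : R) • u = u
  rw [one_smul]

omit [IsPrincipalIdealRing R] in
theorem pow_ne_zero_quot {π : R} (hπ : Prime π) (n : ℕ) :
    (π ^ n • (1 : R ⧸ Ideal.span {π ^ (n + 1)})) ≠ 0 := by
  intro h
  have h1 : (Ideal.Quotient.mk (Ideal.span {π ^ (n + 1)})) (π ^ n * 1) = 0 := h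
  rw [Ideal.Quotient.eq_zero_iff_mem, Ideal.mem_span_singleton, mul_one] at h1
  have h2 := (pow_dvd_pow_iff hπ.ne_zero hπ.not_isUnit).1 h1
  omega

/-- The four types.  `X` is an element which acts bijectively on `V`. -/
theorem four_types {κ : Type*} (P : κ → RDat.{u, v, w} R A) (q : RDat.{u, v, w} R A)
    (V : Type v) [AddCommGroup V] [Module R V] (X : R) (hX : Bijective fun x : V => X • x)
    (hP : ∀ i, (P i).Closed V) (hq : ¬ q.Closed V) :
    ((∀ i, ∀ r ∈ (P i).Om, r = 0) ∧ ∃ r ∈ q.Om, r ≠ 0) ∨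
    (∃ π : R, Prime π ∧ ¬ π ∣ X ∧ ∃ n : ℕ,
      (∃ (ι : (R ⧸ Ideal.span {π ^ (n + 1)}) →ₗ[R] V)
        (e : V →ₗ[R] (R ⧸ Ideal.span {π ^ (n + 1)})), ∀ x, e (ι x) = x) ∧
      ¬ q.Closed (R ⧸ Ideal.span {π ^ (n + 1)})) ∨
    (∃ π : R, Prime π ∧ ¬ π ∣ X ∧ (∀ i, (P i).ClosedP π) ∧ ¬ q.ClosedP π) ∨
    (∃ π : R, Prime π ∧ ¬ π ∣ X ∧ (∀ i, (P i).ClosedA π) ∧ ¬ q.ClosedA π) := by
  classical
  -- elements killed by a prime
  have hXtor : ∀ (π : R) (z : V), z ≠ 0 → π • z = 0 → ¬ π ∣ X := by
    rintro π z hz0 hz ⟨c, hc⟩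
    apply hz0
    apply hX.1
    simp only [smul_zero]
    rw [hc, mul_comm, mul_smul, hz, smul_zero]
  -- the datum `q` fails for one reason
  by_cases hc1 : ∀ r ∈ q.Om, ∀ v : V, r • v = 0
  · -- conditions 2, 3, 4
    by_cases hc2 : ∀ x ∈ q.S2, ∀ f : q.V1 →ₗ[R] V, f x = 0
    · by_cases hc3 : ∀ l ∈ q.S3, ∀ (G : V →ₗ[R] q.V2) (x : V), l (G x) = 0
      · -- condition 4
        have hc4 : ¬ ∀ o ∈ q.S4, ∀ (f : q.V1 →ₗ[R] V) (G : V →ₗ[R] q.V2), o (G ∘ₗ f) = 0 :=
          fun h => hq ⟨hc1, hc2, hc3, h⟩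
        push Not at hc4
        obtain ⟨o, ho, f, G, hoG⟩ := hc4
        obtain ⟨π, hπ, n, y, hPS, f', G', hne⟩ := both_case q.g1 q.g2 q.g1_ne q.g2_ne q.kill1
          q.kill2 o (LinearMap.ker f) V f G rfl hoG
        obtain ⟨ι, e, hιe, hι1, -⟩ := exists_split hπ hPS
        right; left
        refine ⟨π, hπ, ?_, n, ⟨ι, e, hιe⟩, fun h => hne (h.c4 o ho f' G')⟩
        refine hXtor π (π ^ n • y) ?_ ?_
        · intro h0
          apply hPS.2 0
          rw [h0, smul_zero]
        · rw [smul_smul, ← pow_succ']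
          exact hPS.1
      · push Not at hc3
        obtain ⟨l, hl, G, x, hlx⟩ := hc3
        -- the functional `z = l ∘ (c G)`, killed by a prime
        let J : Ideal R :=
          { carrier := {d | ∀ y, l (d • G y) = 0}
            add_mem' := fun {a b} ha hb y => by
              rw [add_smul, map_add, ha y, hb y, add_zero]
            zero_mem' := fun y => by rw [zero_smul, map_zero]
            smul_mem' := fun r d hd y => by
              rw [smul_eq_mul, mul_comm, mul_smul, ← map_smul]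
              exact hd (r • y) }
        have hJ : ∀ d : R, d ∈ J ↔ ∀ y, l (d • G y) = 0 := fun d => Iff.rfl
        obtain ⟨a, ha⟩ := (IsPrincipalIdealRing.principal J).principal
        have hJa : ∀ d : R, d ∈ J ↔ a ∣ d := by
          intro d
          rw [ha]
          exact Ideal.mem_span_singleton
        have hag : a ∣ q.g2 := by
          rw [← hJa, hJ]
          intro y
          rw [q.kill2, map_zero]
        have ha0 : a ≠ 0 := by
          rintro rfl
          exact q.g2_ne (zero_dvd_iff.1 hag)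
        have hau : ¬ IsUnit a := by
          intro hu
          have h1 : (1 : R) ∈ J := (hJa 1).2 hu.dvd
          have := (hJ 1).1 h1 x
          rw [one_smul] at this
          exact hlx this
        obtain ⟨π, hπ, c, hac⟩ := WfDvdMonoid.exists_irreducible_factor hau ha0
        have hπ' := hπ.prime
        have hc0 : c ≠ 0 := by
          rintro rfl
          rw [mul_zero] at hac
          exact ha0 hac
        have hcJ : c ∉ J := by
          rw [hJa, hac]
          rintro ⟨d, hd⟩
          apply hπ.not_isUnit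
          have h2 : c * (π * d) = c * 1 := by
            rw [mul_one]
            calc c * (π * d) = π * c * d := by ring
              _ = c := hd.symm
          exact IsUnit.of_mul_eq_one _ (mul_left_cancel₀ hc0 h2)
        have haJ : a ∈ J := (hJa a).2 dvd_rfl
        rw [hJ] at hcJ haJ
        push Not at hcJ
        obtain ⟨t, ht⟩ := hcJ
        let z : V →+ A :=
          { toFun := fun y => l (c • G y)
            map_zero' := by rw [map_zero, smul_zero, map_zero]
            map_add' := fun y y' => by rw [map_add, smul_add, map_add] }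
        have hz : ∀ y, z y = l (c • G y) := fun y => rfl
        have hzπ : ∀ y, z (π • y) = 0 := by
          intro y
          rw [hz]
          have h1 : c • G (π • y) = a • G y := by
            rw [map_smul, smul_smul, mul_comm, ← hac]
          rw [h1]
          exact haJ y
        have hz0 : z ≠ 0 := by
          intro h0
          apply ht
          rw [← hz, h0, AddMonoidHom.zero_apply]
        have hπX : ¬ π ∣ X := by
          rintro ⟨d, hd⟩
          obtain ⟨t', ht'⟩ := hX.2 t
          simp only at ht'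
          apply ht
          rw [← hz, ← ht', hd, mul_smul]
          exact hzπ _
        rcases coheight_cases π z hzπ with hinf | ⟨n, w, hw, hPS⟩
        · right; right; right
          refine ⟨π, hπ', hπX, fun i => ⟨fun r hr => ?_, fun l' hl' n u hu => ?_⟩, fun hcl => ?_⟩
          · by_contra hr0
            obtain ⟨i₀, u, hru, hu⟩ := exists_pow_mul' hπ' hr0
            obtain ⟨α, β, hαβ⟩ := hu
            apply ht
            rw [← hz]
            have h1 : z ((α * u) • t) = 0 := by
              apply hinf i₀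
              rw [smul_smul, show π ^ i₀ * (α * u) = α * (π ^ i₀ * u) by ring, ← hru, mul_smul,
                (hP i).c1 r hr t, smul_zero]
            calc z t = z ((α * u + β * π) • t) := by rw [hαβ, one_smul]
              _ = 0 := by rw [add_smul, map_add, h1, mul_comm β, mul_smul, hzπ, add_zero]
          · obtain ⟨G', t', hG'⟩ := transfer_A hπ' z hz0 hzπ hinf n u hu
            rw [← hG']
            exact (hP i).c3 l' hl' G' t'
          · obtain ⟨i₀, u, hgu, hu⟩ := exists_pow_mul' hπ' q.g2_ne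
            obtain ⟨α, β, hαβ⟩ := hu.pow_right (n := i₀ + 1)
            apply ht
            have h1 : l ((α * u) • c • G t) = 0 := by
              apply hcl.c3 l hl (i₀ + 1)
              rw [smul_smul, show π ^ (i₀ + 1) * (α * u) = (π * α) * (π ^ i₀ * u) by ring,
                ← hgu, mul_smul, q.kill2, smul_zero]
            have h2 : l ((β * π ^ (i₀ + 1)) • c • G t) = 0 := by
              have : (β * π ^ (i₀ + 1)) • c • G t = c • G (π • (β * π ^ i₀) • t) := by
                rw [map_smul, map_smul, smul_smul, smul_smul, smul_smul]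
                congr 1
                ring
              rw [this, ← hz]
              exact hzπ _
            calc l (c • G t) = l ((α * u + β * π ^ (i₀ + 1)) • c • G t) := by
                  rw [hαβ, one_smul]
              _ = 0 := by rw [add_smul, map_add, h1, h2, add_zero]
        · obtain ⟨ι, e, hιe, hι1, he⟩ := exists_split hπ' hPS
          right; left
          refine ⟨π, hπ', hπX, n, ⟨ι, e, hιe⟩, fun h => ?_⟩
          apply hw
          have h1 := h.c3 l hl (G ∘ₗ ι) (Ideal.Quotient.mk _ c)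
          have h2 : (G ∘ₗ ι) (Ideal.Quotient.mk _ c) = c • G w := by
            have h3 : (Ideal.Quotient.mk (Ideal.span {π ^ (n + 1)}) c) =
                c • (1 : R ⧸ Ideal.span {π ^ (n + 1)}) := by
              show _ = Ideal.Quotient.mk _ (c * 1)
              rw [mul_one]
            rw [LinearMap.comp_apply, h3, map_smul, map_smul, hι1]
          rw [h2] at h1
          exact h1
    · push Not at hc2
      obtain ⟨x, hx, f, hfx⟩ := hc2
      obtain ⟨π, hπ, -, c, hc, hπc⟩ := exists_socle (f x) hfx q.g1 q.g1_ne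
        (by rw [← map_smul, q.kill1, map_zero])
      have hπX := hXtor π _ hc hπc
      rcases height_cases π (c • f x) hπc with hinf | ⟨n, w, hw, hPS⟩
      · -- infinite height
        right; right; left
        refine ⟨π, hπ, hπX, fun i => ⟨fun r hr => ?_, fun x' hx' => ?_⟩, fun hcl => ?_⟩
        · by_contra hr0
          exact hc (inf_height_zero hπ r hr0 ((hP i).c1 r hr) _ hπc hinf)
        · exact transfer_P hπ _ hc hinf hπc (P i).g1 (P i).g1_ne (P i).kill1 x'
            ((hP i).c2 x' hx')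
        · obtain ⟨s, hs, hsx⟩ := hcl.c2 x hx
          apply hc
          obtain ⟨a, b, hab⟩ := hs
          calc c • f x = (a * s + b * π) • c • f x := by rw [hab, one_smul]
            _ = 0 := by
              rw [add_smul, mul_smul, mul_smul b, hπc, smul_zero, add_zero, smul_comm s c,
                ← map_smul, hsx, map_zero, smul_zero, smul_zero]
      · obtain ⟨ι, e, hιe, hι1, he⟩ := exists_split hπ hPS
        right; left
        refine ⟨π, hπ, hπX, n, ⟨ι, e, hιe⟩, fun h => ?_⟩
        have h1 := h.c2 x hx (e ∘ₗ f)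
        apply pow_ne_zero_quot hπ n
        rw [← he, ← map_smul, ← hw, map_smul]
        rw [LinearMap.comp_apply] at h1
        rw [h1, smul_zero]
  · push Not at hc1
    obtain ⟨r, hr, v, hrv⟩ := hc1
    by_cases hPO : ∀ i, ∀ r ∈ (P i).Om, r = 0
    · left
      refine ⟨hPO, r, hr, ?_⟩
      rintro rfl
      exact hrv (zero_smul _ _)
    · push Not at hPO
      obtain ⟨i, g, hg, hg0⟩ := hPO
      have hkill := (hP i).c1 g hg
      obtain ⟨π, hπ, -, c, hc, hπc⟩ := exists_socle (r • v) hrv g hg0 (hkill _)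
      have hπX := hXtor π _ hc hπc
      rcases height_cases π (c • r • v) hπc with hinf | ⟨n, w, hw, hPS⟩
      · exact absurd (inf_height_zero hπ g hg0 hkill _ hπc hinf) hc
      · obtain ⟨ι, e, hιe, hι1, he⟩ := exists_split hπ hPS
        right; left
        refine ⟨π, hπ, hπX, n, ⟨ι, e, hιe⟩, fun h => ?_⟩
        have h1 := h.c1 r hr (e v)
        apply pow_ne_zero_quot hπ n
        rw [← he, ← map_smul, ← hw, map_smul, map_smul, h1, smul_zero]

end SAlg
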