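import Pool.Agent.Lib.MP_b9fd58_lc.R.EM
import Pool.Agent.Lib.MP_b9fd58_lc.R.AlgD

/-!
# Stream R, algebra over `k[X]` (II)

Tools: `AlgB.lean` (`exists_socle`), `AlgC.lean` (`exists_pow_mul'`: `g = π ^ a * u` with `u` coprime to `π`).
* `exists_order`: `u • x ≠ 0` and `π ^ a • u • x = 0`; take the last nonzero `π ^ i • u • x`, `h = π ^ i * u`.
* `exists_prime_factor`: the ideal of all `d` with `d • h • x = 0` is principal, generated by a divisor of `π` which is not a
  unit; or use `exists_socle`.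
* `exists_order'`: with `J` the ideal of all `d` such that `f (d • y) = 0` for all `y`: `d = α * u` with
  `α * u + β * π ^ n = 1` is not in `J`, `π ^ a * d` is in `J`; `h = π ^ i * d` for the last `i` with `π ^ i * d` not in `J`.
* `exists_prime_factor'`: the ideal of all `d` such that `f (d • h • y) = 0` for all `y` is generated by a divisor of `π`, not
  a unit.
* `exists_primary`: `α * u + β * π = 1`, `x = (α * u * h) • y`, `n = a`.
-/

set_option autoImplicit false

namespace StrAlg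

open Module Polynomial SAlg

variable {k : Type} [Field k]

/-- if `x` is killed by `g ≠ 0` but by no element coprime to `π`, then `h • x` has order `π` for some `h` -/
theorem exists_order {V : Type} [AddCommGroup V] [Module k[X] V] {π : k[X]} (hπ : Prime π) {g : k[X]} (hg0 : g ≠ 0)
    {x : V} (hg : g • x = 0) (hx : ∀ s : k[X], IsCoprime s π → s • x ≠ 0) :
    ∃ h : k[X], h • x ≠ 0 ∧ (π * h) • x = 0 := by
  classical
  obtain ⟨a, u, rfl, hu⟩ := exists_pow_mul' hπ hg0
  have hex : ∃ i : ℕ, (π ^ i * u) • x = 0 := ⟨a, hg⟩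
  have h0 : Nat.find hex ≠ 0 := by
    intro h0
    have h1 := Nat.find_spec hex
    rw [h0, pow_zero, one_mul] at h1
    exact hx u hu h1
  obtain ⟨i, hi⟩ := Nat.exists_eq_succ_of_ne_zero h0
  refine ⟨π ^ i * u, ?_, ?_⟩
  · exact Nat.find_min hex (m := i) (by omega)
  · have h1 := Nat.find_spec hex
    rw [hi, Nat.succ_eq_add_one, pow_succ'] at h1
    rwa [← mul_assoc]

/-- the converse for non-prime `π`: if `h • x ≠ 0` and `(π * h) • x = 0`, then some prime factor `π'` of `π` has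
`h' • x ≠ 0`, `(π' * h') • x = 0` for some `h'` -/
theorem exists_prime_factor {V : Type} [AddCommGroup V] [Module k[X] V] {π : k[X]} (hπ : 0 < π.natDegree)
    {h : k[X]} {x : V} (h1 : h • x ≠ 0) (h2 : (π * h) • x = 0) :
    ∃ (π' h' : k[X]), Prime π' ∧ π' ∣ π ∧ h' • x ≠ 0 ∧ (π' * h') • x = 0 := by
  have hπ0 : π ≠ 0 := by
    rintro rfl
    simp at hπ
  obtain ⟨π', hp, hd, c, hc1, hc2⟩ := exists_socle (h • x) h1 π hπ0 (by rw [smul_smul]; exact h2)
  refine ⟨π', c * h, hp, hd, ?_, ?_⟩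
  · rwa [mul_smul]
  · rw [mul_smul, mul_smul]
    exact hc2

/-- the version for functionals -/
theorem exists_order' {V : Type} [AddCommGroup V] [Module k[X] V] {π : k[X]} (hπ : Prime π) {g : k[X]} (hg0 : g ≠ 0)
    (hg : ∀ x : V, g • x = 0) {f : V →+ k} {x : V} {n : ℕ} (hx : π ^ n • x = 0) (hf : f x ≠ 0) :
    ∃ h : k[X], (∃ y, f (h • y) ≠ 0) ∧ ∀ y, f ((π * h) • y) = 0 := by
  classical
  obtain ⟨a, u, rfl, hu⟩ := exists_pow_mul' hπ hg0
  obtain ⟨α, β, hαβ⟩ := hu.pow_right (n := n)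
  have hdx : f ((α * u) • x) = f x := by
    have h1 : x = (α * u) • x + (β * π ^ n) • x := by rw [← add_smul, hαβ, one_smul]
    have h2 : (β * π ^ n) • x = 0 := by rw [mul_smul, hx, smul_zero]
    rw [h2, add_zero] at h1
    rw [← h1]
  have hex : ∃ i : ℕ, ∀ y, f ((π ^ i * (α * u)) • y) = 0 := by
    refine ⟨a, fun y => ?_⟩
    have h1 : π ^ a * (α * u) = α * (π ^ a * u) := by ring
    rw [h1, mul_smul, hg, smul_zero, map_zero]
  have h0 : Nat.find hex ≠ 0 := by
    intro h0
    have h1 := Nat.find_spec hex x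
    rw [h0, pow_zero, one_mul, hdx] at h1
    exact hf h1
  obtain ⟨i, hi⟩ := Nat.exists_eq_succ_of_ne_zero h0
  refine ⟨π ^ i * (α * u), ?_, ?_⟩
  · have h1 := Nat.find_min hex (m := i) (by omega)
    push Not at h1
    exact h1
  · intro y
    have h1 := Nat.find_spec hex y
    rw [hi, Nat.succ_eq_add_one, pow_succ'] at h1
    rwa [← mul_assoc]

theorem exists_prime_factor' {V : Type} [AddCommGroup V] [Module k[X] V] {π : k[X]} (hπ : 0 < π.natDegree)
    {f : V →+ k} {h : k[X]} (h1 : ∃ y, f (h • y) ≠ 0) (h2 : ∀ y, f ((π * h) • y) = 0) :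
    ∃ (π' h' : k[X]), Prime π' ∧ π' ∣ π ∧ (∃ y, f (h' • y) ≠ 0) ∧ ∀ y, f ((π' * h') • y) = 0 := by
  have hπ0 : π ≠ 0 := by
    rintro rfl
    simp at hπ
  let J : Ideal k[X] :=
    { carrier := {d | ∀ y, f ((d * h) • y) = 0}
      add_mem' := fun {a b} ha hb y => by
        rw [add_mul, add_smul, map_add, ha y, hb y, add_zero]
      zero_mem' := fun y => by rw [zero_mul, zero_smul, map_zero]
      smul_mem' := fun r d hd y => by
        rw [smul_eq_mul, show r * d * h = (d * h) * r by ring, mul_smul]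
        exact hd (r • y) }
  have hJ : ∀ d : k[X], d ∈ J ↔ ∀ y, f ((d * h) • y) = 0 := fun d => Iff.rfl
  obtain ⟨a, ha⟩ := (IsPrincipalIdealRing.principal J).principal
  have hJa : ∀ d : k[X], d ∈ J ↔ a ∣ d := by
    intro d
    rw [ha]
    exact Ideal.mem_span_singleton
  have haπ : a ∣ π := (hJa π).1 h2
  have ha0 : a ≠ 0 := by
    rintro rfl
    exact hπ0 (zero_dvd_iff.1 haπ)
  have hau : ¬ IsUnit a := by
    intro hu
    have h3 : (1 : k[X]) ∈ J := (hJa 1).2 hu.dvd
    obtain ⟨y, hy⟩ := h1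
    have := (hJ 1).1 h3 y
    rw [one_mul] at this
    exact hy this
  obtain ⟨π', hπ', c, hac⟩ := WfDvdMonoid.exists_irreducible_factor hau ha0
  have hc0 : c ≠ 0 := by
    rintro rfl
    rw [mul_zero] at hac
    exact ha0 hac
  have hcJ : c ∉ J := by
    rw [hJa, hac]
    rintro ⟨d, hd⟩
    apply hπ'.not_isUnit
    have h2 : c * (π' * d) = c * 1 := by
      rw [mul_one]
      calc c * (π' * d) = π' * c * d := by ring
        _ = c := hd.symm
    exact IsUnit.of_mul_eq_one _ (mul_left_cancel₀ hc0 h2)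
  have haJ : a ∈ J := (hJa a).2 dvd_rfl
  rw [hJ] at hcJ haJ
  push Not at hcJ
  refine ⟨π', c * h, hπ'.prime, (Dvd.intro _ hac.symm).trans haπ, hcJ, fun y => ?_⟩
  rw [← mul_assoc, ← hac]
  exact haJ y

/-- a functional with `f (h • y) ≠ 0`, `f ((π * h) • y) = 0` for all `y`, on a module killed by `g ≠ 0`, is not zero on the
`π`-primary part -/
theorem exists_primary {V : Type} [AddCommGroup V] [Module k[X] V] {π : k[X]} (hπ : Prime π) {g : k[X]} (hg0 : g ≠ 0)
    (hg : ∀ x : V, g • x = 0) {f : V →+ k} {h : k[X]} (h1 : ∃ y, f (h • y) ≠ 0)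
    (h2 : ∀ y, f ((π * h) • y) = 0) : ∃ (n : ℕ) (x : V), π ^ n • x = 0 ∧ f x ≠ 0 := by
  obtain ⟨a, u, rfl, hu⟩ := exists_pow_mul' hπ hg0
  obtain ⟨α, β, hαβ⟩ := hu
  obtain ⟨y, hy⟩ := h1
  refine ⟨a, (α * u * h) • y, ?_, ?_⟩
  · rw [smul_smul, show π ^ a * (α * u * h) = (α * h) * (π ^ a * u) by ring, mul_smul, hg, smul_zero]
  · have h3 : h • y = (α * u * h) • y + (π * h) • (β • y) := by
      rw [smul_smul, ← add_smul]
      congr 1
      calc h = (α * u + β * π) * h := by rw [hαβ, one_mul]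
        _ = α * u * h + π * h * β := by ring
    rw [h3, map_add, h2, add_zero] at hy
    exact hy

end StrAlg
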