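import Pool.Agent.Lib.MP_b9fd58_lc.R.Hl2
import Pool.Agent.Lib.MP_b9fd58_lc.R.Hh2
import Pool.Agent.Lib.MP_b9fd58_lc.R.Hk1
import Pool.Agent.Lib.MP_b9fd58_lc.R.Hk2

/-!
# Stream R: Theorem R and the soundness of the certificates of types P and A
-/

set_option autoImplicit false

namespace StrAlg

open Module Polynomial

variable {D : Dat} {k : Type} [Field k] {S : Sides D}

theorem sep_of_can {Can : Set (Str S)} (hC : CanOK Can) {p : NF S k} (hp : p.InCan Can) {c : Str S} (hc : c ∈ Can)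
    {l : ℕ} (hl : c.MinPer l) : p.Sep c := by
  have hna : ¬ c.Aper := fun h => h l hl.1 hl.2.1
  constructor
  · rintro i ⟨r, hr, r', hr', hal⟩
    exact (hC.uniq c hc _ (hp.1 i) hna r' hr' r hr (al_sym hal)).symm
  · rintro j ⟨r, hr, r', hr', hal⟩
    exact (hC.uniq c hc _ (hp.2 j) hna r' hr' r hr (al_sym hal)).symm

theorem perOK_of_min {c : Str S} {l : ℕ} (hl : c.MinPer l) {V : Type} [AddCommGroup V] [Module k V] (T : V ≃ₗ[k] V) :
    c.PerOK l T := ⟨hl.2.1.1, fun _ => hl.2.1.2, fun h => absurd h hl.1.ne'⟩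

/-! ### the data of a normal form -/

/-- the data of a normal form -/
noncomputable def NF.rd (p : NF S k) (c : Str S) (l : ℕ) (i : Fin p.m) (j : Fin p.m') : SAlg.RDat.{0, 0, 0} k[X] k :=
  rdat c l (p.X i) (p.Y j) (p.a i) (p.b j)

section
variable {c : Str S} {l : ℕ} {V : Type} [AddCommGroup V] [Module k V] {T : V ≃ₗ[k] V}

theorem nf_open_of (hl : c.MinPer l) (h : c.PerOK l T) (p : NF S k) {i : Fin p.m} {j : Fin p.m'}
    (hn : ¬ (p.rd c l i j).Closed (SAlg.EM T.toLinearMap)) : p.pr.Opn (c.ME l T h) :=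
  (NF.opn_iff p _).2 ⟨i, j, opn_of_not_closed hl h hn⟩

theorem nf_not_open_iff (hl : c.MinPer l) (h : c.PerOK l T) (p : NF S k) (hs : p.Sep c) :
    ¬ p.pr.Opn (c.ME l T h) ↔ ∀ i j, (p.rd c l i j).Closed (SAlg.EM T.toLinearMap) := by
  constructor
  · intro h1 i j
    by_contra h2
    exact h1 (nf_open_of hl h p h2)
  · intro h1 h2
    obtain ⟨i, j, h3⟩ := (NF.opn_iff p _).1 h2
    exact not_opn_of_closed hl h (hs.1 i) (hs.2 j) (h1 i j) h3

end

/-- closedness is invariant under isomorphisms -/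
theorem closed_iso {Δ : SAlg.RDat.{0, 0, 0} k[X] k} {V W : Type} [AddCommGroup V] [Module k[X] V]
    [AddCommGroup W] [Module k[X] W] (e : V ≃ₗ[k[X]] W) (h : Δ.Closed V) : Δ.Closed W :=
  h.retract e.symm.toLinearMap e.toLinearMap (fun x => e.apply_symm_apply x)

theorem crit_of_om {p : NF S k} {c : Str S} {l : ℕ} (hl : c.MinPer l)
    (h : ∀ i j, ∀ r ∈ (p.rd c l i j).Om, r = 0) : p.Crit c :=
  fun i j => (om_zero_iff hl _ _ _ _).1 (h i j)

theorem om_of_crit {p : NF S k} {c : Str S} {l : ℕ} (hl : c.MinPer l) (h : p.Crit c) (i : Fin p.m) (j : Fin p.m') :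
    ∀ r ∈ (p.rd c l i j).Om, r = 0 :=
  (om_zero_iff hl _ _ _ _).2 (h i j)

/-! ### explicit forms of the conditions -/

section explicit
variable {X Y : Blk S k} {a : X.M.C} {b : Dual k Y.M.C} {c : Str S} {l : ℕ} {π : k[X]}

theorem rdat_closedP_iff : (rdat c l X Y a b).ClosedP π ↔ (∀ r ∈ (rdat c l X Y a b).Om, r = 0) ∧
    (X.x = c → ∀ o p r, Ord X.x Y.x o p r → ∀ y, ∃ s : k[X], IsCoprime s π ∧
      aeval X.T.toLinearMap s (OmV X Y a b o p r y) = 0) := by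
  constructor
  · rintro ⟨h1, h2⟩
    refine ⟨h1, fun hX o p r ho y => ?_⟩
    obtain ⟨s, hs, h3⟩ := h2 (SAlg.EM.of X.T.toLinearMap (OmV X Y a b o p r y)) ⟨hX, o, p, r, y, ho, rfl⟩
    exact ⟨s, hs, h3⟩
  · rintro ⟨h1, h2⟩
    refine ⟨h1, ?_⟩
    rintro x ⟨hX, o, p, r, y, ho, rfl⟩
    obtain ⟨s, hs, h3⟩ := h2 hX o p r ho y
    exact ⟨s, hs, h3⟩

/-- `OmL` as a linear map in `y` -/
noncomputable def omLl (X Y : Blk S k) (a : X.M.C) (b : Dual k Y.M.C) (o : Bool) (p r : ℤ)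
    (φ : Dual k (Fin X.n → k)) : (Fin Y.n → k) →ₗ[k] k where
  toFun := OmL X Y a b o p r φ
  map_add' y y' := by
    unfold OmL Om
    rw [← Finset.sum_add_distrib]
    refine Finset.sum_congr rfl fun i _ => ?_
    rw [LinearMap.smulRight_apply, LinearMap.smulRight_apply, LinearMap.smulRight_apply, smul_add, map_add]
  map_smul' s y := by
    unfold OmL Om
    rw [Finset.smul_sum]
    refine Finset.sum_congr rfl fun i _ => ?_
    rw [LinearMap.smulRight_apply, LinearMap.smulRight_apply, smul_comm, map_smul, RingHom.id_apply]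

theorem omLl_apply (o : Bool) (p r : ℤ) (φ : Dual k (Fin X.n → k)) (y : Fin Y.n → k) :
    omLl X Y a b o p r φ y = OmL X Y a b o p r φ y := rfl

theorem rdat_closedA_iff : (rdat c l X Y a b).ClosedA π ↔ (∀ r ∈ (rdat c l X Y a b).Om, r = 0) ∧
    (Y.x = c → ∀ o p r, Ord X.x Y.x o p r → ∀ φ (n : ℕ) y, aeval Y.T.toLinearMap (π ^ n) y = 0 →
      OmL X Y a b o p r φ y = 0) := by
  constructor
  · rintro ⟨h1, h2⟩
    refine ⟨h1, fun hY o p r ho φ n y hy => ?_⟩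
    let f : SAlg.EM Y.T.toLinearMap →ₗ[k] k := omLl X Y a b o p r φ ∘ₗ (SAlg.EM.of Y.T.toLinearMap).symm.toLinearMap
    exact h2 f.toAddMonoidHom ⟨hY, o, p, r, φ, ho, fun v => rfl⟩ n (SAlg.EM.of Y.T.toLinearMap y) hy
  · rintro ⟨h1, h2⟩
    refine ⟨h1, ?_⟩
    rintro f ⟨hY, o, p, r, φ, ho, hf⟩ n x hx
    have h3 := h2 hY o p r ho φ n ((SAlg.EM.of Y.T.toLinearMap).symm x) hx
    rw [← hf] at h3
    exact h3

end explicit

theorem good_P {p : NF S k} {c : Str S} {l : ℕ} (hl : c.MinPer l) {π : k[X]}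
    (h : ∀ i j, (p.rd c l i j).ClosedP π) : p.PRgood c π :=
  ⟨crit_of_om hl fun i j => (h i j).c1, fun i j hi o q r ho y =>
    (rdat_closedP_iff.1 (h i j)).2 hi o q r ho y⟩

theorem closedP_of_good {p : NF S k} {c : Str S} {l : ℕ} (hl : c.MinPer l) {π π' : k[X]} (hπ : π' ∣ π)
    (h : p.PRgood c π) (i : Fin p.m) (j : Fin p.m') : (p.rd c l i j).ClosedP π' := by
  refine rdat_closedP_iff.2 ⟨om_of_crit hl h.1 i j, fun hX o q r ho y => ?_⟩
  obtain ⟨g, hg, h1⟩ := h.2 i j hX o q r ho y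
  exact ⟨g, hg.of_isCoprime_of_dvd_right hπ, h1⟩

theorem good_A {p : NF S k} {c : Str S} {l : ℕ} (hl : c.MinPer l) {π : k[X]} (hπ : Prime π)
    (h : ∀ i j, (p.rd c l i j).ClosedA π) : p.ADgood c π := by
  refine ⟨crit_of_om hl fun i j => (h i j).c1, fun i j hj o q r ho φ => ?_⟩
  obtain ⟨n, u, hu, hcop⟩ := SAlg.exists_pow_mul' hπ (LinearMap.charpoly_monic (p.Y j).T.toLinearMap).ne_zero
  refine ⟨u, hcop, fun y => ?_⟩
  refine (rdat_closedA_iff.1 (h i j)).2 hj o q r ho φ n _ ?_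
  rw [← Module.End.mul_apply, ← map_mul, ← hu, LinearMap.aeval_self_charpoly, LinearMap.zero_apply]

theorem closedA_of_good {p : NF S k} {c : Str S} {l : ℕ} (hl : c.MinPer l) {π π' : k[X]} (hπ : π' ∣ π)
    (h : p.ADgood c π) (i : Fin p.m) (j : Fin p.m') : (p.rd c l i j).ClosedA π' := by
  refine rdat_closedA_iff.2 ⟨om_of_crit hl h.1 i j, fun hY o q r ho φ n y hy => ?_⟩
  obtain ⟨g, hg, h1⟩ := h.2 i j hY o q r ho φ
  obtain ⟨α, β, hαβ⟩ := (hg.of_isCoprime_of_dvd_right hπ).pow_right (n := n)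
  have h2 := h1 (aeval (p.Y j).T.toLinearMap α y)
  rw [← Module.End.mul_apply, ← map_mul, mul_comm] at h2
  have h3 : aeval (p.Y j).T.toLinearMap (α * g) y = y := by
    have h4 : aeval (p.Y j).T.toLinearMap (α * g + β * π' ^ n) y = y := by
      rw [hαβ, map_one, Module.End.one_apply]
    rw [map_add, LinearMap.add_apply, map_mul _ β, Module.End.mul_apply, hy, map_zero, add_zero] at h4
    exact h4
  rw [h3] at h2
  exact h2

theorem bad_P {q : NF S k} {c : Str S} {l : ℕ} (hl : c.MinPer l) {π : k[X]} (hπ : Prime π) {i : Fin q.m} {j : Fin q.m'}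
    (h : ¬ (q.rd c l i j).ClosedP π) : ¬ q.Crit c ∨ ((q.X i).x = c ∧ q.PRbad i π) := by
  by_contra hcon
  push Not at hcon
  obtain ⟨h1, h2⟩ := hcon
  apply h
  refine rdat_closedP_iff.2 ⟨om_of_crit hl h1 i j, fun hX o p r ho y => ?_⟩
  by_contra h3
  push Not at h3
  refine h2 hX ⟨?_, j, o, p, r, ho, y, ?_⟩
  · rw [blk_l hl _ hX]; exact hl.1
  · obtain ⟨g, h4, h5⟩ := exists_order (V := SAlg.EM (q.X i).T.toLinearMap) hπ
      (LinearMap.charpoly_monic (q.X i).T.toLinearMap).ne_zero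
      (x := SAlg.EM.of _ (OmV (q.X i) (q.Y j) (q.a i) (q.b j) o p r y)) (kill_charpoly _ _) h3
    exact ⟨g, h4, h5⟩

theorem bad_A {q : NF S k} {c : Str S} {l : ℕ} (hl : c.MinPer l) {π : k[X]} (hπ : Prime π) {i : Fin q.m} {j : Fin q.m'}
    (h : ¬ (q.rd c l i j).ClosedA π) : ¬ q.Crit c ∨ ((q.Y j).x = c ∧ q.ADbad j π) := by
  by_contra hcon
  push Not at hcon
  obtain ⟨h1, h2⟩ := hcon
  apply h
  refine rdat_closedA_iff.2 ⟨om_of_crit hl h1 i j, fun hY o p r ho φ n y hy => ?_⟩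
  by_contra h3
  refine h2 hY ⟨?_, i, o, p, r, ho, φ, ?_⟩
  · rw [blk_l hl _ hY]; exact hl.1
  · let f : SAlg.EM (q.Y j).T.toLinearMap →ₗ[k] k := omLl (q.X i) (q.Y j) (q.a i) (q.b j) o p r φ ∘ₗ
      (SAlg.EM.of (q.Y j).T.toLinearMap).symm.toLinearMap
    obtain ⟨g, h4, h5⟩ := exists_order' (V := SAlg.EM (q.Y j).T.toLinearMap) hπ
      (LinearMap.charpoly_monic (q.Y j).T.toLinearMap).ne_zero (fun x => kill_charpoly _ x) (f := f.toAddMonoidHom)
      (x := SAlg.EM.of _ y) (n := n) hy h3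
    exact ⟨g, h4, h5⟩

/-! ### Theorem R -/

theorem thmR (Can : Set (Str S)) (hC : CanOK Can) (q : NF S k) (hq : q.InCan Can)
    (P : List (NF S k)) (hP : ∀ p ∈ P, p.InCan Can) (b : Str S) (hb : b ∈ Can) (l : ℕ) (hl : b.MinPer l)
    (V : Type) [AddCommGroup V] [Module k V] (T : V ≃ₗ[k] V) (h : b.PerOK l T)
    (h1 : q.pr.Opn (b.ME l T h)) (h2 : ∀ p ∈ P, ¬ p.pr.Opn (b.ME l T h)) :
    CertF q P ∨ (¬ q.Crit b ∧ ∀ p ∈ P, p.Crit b) ∨ CertP q P ∨ CertA q P := by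
  have hsep : ∀ p ∈ P, p.Sep b := fun p hp => sep_of_can hC (hP p hp) hb hl
  -- a block pair of `q` which is not closed
  obtain ⟨i₀, j₀, hq0⟩ : ∃ i j, ¬ (q.rd b l i j).Closed (SAlg.EM T.toLinearMap) := by
    obtain ⟨i, j, h3⟩ := (NF.opn_iff q _).1 h1
    have hqs := sep_of_can hC hq hb hl
    refine ⟨i, j, fun hcl => ?_⟩
    exact not_opn_of_closed hl h (hqs.1 i) (hqs.2 j) hcl h3
  let κ := Σ p : {p : NF S k // p ∈ P}, Fin p.1.m × Fin p.1.m'
  let F : κ → SAlg.RDat.{0, 0, 0} k[X] k := fun x => x.1.1.rd b l x.2.1 x.2.2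
  have hF : ∀ x : κ, (F x).Closed (SAlg.EM T.toLinearMap) := fun x =>
    (nf_not_open_iff hl h x.1.1 (hsep _ x.1.2)).1 (h2 _ x.1.2) x.2.1 x.2.2
  have hX : Function.Bijective fun x : SAlg.EM T.toLinearMap => (X : k[X]) • x := by
    have h3 : (fun x : SAlg.EM T.toLinearMap => (X : k[X]) • x) =
        ((SAlg.EM.of T.toLinearMap).symm.trans (T.trans (SAlg.EM.of T.toLinearMap)) : _ → _) := by
      funext x
      obtain ⟨m, rfl⟩ := (SAlg.EM.of T.toLinearMap).surjective x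
      rw [SAlg.EM.X_smul_of]
      rfl
    rw [h3]
    exact LinearEquiv.bijective _
  rcases SAlg.four_types F (q.rd b l i₀ j₀) (SAlg.EM T.toLinearMap) (X : k[X]) hX hF hq0 with
    ⟨g1, r, hr, hr0⟩ | ⟨π, hπ, hπX, n, ⟨ι, e, hιe⟩, hn⟩ | ⟨π, hπ, hπX, g1, g2⟩ | ⟨π, hπ, hπX, g1, g2⟩
  · -- a string certificate
    right; left
    refine ⟨fun hcr => hr0 (om_of_crit hl hcr i₀ j₀ r hr), fun p hp => ?_⟩
    exact crit_of_om hl fun i j => g1 ⟨⟨p, hp⟩, i, j⟩
  · -- a finite-dimensional module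
    left
    have hdeg := prime_natDegree hπ hπX
    have hπ0 : π ^ (n + 1) ≠ 0 := pow_ne_zero _ hπ.ne_zero
    obtain ⟨T', e', he'⟩ := exists_EM (k := k) (k[X] ⧸ Ideal.span {π ^ (n + 1)}) (X_bij_quot hdeg.2 (n + 1))
    have hfd := fd_quot (k := k) hπ0
    have hok := perOK_of_min (k := k) hl T'
    refine ⟨b.ME l T' hok, ME_fd hl.1 hok hfd, ?_, fun p hp => ?_⟩
    · refine nf_open_of hl hok q (i := i₀) (j := j₀) fun hcl => hn (closed_iso e'.symm hcl)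
    · refine (nf_not_open_iff hl hok p (hsep p hp)).2 fun i j => closed_iso e' ?_
      exact (hF ⟨⟨p, hp⟩, i, j⟩).retract ι e hιe
  · rcases bad_P hl hπ g2 with g3 | ⟨g3, g4⟩
    · right; left
      exact ⟨g3, fun p hp => crit_of_om hl fun i j => (g1 ⟨⟨p, hp⟩, i, j⟩).c1⟩
    · right; right; left
      have hdeg := prime_natDegree hπ hπX
      refine ⟨i₀, π, hdeg.1, hdeg.2, g4, fun p hp => ?_⟩
      rw [g3]
      exact ⟨good_P hl fun i j => g1 ⟨⟨p, hp⟩, i, j⟩, hsep p hp⟩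
  · rcases bad_A hl hπ g2 with g3 | ⟨g3, g4⟩
    · right; left
      exact ⟨g3, fun p hp => crit_of_om hl fun i j => (g1 ⟨⟨p, hp⟩, i, j⟩).c1⟩
    · right; right; right
      have hdeg := prime_natDegree hπ hπX
      refine ⟨j₀, π, hdeg.1, hdeg.2, g4, fun p hp => ?_⟩
      rw [g3]
      exact ⟨good_A hl hπ fun i j => g1 ⟨⟨p, hp⟩, i, j⟩, hsep p hp⟩

/-! ### Soundness -/

theorem soundP (q : NF S k) (P : List (NF S k)) (h : CertP q P) : Rlz q P := by
  obtain ⟨i, π, hdeg, h0, ⟨hl0, j, o, p, r, ho, y, g, hg1, hg2⟩, hP⟩ := h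
  have hl : (q.X i).x.MinPer (q.X i).l := blk_per _ hl0
  obtain ⟨π', g', hπ', hdvd, hg1', hg2'⟩ := exists_prime_factor (V := SAlg.EM (q.X i).T.toLinearMap) hdeg
    (h := g) (x := SAlg.EM.of _ (OmV (q.X i) (q.Y j) (q.a i) (q.b j) o p r y)) hg1 hg2
  have h0' : π'.coeff 0 ≠ 0 := by
    obtain ⟨s, rfl⟩ := hdvd
    rw [Polynomial.mul_coeff_zero] at h0
    exact left_ne_zero_of_mul h0
  obtain ⟨W, _, _, T, ⟨e⟩⟩ := exists_EM' (k := k) (SAlg.PR π') (X_bij_PR hπ' h0')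
  have hok := perOK_of_min (k := k) hl T
  refine ⟨(q.X i).x.ME (q.X i).l T hok, ?_, fun p' hp' => ?_⟩
  · refine nf_open_of hl hok q (i := i) (j := j) fun hcl => ?_
    have h1 := (SAlg.RDat.closed_PR_iff _ hπ').1 (closed_iso e.symm hcl)
    obtain ⟨s, hs, hs0⟩ := (rdat_closedP_iff.1 h1).2 rfl o p r ho y
    obtain ⟨α, β, hαβ⟩ := hs
    apply hg1'
    have hs0' : s • SAlg.EM.of (q.X i).T.toLinearMap (OmV (q.X i) (q.Y j) (q.a i) (q.b j) o p r y) = 0 := hs0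
    calc g' • SAlg.EM.of (q.X i).T.toLinearMap (OmV (q.X i) (q.Y j) (q.a i) (q.b j) o p r y)
        = ((α * s + β * π') * g') • SAlg.EM.of (q.X i).T.toLinearMap
            (OmV (q.X i) (q.Y j) (q.a i) (q.b j) o p r y) := by rw [hαβ, one_mul]
      _ = (α * g') • s • SAlg.EM.of (q.X i).T.toLinearMap (OmV (q.X i) (q.Y j) (q.a i) (q.b j) o p r y) +
          β • (π' * g') • SAlg.EM.of (q.X i).T.toLinearMap
            (OmV (q.X i) (q.Y j) (q.a i) (q.b j) o p r y) := by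
          rw [smul_smul, smul_smul, ← add_smul]; congr 1; ring
      _ = 0 := by rw [hs0', hg2', smul_zero, smul_zero, add_zero]
  · obtain ⟨hgood, hsep⟩ := hP p' hp'
    refine (nf_not_open_iff hl hok p' hsep).2 fun i' j' => closed_iso e ?_
    exact (SAlg.RDat.closed_PR_iff _ hπ').2 (closedP_of_good hl hdvd hgood i' j')

theorem soundA (q : NF S k) (P : List (NF S k)) (h : CertA q P) : Rlz q P := by
  obtain ⟨j, π, hdeg, h0, ⟨hl0, i, o, p, r, ho, φ, g, hg1, hg2⟩, hP⟩ := h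
  have hl : (q.Y j).x.MinPer (q.Y j).l := blk_per _ hl0
  let f : SAlg.EM (q.Y j).T.toLinearMap →ₗ[k] k := omLl (q.X i) (q.Y j) (q.a i) (q.b j) o p r φ ∘ₗ
      (SAlg.EM.of (q.Y j).T.toLinearMap).symm.toLinearMap
  obtain ⟨π', g', hπ', hdvd, hg1', hg2'⟩ := exists_prime_factor' (V := SAlg.EM (q.Y j).T.toLinearMap) hdeg
    (h := g) (f := f.toAddMonoidHom) hg1 hg2
  have h0' : π'.coeff 0 ≠ 0 := by
    obtain ⟨s, rfl⟩ := hdvd
    rw [Polynomial.mul_coeff_zero] at h0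
    exact left_ne_zero_of_mul h0
  obtain ⟨W, _, _, T, ⟨e⟩⟩ := exists_EM' (k := k) (SAlg.AD π') (X_bij_AD hπ' h0')
  have hok := perOK_of_min (k := k) hl T
  refine ⟨(q.Y j).x.ME (q.Y j).l T hok, ?_, fun p' hp' => ?_⟩
  · refine nf_open_of hl hok q (i := i) (j := j) fun hcl => ?_
    have h1 := (SAlg.RDat.closed_AD_iff _ hπ').1 (closed_iso e.symm hcl)
    obtain ⟨n, x, hx, hfx⟩ := exists_primary (V := SAlg.EM (q.Y j).T.toLinearMap) hπ'
      (LinearMap.charpoly_monic (q.Y j).T.toLinearMap).ne_zero (fun x => kill_charpoly _ x) (f := f.toAddMonoidHom)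
      hg1' hg2'
    exact hfx ((rdat_closedA_iff.1 h1).2 rfl o p r ho φ n x hx)
  · obtain ⟨hgood, hsep⟩ := hP p' hp'
    refine (nf_not_open_iff hl hok p' hsep).2 fun i' j' => closed_iso e ?_
    exact (SAlg.RDat.closed_AD_iff _ hπ').2 (closedA_of_good hl hdvd hgood i' j')

end StrAlg
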