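import Mathlib

/-!
# MP_b9fd58_lc, stream R: general algebra over a PID (I)

* `retract_of_divisible`: a divisible submodule is a direct summand;
* `extend_bilin`: the dual of a module is pure injective (extension of balanced forms).
-/

set_option autoImplicit false

namespace SAlg

open Function

section divisible

variable {R Q : Type*} [CommRing R] [IsDomain R] [IsPrincipalIdealRing R] [AddCommGroup Q]
  [Module R Q]

theorem baer_of_divisible (hQ : ∀ r : R, r ≠ 0 → ∀ x : Q, ∃ y : Q, r • y = x) :
    Module.Baer R Q := by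
  intro I g
  obtain ⟨a, rfl⟩ := (IsPrincipalIdealRing.principal I).principal
  by_cases ha : a = 0
  · refine ⟨0, fun x hx => ?_⟩
    subst ha
    have : x = 0 := by simpa using hx
    subst this
    have h0 : (⟨0, hx⟩ : (Submodule.span R {(0 : R)} : Ideal R)) = 0 := rfl
    rw [h0, map_zero, map_zero]
  · have hmem : a ∈ Submodule.span R ({a} : Set R) := Submodule.mem_span_singleton_self a
    obtain ⟨y, hy⟩ := hQ a ha (g ⟨a, hmem⟩)
    refine ⟨LinearMap.toSpanSingleton R Q y, fun x hx => ?_⟩
    obtain ⟨c, rfl⟩ := Submodule.mem_span_singleton.1 hx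
    rw [LinearMap.toSpanSingleton_apply, smul_assoc, hy, ← map_smul]
    rfl

/-- A divisible submodule of a module over a PID is a direct summand. -/
theorem retract_of_divisible (K : Submodule R Q)
    (hK : ∀ r : R, r ≠ 0 → ∀ x ∈ K, ∃ y ∈ K, r • y = x) :
    ∃ e : Q →ₗ[R] K, ∀ x : K, e x = x := by
  have hB : Module.Baer R K := baer_of_divisible fun r hr x => by
    obtain ⟨y, hy, hxy⟩ := hK r hr x x.2
    exact ⟨⟨y, hy⟩, Subtype.ext hxy⟩
  obtain ⟨h, hh⟩ := hB.extension_property K.subtype K.subtype_injective LinearMap.id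
  exact ⟨h, fun x => LinearMap.congr_fun hh x⟩

/-- the same, as a complement -/
theorem compl_of_divisible (K : Submodule R Q)
    (hK : ∀ r : R, r ≠ 0 → ∀ x ∈ K, ∃ y ∈ K, r • y = x) :
    ∃ W : Submodule R Q, IsCompl K W := by
  obtain ⟨e, he⟩ := retract_of_divisible K hK
  exact ⟨LinearMap.ker e, LinearMap.isCompl_of_proj he⟩

end divisible

section bilin

open TensorProduct

variable {k R P L : Type*} [Field k] [CommRing R] [IsDomain R] [IsPrincipalIdealRing R]
  [Algebra k R] [AddCommGroup P] [Module R P] [Module k P] [IsScalarTower k R P]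
  [AddCommGroup L] [Module R L] [Module k L] [IsScalarTower k R L]

theorem flat_of_torsionFree (P : Type*) [AddCommGroup P] [Module R P]
    (h : ∀ r : R, r ≠ 0 → ∀ x : P, r • x = 0 → x = 0) : Module.Flat R P := by
  rw [Module.Flat.flat_iff_torsion_eq_bot_of_isBezout, eq_bot_iff]
  rintro x ⟨⟨r, hr⟩, hx⟩
  exact (Submodule.mem_bot R).2 (h r (nonZeroDivisors.ne_zero hr) x hx)

/-- Pure injectivity of dual modules: a balanced bilinear form on `W × L` extends to `P × L` if
`P / W` is torsion free. -/
theorem extend_bilin (W : Submodule R P)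
    (hW : ∀ r : R, r ≠ 0 → ∀ x : P, r • x ∈ W → x ∈ W)
    (B : W →+ L →+ k) (hk : ∀ (c : k) (w : W) (x : L), B (c • w) x = c * B w x)
    (hB : ∀ (r : R) (w : W) (x : L), B (r • w) x = B w (r • x)) :
    ∃ B' : P →+ L →+ k, (∀ (c : k) (p : P) (x : L), B' (c • p) x = c * B' p x) ∧
      (∀ (r : R) (p : P) (x : L), B' (r • p) x = B' p (r • x)) ∧
      ∀ (w : W) (x : L), B' w x = B w x := by
  classical
  have : Module.Flat R (P ⧸ W) := by
    apply flat_of_torsionFree
    intro r hr x hx
    obtain ⟨p, rfl⟩ := W.mkQ_surjective x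
    rw [← map_smul, Submodule.mkQ_apply, Submodule.Quotient.mk_eq_zero] at hx
    rw [Submodule.mkQ_apply, Submodule.Quotient.mk_eq_zero]
    exact hW r hr p hx
  have hinj : Injective (W.subtype.lTensor L) :=
    LinearMap.lTensor_injective_of_exact_of_flat W.mkQ W.mkQ_surjective W.subtype
      W.subtype_injective (LinearMap.exact_subtype_mkQ W) L
  -- the k-linear structure on `L ⊗[R] P` is through `L`
  have hBk : ∀ (c : k) (w : W) (x : L), B w (c • x) = c * B w x := by
    intro c w x
    have h1 : c • x = (algebraMap k R c) • x := (algebraMap_smul R c x).symm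
    rw [h1, ← hB, algebraMap_smul, hk]
  let b : L ⊗[R] W →+ k := TensorProduct.liftAddHom (AddMonoidHom.flip B) (by
    intro r x w
    simp only [AddMonoidHom.flip_apply]
    exact (hB r w x).symm)
  have hb : ∀ x w, b (x ⊗ₜ w) = B w x := fun x w => rfl
  have hbk : ∀ (c : k) (t : L ⊗[R] W), b (c • t) = c * b t := by
    intro c t
    induction t using TensorProduct.induction_on with
    | zero => simp
    | tmul x w => rw [TensorProduct.smul_tmul', hb, hb, hBk]
    | add x y hx hy => rw [smul_add, map_add, map_add, hx, hy, mul_add]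
  let b' : L ⊗[R] W →ₗ[k] k :=
    { toFun := b, map_add' := map_add b, map_smul' := fun c t => by
        rw [hbk]; rfl }
  let ι : L ⊗[R] W →ₗ[k] L ⊗[R] P :=
    { toFun := W.subtype.lTensor L
      map_add' := map_add _
      map_smul' := fun c t => by
        induction t using TensorProduct.induction_on with
        | zero => simp
        | tmul x w => simp [TensorProduct.smul_tmul']
        | add x y hx hy => rw [smul_add, map_add, map_add, hx, hy, smul_add] }
  obtain ⟨h, hh⟩ := LinearMap.exists_leftInverse_of_injective ι (LinearMap.ker_eq_bot.2 hinj)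
  let φ : L ⊗[R] P →ₗ[k] k := b' ∘ₗ h
  have hφ : ∀ (x : L) (w : W), φ (x ⊗ₜ (w : P)) = B w x := by
    intro x w
    have h1 : (x ⊗ₜ[R] (w : P)) = ι (x ⊗ₜ w) := rfl
    have h2 : h (ι (x ⊗ₜ w)) = x ⊗ₜ w := LinearMap.congr_fun hh _
    show b' (h (x ⊗ₜ[R] (w : P))) = _
    rw [h1, h2]
    rfl
  refine ⟨AddMonoidHom.mk' (fun p => AddMonoidHom.mk' (fun x => φ (x ⊗ₜ p)) ?_) ?_, ?_, ?_, ?_⟩
  · intro x y
    rw [TensorProduct.add_tmul, map_add]
  · intro p q
    ext x
    simp only [AddMonoidHom.mk'_apply, AddMonoidHom.add_apply]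
    rw [TensorProduct.tmul_add, map_add]
  · intro c p x
    simp only [AddMonoidHom.mk'_apply]
    have h1 : x ⊗ₜ[R] (c • p) = c • (x ⊗ₜ[R] p) := by
      rw [← algebraMap_smul R c p, ← TensorProduct.smul_tmul, algebraMap_smul,
        TensorProduct.smul_tmul']
    rw [h1, map_smul, smul_eq_mul]
  · intro r p x
    simp only [AddMonoidHom.mk'_apply]
    rw [TensorProduct.smul_tmul]
  · intro w x
    simp only [AddMonoidHom.mk'_apply]
    exact hφ x w

end bilin

end SAlg
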