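import Pool.Agent.Lib.MP_b9fd58_lc.R.AlgA

/-!
# MP_b9fd58_lc, stream R: general algebra over a PID (II): cyclic pure submodules
-/

set_option autoImplicit false

namespace SAlg

open Function

variable {R : Type*} [CommRing R] [IsDomain R] [IsPrincipalIdealRing R]

theorem coprime_pow {π c : R} (hπ : Prime π) (hc : ¬ π ∣ c) (n : ℕ) : IsCoprime c (π ^ n) := by
  have h1 : IsCoprime π c := (hπ.irreducible.coprime_iff_not_dvd).2 hc
  exact h1.symm.pow_right

omit [IsPrincipalIdealRing R] [IsDomain R] in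
theorem exists_pow_mul {π : R} (n : ℕ) : ∀ c : R, ¬ π ^ (n + 1) ∣ c →
    ∃ i ≤ n, ∃ u : R, c = π ^ i * u ∧ ¬ π ∣ u := by
  induction n with
  | zero =>
    intro c hc
    exact ⟨0, le_refl _, c, by simp, by simpa using hc⟩
  | succ n ih =>
    intro c hc
    by_cases h : π ∣ c
    · obtain ⟨d, rfl⟩ := h
      have hd : ¬ π ^ (n + 1) ∣ d := by
        rintro ⟨e, rfl⟩
        exact hc ⟨e, by ring⟩
      obtain ⟨i, hi, u, rfl, hu⟩ := ih d hd
      exact ⟨i + 1, by omega, u, by ring, hu⟩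
    · exact ⟨0, Nat.zero_le _, c, by simp, h⟩

/-- The quotient ring `R / (π ^ n)` is self-injective. -/
theorem baer_quot {π : R} (hπ : Prime π) (n : ℕ) :
    Module.Baer (R ⧸ Ideal.span {π ^ n}) (R ⧸ Ideal.span {π ^ n}) := by
  intro I g
  set mk := Ideal.Quotient.mk (Ideal.span {π ^ n}) with hmk
  obtain ⟨c, hc⟩ := (IsPrincipalIdealRing.principal (I.comap mk)).principal
  have hπmem : π ^ n ∈ I.comap mk := by
    rw [Ideal.mem_comap]
    have : mk (π ^ n) = 0 := Ideal.Quotient.eq_zero_iff_mem.2 (Ideal.mem_span_singleton_self _)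
    rw [this]
    exact I.zero_mem
  have hcd : c ∣ π ^ n := by
    rw [hc] at hπmem
    exact Ideal.mem_span_singleton.1 hπmem
  obtain ⟨i, hi, hass⟩ := (dvd_prime_pow hπ n).1 hcd
  have hImem : ∀ r : R, mk r ∈ I ↔ π ^ i ∣ r := by
    intro r
    have h1 : mk r ∈ I ↔ r ∈ I.comap mk := Iff.rfl
    rw [h1, hc]
    exact Ideal.mem_span_singleton.trans hass.dvd_iff_dvd_left
  have hgen : mk (π ^ i) ∈ I := (hImem _).2 (dvd_refl _)
  obtain ⟨z, hz⟩ := Ideal.Quotient.mk_surjective (g ⟨mk (π ^ i), hgen⟩)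
  -- `π ^ (n - i) z ∈ (π ^ n)`
  have h2 : mk (π ^ (n - i)) * mk z = 0 := by
    rw [hz, ← smul_eq_mul, ← map_smul]
    have : (mk (π ^ (n - i)) • (⟨mk (π ^ i), hgen⟩ : I)) = 0 := by
      apply Subtype.ext
      show mk (π ^ (n - i)) * mk (π ^ i) = 0
      rw [← map_mul, ← pow_add, Nat.sub_add_cancel hi]
      exact Ideal.Quotient.eq_zero_iff_mem.2 (Ideal.mem_span_singleton_self _)
    rw [this, map_zero]
  rw [← map_mul, Ideal.Quotient.eq_zero_iff_mem, Ideal.mem_span_singleton] at h2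
  have h3 : π ^ i ∣ z := by
    have h4 : π ^ (n - i) * π ^ i ∣ π ^ (n - i) * z := by
      rw [← pow_add, Nat.sub_add_cancel hi]; exact h2
    exact (mul_dvd_mul_iff_left (pow_ne_zero _ hπ.ne_zero)).1 h4
  obtain ⟨z', rfl⟩ := h3
  refine ⟨LinearMap.toSpanSingleton _ _ (mk z'), fun x hx => ?_⟩
  obtain ⟨r, rfl⟩ := Ideal.Quotient.mk_surjective x
  obtain ⟨s, rfl⟩ := (hImem r).1 hx
  rw [LinearMap.toSpanSingleton_apply, smul_eq_mul]
  have h5 : (⟨mk (π ^ i * s), hx⟩ : I) = mk s • (⟨mk (π ^ i), hgen⟩ : I) := by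
    apply Subtype.ext
    show mk (π ^ i * s) = mk s * mk (π ^ i)
    rw [← map_mul, mul_comm]
  rw [h5, map_smul, ← hz, smul_eq_mul, ← map_mul, ← map_mul]
  congr 1
  ring

variable {V : Type*} [AddCommGroup V] [Module R V]

/-- `y` generates a direct summand isomorphic to `R / (π ^ (n + 1))`: the element `π ^ n y` has
height exactly `n`, and `π ^ (n + 1) y = 0`. -/
def IsPS (π : R) (n : ℕ) (y : V) : Prop :=
  π ^ (n + 1) • y = 0 ∧ ∀ z : V, π ^ n • y ≠ π ^ (n + 1) • z

/-- A cyclic submodule `R y`, isomorphic to `R / (π ^ (n + 1))`, such that the element `π ^ n y` has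
height exactly `n`, is a direct summand. -/
theorem exists_proj {π : R} (hπ : Prime π) (n : ℕ) (y : V)
    (h2 : ∀ z : V, π ^ n • y ≠ π ^ (n + 1) • z) :
    ∃ G : V →ₗ[R] (R ⧸ Ideal.span {π ^ (n + 1)}), G y = 1 := by
  set I : Ideal R := Ideal.span {π ^ (n + 1)} with hI
  set U : Submodule R V := I • ⊤ with hU
  have hUmem : ∀ v : V, v ∈ U ↔ ∃ z : V, v = π ^ (n + 1) • z := by
    intro v
    rw [hU, hI, Submodule.ideal_span_singleton_smul, Submodule.mem_smul_pointwise_iff_exists]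
    constructor
    · rintro ⟨z, -, hz⟩
      exact ⟨z, hz.symm⟩
    · rintro ⟨z, hz⟩
      exact ⟨z, Submodule.mem_top, hz.symm⟩
  -- the map `R / I → V / U`
  let f : (R ⧸ I) →ₗ[R ⧸ I] (V ⧸ U) := LinearMap.toSpanSingleton (R ⧸ I) (V ⧸ U) (U.mkQ y)
  have hf : Injective f := by
    rw [injective_iff_map_eq_zero]
    intro x hx
    obtain ⟨c, rfl⟩ := Ideal.Quotient.mk_surjective x
    have h3 : U.mkQ (c • y) = 0 := by
      rw [map_smul]
      exact hx
    rw [Submodule.mkQ_apply, Submodule.Quotient.mk_eq_zero, hUmem] at h3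
    obtain ⟨z, hz⟩ := h3
    rw [Ideal.Quotient.eq_zero_iff_mem, hI, Ideal.mem_span_singleton]
    by_contra hnd
    obtain ⟨i, hi, u, hcu, hu⟩ := exists_pow_mul n c hnd
    -- `u` is invertible modulo `π`
    obtain ⟨a, b, hab⟩ := coprime_pow hπ hu 1
    apply h2 ((a * π ^ (n - i)) • z + b • y)
    have e2 : (π ^ n * u) • y = π ^ (n + 1) • π ^ (n - i) • z := by
      have : π ^ n * u = π ^ (n - i) * (π ^ i * u) := by
        rw [← mul_assoc, ← pow_add, Nat.sub_add_cancel hi]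
      rw [this, ← hcu, mul_smul, hz, smul_comm]
    calc π ^ n • y = (a * (π ^ n * u) + π ^ (n + 1) * b) • y := by
          congr 1
          rw [pow_one] at hab
          calc π ^ n = π ^ n * (a * u + b * π) := by rw [hab, mul_one]
            _ = _ := by ring
      _ = a • (π ^ n * u) • y + π ^ (n + 1) • b • y := by
          rw [add_smul, mul_smul, mul_smul (π ^ (n + 1))]
      _ = π ^ (n + 1) • ((a * π ^ (n - i)) • z + b • y) := by
          rw [e2, smul_add, mul_smul, smul_comm a (π ^ (n + 1))]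
  obtain ⟨h, hh⟩ := (baer_quot hπ (n + 1)).extension_property f hf LinearMap.id
  refine ⟨(h.restrictScalars R) ∘ₗ U.mkQ, ?_⟩
  have h4 := LinearMap.congr_fun hh 1
  simp only [LinearMap.comp_apply, LinearMap.id_apply, f, LinearMap.toSpanSingleton_apply,
    one_smul] at h4
  exact h4

theorem exists_split {π : R} (hπ : Prime π) {n : ℕ} {y : V} (h : IsPS π n y) :
    ∃ (ι : (R ⧸ Ideal.span {π ^ (n + 1)}) →ₗ[R] V) (e : V →ₗ[R] (R ⧸ Ideal.span {π ^ (n + 1)})),
      (∀ x, e (ι x) = x) ∧ ι 1 = y ∧ e y = 1 := by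
  obtain ⟨e, he⟩ := exists_proj hπ n y h.2
  let ι : (R ⧸ Ideal.span {π ^ (n + 1)}) →ₗ[R] V :=
    Submodule.liftQ (Ideal.span {π ^ (n + 1)}) (LinearMap.toSpanSingleton R V y) (by
      rw [Ideal.span, Submodule.span_le, Set.singleton_subset_iff]
      exact h.1)
  have hι : ∀ r : R, ι (Ideal.Quotient.mk _ r) = r • y := fun r => rfl
  refine ⟨ι, e, fun x => ?_, ?_, he⟩
  · obtain ⟨r, rfl⟩ := Ideal.Quotient.mk_surjective x
    rw [hι, map_smul, he]
    show Ideal.Quotient.mk _ (r * 1) = _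
    rw [mul_one]
  · have := hι 1
    rwa [map_one, one_smul] at this

/-- socle elements -/
theorem exists_socle (x : V) (hx : x ≠ 0) (g : R) (hg0 : g ≠ 0) (hg : g • x = 0) :
    ∃ π : R, Prime π ∧ π ∣ g ∧ ∃ c : R, c • x ≠ 0 ∧ π • (c • x) = 0 := by
  classical
  obtain ⟨a, ha⟩ := (IsPrincipalIdealRing.principal (LinearMap.ker
    (LinearMap.toSpanSingleton R V x))).principal
  have hmem : ∀ r : R, r • x = 0 ↔ a ∣ r := by
    intro r
    have h1 : r • x = 0 ↔ r ∈ LinearMap.ker (LinearMap.toSpanSingleton R V x) := by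
      rw [LinearMap.mem_ker, LinearMap.toSpanSingleton_apply]
    rw [h1, ha]
    exact Ideal.mem_span_singleton
  have hag : a ∣ g := (hmem g).1 hg
  have ha0 : a ≠ 0 := by
    rintro rfl
    exact hg0 (zero_dvd_iff.1 hag)
  have hau : ¬ IsUnit a := by
    intro hu
    apply hx
    have := (hmem 1).2 hu.dvd
    rwa [one_smul] at this
  obtain ⟨π, hπ, b, rfl⟩ := WfDvdMonoid.exists_irreducible_factor hau ha0
  refine ⟨π, hπ.prime, (dvd_mul_right _ _).trans hag, b, ?_, ?_⟩
  · intro h0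
    have h1 : π * b ∣ b := (hmem b).1 h0
    have hb0 : b ≠ 0 := right_ne_zero_of_mul ha0
    obtain ⟨d, hd⟩ := h1
    apply hπ.not_isUnit
    have h2 : b * (π * d) = b * 1 := by
      rw [mul_one]
      calc b * (π * d) = π * b * d := by ring
        _ = b := hd.symm
    have h3 := mul_left_cancel₀ hb0 h2
    exact IsUnit.of_mul_eq_one _ h3
  · rw [smul_smul]
    exact (hmem _).2 dvd_rfl

omit [IsDomain R] [IsPrincipalIdealRing R] in
/-- An element killed by `π` is of infinite height or belongs to a pure cyclic submodule. -/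
theorem height_cases (π : R) (z : V) (hz : π • z = 0) :
    (∀ n : ℕ, ∃ w : V, z = π ^ n • w) ∨ ∃ (n : ℕ) (w : V), z = π ^ n • w ∧ IsPS π n w := by
  classical
  by_cases h : ∀ n : ℕ, ∃ w : V, z = π ^ n • w
  · exact Or.inl h
  · right
    push Not at h
    have hex : ∃ n : ℕ, ∀ w : V, z ≠ π ^ n • w := h
    have hfind := Nat.find_spec hex
    have hmin := fun m (hm : m < Nat.find hex) => Nat.find_min hex hm
    set N := Nat.find hex with hN
    have hN0 : N ≠ 0 := by
      intro h0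
      rw [h0] at hfind
      exact hfind z (by simp)
    obtain ⟨n, hn⟩ := Nat.exists_eq_succ_of_ne_zero hN0
    have hn' := hmin n (by omega)
    push Not at hn'
    obtain ⟨w, hw⟩ := hn'
    refine ⟨n, w, hw, ?_, ?_⟩
    · rw [pow_succ', mul_smul, ← hw, hz]
    · intro t ht
      rw [hn] at hfind
      exact hfind t (by rw [hw, ht])

omit [IsDomain R] [IsPrincipalIdealRing R] in
/-- The dual statement: an additive function killed by `π` kills the `π`-torsion, or it does not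
vanish on the generator of a pure cyclic submodule. -/
theorem coheight_cases {A : Type*} [AddCommGroup A] (π : R) (z : V →+ A)
    (hz : ∀ v, z (π • v) = 0) :
    (∀ (n : ℕ) (v : V), π ^ n • v = 0 → z v = 0) ∨
      ∃ (n : ℕ) (w : V), z w ≠ 0 ∧ IsPS π n w := by
  classical
  by_cases h : ∀ (n : ℕ) (v : V), π ^ n • v = 0 → z v = 0
  · exact Or.inl h
  · right
    push Not at h
    have hex : ∃ n : ℕ, ∃ v : V, π ^ n • v = 0 ∧ z v ≠ 0 := h
    have hfind := Nat.find_spec hex
    have hmin := fun m (hm : m < Nat.find hex) => Nat.find_min hex hm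
    set N := Nat.find hex with hN
    have hN0 : N ≠ 0 := by
      intro h0
      obtain ⟨v, hv, hzv⟩ := hfind
      rw [h0, pow_zero, one_smul] at hv
      exact hzv (by rw [hv, map_zero])
    obtain ⟨n, hn⟩ := Nat.exists_eq_succ_of_ne_zero hN0
    obtain ⟨w, hw, hzw⟩ := hfind
    rw [hn] at hw
    refine ⟨n, w, hzw, hw, ?_⟩
    intro t ht
    have h1 : π ^ n • (w - π • t) = 0 := by
      rw [smul_sub, ht, smul_smul, pow_succ, sub_self]
    have h2 := hmin n (by omega)
    push Not at h2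
    have h3 := h2 (w - π • t) h1
    rw [map_sub, hz, sub_zero] at h3
    exact hzw h3

/-- an element of infinite height killed by `π` is `0` in a module killed by `g ≠ 0` -/
theorem inf_height_zero {π : R} (hπ : Prime π) (g : R) (hg0 : g ≠ 0) (hg : ∀ v : V, g • v = 0)
    (z : V) (hz : π • z = 0) (hinf : ∀ n : ℕ, ∃ w : V, z = π ^ n • w) : z = 0 := by
  have hfin : ∃ n : ℕ, ¬ π ^ (n + 1) ∣ g := by
    have := FiniteMultiplicity.of_prime_left hπ hg0
    exact this
  obtain ⟨n, hn⟩ := hfin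
  obtain ⟨i, -, u, hu, hπu⟩ := exists_pow_mul n g hn
  obtain ⟨w, hw⟩ := hinf i
  have h1 : u • z = 0 := by
    rw [hw, smul_smul, mul_comm, ← hu]
    exact hg w
  obtain ⟨a, b, hab⟩ := coprime_pow hπ hπu 1
  calc z = (a * u + b * π ^ 1) • z := by rw [hab, one_smul]
    _ = 0 := by rw [add_smul, mul_smul, mul_smul, h1, pow_one, hz, smul_zero, smul_zero, add_zero]

universe v

/-- The key lemma for the fourth condition. -/
theorem both_case {V₁ V₂ : Type*} [AddCommGroup V₁] [Module R V₁] [AddCommGroup V₂]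
    [Module R V₂] [IsNoetherian R V₁] {A : Type*} [AddCommGroup A]
    (g₁ g₂ : R) (h₁ : g₁ ≠ 0) (h₂ : g₂ ≠ 0) (hV₁ : ∀ v : V₁, g₁ • v = 0)
    (hV₂ : ∀ v : V₂, g₂ • v = 0) (ω : (V₁ →ₗ[R] V₂) →+ A) (K : Submodule R V₁) :
    ∀ (V : Type v) [AddCommGroup V] [Module R V] (f : V₁ →ₗ[R] V) (G : V →ₗ[R] V₂),
      LinearMap.ker f = K → ω (G ∘ₗ f) ≠ 0 →
      ∃ (π : R), Prime π ∧ ∃ (n : ℕ) (y : V), IsPS π n y ∧
        ∃ (f' : V₁ →ₗ[R] (R ⧸ Ideal.span {π ^ (n + 1)}))
          (G' : (R ⧸ Ideal.span {π ^ (n + 1)}) →ₗ[R] V₂), ω (G' ∘ₗ f') ≠ 0 := by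
  induction K using (wellFounded_gt (α := Submodule R V₁)).induction with
  | _ K ih =>
  intro V _ _ f G hK hω
  have hf0 : f ≠ 0 := by
    rintro rfl
    apply hω
    rw [LinearMap.comp_zero, map_zero]
  obtain ⟨x, hx⟩ : ∃ x, f x ≠ 0 := by
    by_contra hcon
    push Not at hcon
    exact hf0 (LinearMap.ext hcon)
  obtain ⟨π, hπ, -, c, hc, hπc⟩ := exists_socle (f x) hx g₁ h₁ (by rw [← map_smul, hV₁, map_zero])
  rw [← map_smul] at hc hπc
  set x' := c • x with hx'
  set z := f x' with hz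
  rcases height_cases π z hπc with hinf | ⟨n, w, hzw, hPS⟩
  · -- infinite height: pass to `V / R z`
    have hGz : G z = 0 := by
      apply inf_height_zero hπ g₂ h₂ hV₂
      · rw [← map_smul, hπc, map_zero]
      · intro n
        obtain ⟨w, hw⟩ := hinf n
        exact ⟨G w, by rw [hw, map_smul]⟩
    let Z : Submodule R V := Submodule.span R {z}
    let f₁ : V₁ →ₗ[R] (V ⧸ Z) := Z.mkQ ∘ₗ f
    let G₁ : (V ⧸ Z) →ₗ[R] V₂ := Z.liftQ G (by
      rw [Submodule.span_le, Set.singleton_subset_iff]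
      exact hGz)
    have hcomp : G₁ ∘ₗ f₁ = G ∘ₗ f := by
      ext v
      simp [G₁, f₁]
    have hker : K < LinearMap.ker f₁ := by
      rw [← hK]
      refine lt_of_le_of_ne ?_ ?_
      · intro v hv
        rw [LinearMap.mem_ker] at hv ⊢
        simp [f₁, hv]
      · intro heq
        have hmem : x' ∈ LinearMap.ker f₁ := by
          rw [LinearMap.mem_ker]
          show Z.mkQ (f x') = 0
          rw [Submodule.mkQ_apply, Submodule.Quotient.mk_eq_zero]
          exact Submodule.mem_span_singleton_self _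
        rw [← heq, LinearMap.mem_ker] at hmem
        exact hc hmem
    obtain ⟨ρ, hρ, n, y, hPS, f', G', hω'⟩ := ih _ hker (V ⧸ Z) f₁ G₁ rfl (by rwa [hcomp])
    refine ⟨ρ, hρ, n, ?_⟩
    obtain ⟨ι, e, -, -, hey⟩ := exists_split hρ hPS
    obtain ⟨y₀, rfl⟩ := Z.mkQ_surjective y
    -- `z` is divisible by all the powers of `ρ`
    have hdiv : ∃ w : V, z = ρ ^ (n + 2) • w := by
      by_cases hass : π ∣ ρ ^ (n + 2)
      · have h3 : Associated π ρ := by
          have := hπ.dvd_of_dvd_pow hass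
          exact (hπ.dvd_prime_iff_associated hρ).1 this
        obtain ⟨u, hu⟩ := h3
        obtain ⟨w, hw⟩ := hinf (n + 2)
        refine ⟨((↑u⁻¹ : R) ^ (n + 2)) • w, ?_⟩
        rw [hw, smul_smul, ← hu, mul_pow, mul_assoc, ← mul_pow]
        simp
      · obtain ⟨a, b, hab⟩ := coprime_pow hπ hass 1
        refine ⟨a • z, ?_⟩
        rw [pow_one] at hab
        calc z = (a * ρ ^ (n + 2) + b * π) • z := by rw [hab, one_smul]
          _ = ρ ^ (n + 2) • a • z := by
            rw [add_smul, mul_smul b, hπc, smul_zero, add_zero, mul_comm, mul_smul]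
    obtain ⟨w, hw⟩ := hdiv
    have h4 : ρ ^ (n + 1) • y₀ ∈ Z := by
      have := hPS.1
      rw [← map_smul, Submodule.mkQ_apply, Submodule.Quotient.mk_eq_zero] at this
      exact this
    obtain ⟨d, hd⟩ := Submodule.mem_span_singleton.1 h4
    let y' : V := y₀ - (d * ρ) • w
    refine ⟨y', ⟨?_, ?_⟩, f', G', hω'⟩
    · show ρ ^ (n + 1) • (y₀ - (d * ρ) • w) = 0
      rw [smul_sub, ← hd, hw, smul_smul, smul_smul, sub_eq_zero]
      congr 1
      ring
    · intro t ht
      have h5 := congrArg (fun v => e (Z.mkQ v)) ht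
      simp only [y', map_smul, map_sub] at h5
      rw [hey] at h5
      have h6 : ∀ x : R ⧸ Ideal.span {ρ ^ (n + 1)}, ρ ^ (n + 1) • x = 0 := by
        intro x
        obtain ⟨r, rfl⟩ := Ideal.Quotient.mk_surjective x
        show Ideal.Quotient.mk _ (ρ ^ (n + 1) * r) = 0
        rw [Ideal.Quotient.eq_zero_iff_mem, Ideal.mem_span_singleton]
        exact dvd_mul_right _ _
      rw [h6, smul_sub, smul_smul, show ρ ^ n * (d * ρ) = d * ρ ^ (n + 1) by ring, mul_smul, h6,
        smul_zero, sub_zero] at h5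
      have h7 : (Ideal.Quotient.mk (Ideal.span {ρ ^ (n + 1)})) (ρ ^ n * 1) = 0 := h5
      rw [Ideal.Quotient.eq_zero_iff_mem, Ideal.mem_span_singleton, mul_one] at h7
      have h8 := (pow_dvd_pow_iff hρ.ne_zero hρ.not_isUnit).1 h7
      omega
  · obtain ⟨ι, e, hιe, hι1, hew⟩ := exists_split hπ hPS
    have hιez : ι (e z) = z := by
      rw [hzw, map_smul, map_smul, hew, hι1]
    let f₂ : V₁ →ₗ[R] V := f - ι ∘ₗ e ∘ₗ f
    have hsum : G ∘ₗ f = (G ∘ₗ ι) ∘ₗ (e ∘ₗ f) + G ∘ₗ f₂ := by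
      ext v
      simp [f₂]
    rw [hsum, map_add] at hω
    by_cases hA : ω ((G ∘ₗ ι) ∘ₗ (e ∘ₗ f)) = 0
    · rw [hA, zero_add] at hω
      refine ih _ ?_ V f₂ G rfl hω
      rw [← hK]
      refine lt_of_le_of_ne ?_ ?_
      · intro v hv
        rw [LinearMap.mem_ker] at hv ⊢
        simp [f₂, hv]
      · intro heq
        have hmem : x' ∈ LinearMap.ker f₂ := by
          rw [LinearMap.mem_ker]
          show f x' - ι (e (f x')) = 0
          rw [← hz, hιez, sub_self]
        rw [← heq, LinearMap.mem_ker] at hmem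
        exact hc hmem
    · exact ⟨π, hπ, n, w, hPS, e ∘ₗ f, G ∘ₗ ι, hA⟩

end SAlg
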