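import Pool.Agent.Lib.MP_b9fd58_lc.R.AlgB

/-!
# MP_b9fd58_lc, stream R: general algebra over a PID (III): the modules `R[1/π]/R` and `R_(π)`
-/

set_option autoImplicit false

namespace SAlg

open Function

variable {R : Type*} [CommRing R] [IsDomain R] [IsPrincipalIdealRing R]

/-- The module `R[1/π]/R`. -/
abbrev PR (π : R) : Type _ :=
  (Localization.Away π) ⧸ (LinearMap.range (Algebra.linearMap R (Localization.Away π)))

theorem dvd_or_coprime {π : R} (hπ : Prime π) (r : R) : π ∣ r ∨ IsCoprime r π := by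
  by_cases h : π ∣ r
  · exact Or.inl h
  · right
    have := coprime_pow hπ h 1
    rwa [pow_one] at this

omit [IsDomain R] [IsPrincipalIdealRing R] in
theorem PR_exists_rep (π : R) (x : PR π) :
    ∃ (a : R) (n : ℕ), ∃ z : Localization.Away π,
      x = Submodule.Quotient.mk z ∧ π ^ n • z = algebraMap R _ a := by
  obtain ⟨z, rfl⟩ := Submodule.Quotient.mk_surjective _ x
  obtain ⟨⟨a, s⟩, hs⟩ := IsLocalization.surj (Submonoid.powers π) z
  obtain ⟨n, hn⟩ := s.2
  refine ⟨a, n, z, rfl, ?_⟩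
  simp only at hs hn
  rw [← hs, ← hn, Algebra.smul_def, mul_comm]

omit [IsDomain R] [IsPrincipalIdealRing R] in
theorem PR_tors (π : R) (x : PR π) : ∃ n : ℕ, π ^ n • x = 0 := by
  obtain ⟨a, n, z, rfl, h⟩ := PR_exists_rep π x
  refine ⟨n, ?_⟩
  rw [← Submodule.Quotient.mk_smul, h, Submodule.Quotient.mk_eq_zero]
  exact ⟨a, rfl⟩

omit [IsDomain R] [IsPrincipalIdealRing R] in
theorem PR_div_pi (π : R) (x : PR π) : ∃ y : PR π, π • y = x := by
  obtain ⟨z, rfl⟩ := Submodule.Quotient.mk_surjective _ x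
  refine ⟨Submodule.Quotient.mk (IsLocalization.Away.invSelf π * z), ?_⟩
  rw [← Submodule.Quotient.mk_smul]
  congr 1
  rw [Algebra.smul_def, ← mul_assoc, IsLocalization.Away.mul_invSelf, one_mul]

omit [IsDomain R] [IsPrincipalIdealRing R] in
theorem PR_div_pow (π : R) (n : ℕ) (x : PR π) : ∃ y : PR π, π ^ n • y = x := by
  induction n generalizing x with
  | zero => exact ⟨x, by simp⟩
  | succ n ih =>
    obtain ⟨y, hy⟩ := PR_div_pi π x
    obtain ⟨w, hw⟩ := ih y
    exact ⟨w, by rw [pow_succ', mul_smul, hw, hy]⟩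

theorem exists_pow_mul' {π r : R} (hπ : Prime π) (hr : r ≠ 0) :
    ∃ (i : ℕ) (u : R), r = π ^ i * u ∧ IsCoprime u π := by
  have hfin : ∃ n : ℕ, ¬ π ^ (n + 1) ∣ r := FiniteMultiplicity.of_prime_left hπ hr
  obtain ⟨n, hn⟩ := hfin
  obtain ⟨i, -, u, hu, hπu⟩ := exists_pow_mul n r hn
  have := coprime_pow hπ hπu 1
  rw [pow_one] at this
  exact ⟨i, u, hu, this⟩

theorem PR_div {π : R} (hπ : Prime π) (r : R) (hr : r ≠ 0) (x : PR π) :
    ∃ y : PR π, r • y = x := by
  obtain ⟨i, u, rfl, hu⟩ := exists_pow_mul' hπ hr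
  obtain ⟨n, hn⟩ := PR_tors π x
  obtain ⟨a, b, hab⟩ := hu.pow_right (n := n)
  obtain ⟨y, hy⟩ := PR_div_pow π i (a • x)
  refine ⟨y, ?_⟩
  rw [mul_comm, mul_smul, hy, smul_smul]
  have : (a * u + b * π ^ n) • x = x := by rw [hab, one_smul]
  rw [add_smul, mul_smul b, hn, smul_zero, add_zero, mul_comm] at this
  exact this

omit [IsPrincipalIdealRing R] in
theorem PR_socle {π : R} (hπ : Prime π) : ∃ x : PR π, x ≠ 0 ∧ π • x = 0 := by
  refine ⟨Submodule.Quotient.mk (IsLocalization.Away.invSelf π), ?_, ?_⟩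
  · intro h
    rw [Submodule.Quotient.mk_eq_zero] at h
    obtain ⟨r, hr⟩ := h
    have h1 : algebraMap R (Localization.Away π) (π * r) = algebraMap R _ 1 := by
      rw [map_mul, map_one, ← IsLocalization.Away.mul_invSelf (S := Localization.Away π) π]
      congr 1
    have hinj : Injective (algebraMap R (Localization.Away π)) :=
      IsLocalization.injective _ (powers_le_nonZeroDivisors_of_noZeroDivisors hπ.ne_zero)
    exact hπ.not_isUnit (IsUnit.of_mul_eq_one _ (hinj h1))
  · rw [← Submodule.Quotient.mk_smul, Submodule.Quotient.mk_eq_zero]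
    refine ⟨1, ?_⟩
    rw [Algebra.smul_def, IsLocalization.Away.mul_invSelf]
    exact map_one (algebraMap R (Localization.Away π))

theorem PR_faithful {π : R} (hπ : Prime π) (r : R) (hr : r ≠ 0) : ∃ x : PR π, r • x ≠ 0 := by
  obtain ⟨x, hx, -⟩ := PR_socle hπ
  obtain ⟨y, hy⟩ := PR_div hπ r hr x
  exact ⟨y, by rwa [hy]⟩

variable {V : Type*} [AddCommGroup V] [Module R V]

/-- A vector which is not killed by an element prime to `π` is detected by `R[1/π]/R`. -/
theorem PR_hom {π : R} (hπ : Prime π) (v : V) (hv : ∀ s : R, IsCoprime s π → s • v ≠ 0) :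
    ∃ f : V →ₗ[R] PR π, f v ≠ 0 := by
  obtain ⟨x, hx, hπx⟩ := PR_socle hπ
  have hker : LinearMap.ker (LinearMap.toSpanSingleton R V v) ≤
      LinearMap.ker (LinearMap.toSpanSingleton R (PR π) x) := by
    intro r hr
    rw [LinearMap.mem_ker, LinearMap.toSpanSingleton_apply] at hr ⊢
    rcases dvd_or_coprime hπ r with ⟨s, rfl⟩ | h
    · rw [mul_comm, mul_smul, hπx, smul_zero]
    · exact absurd hr (hv r h)
  let i : (R ⧸ LinearMap.ker (LinearMap.toSpanSingleton R V v)) →ₗ[R] V :=
    Submodule.liftQ _ (LinearMap.toSpanSingleton R V v) le_rfl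
  let g : (R ⧸ LinearMap.ker (LinearMap.toSpanSingleton R V v)) →ₗ[R] PR π :=
    Submodule.liftQ _ (LinearMap.toSpanSingleton R (PR π) x) hker
  have hi : Injective i := by
    rw [← LinearMap.ker_eq_bot]
    exact Submodule.ker_liftQ_eq_bot _ _ _ le_rfl
  obtain ⟨f, hf⟩ := (baer_of_divisible (PR_div hπ)).extension_property i hi g
  refine ⟨f, ?_⟩
  have h1 := LinearMap.congr_fun hf (Submodule.Quotient.mk 1)
  have h2 : i (Submodule.Quotient.mk 1) = v := by
    show LinearMap.toSpanSingleton R V v 1 = v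
    simp
  have h3 : g (Submodule.Quotient.mk 1) = x := by
    show LinearMap.toSpanSingleton R (PR π) x 1 = x
    simp
  rw [LinearMap.comp_apply, h2, h3] at h1
  rwa [h1]

/-- no homomorphism from `R[1/π]/R` to a module killed by `g ≠ 0` -/
theorem PR_hom_zero {π : R} (hπ : Prime π) (g : R) (hg0 : g ≠ 0) (hg : ∀ v : V, g • v = 0)
    (G : PR π →ₗ[R] V) : G = 0 := by
  refine LinearMap.ext fun x => ?_
  obtain ⟨y, hy⟩ := PR_div hπ g hg0 x
  show G x = 0
  rw [← hy, map_smul, hg]

omit [IsDomain R] [IsPrincipalIdealRing R] in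
/-- a vector killed by `s` prime to `π` is not detected -/
theorem PR_hom_kill {π : R} (f : V →ₗ[R] PR π) (v : V) (s : R) (hs : IsCoprime s π)
    (hv : s • v = 0) : f v = 0 := by
  obtain ⟨n, hn⟩ := PR_tors π (f v)
  obtain ⟨a, b, hab⟩ := hs.pow_right (n := n)
  calc f v = (a * s + b * π ^ n) • f v := by rw [hab, one_smul]
    _ = 0 := by
      rw [add_smul, mul_smul, mul_smul b, hn, ← map_smul, hv, map_zero, smul_zero, smul_zero,
        add_zero]

/-- The elements prime to `π`. -/
def copr (π : R) : Submonoid R where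
  carrier := {s | IsCoprime s π}
  one_mem' := isCoprime_one_left
  mul_mem' := fun h1 h2 => IsCoprime.mul_left h1 h2

/-- The localisation `R_(π)`. -/
abbrev AD (π : R) : Type _ := Localization (copr π)

omit [IsPrincipalIdealRing R] in
theorem copr_le {π : R} (hπ : Prime π) : copr π ≤ nonZeroDivisors R := by
  intro s hs
  apply mem_nonZeroDivisors_of_ne_zero
  rintro rfl
  have h : IsCoprime (0 : R) π := hs
  rw [isCoprime_zero_left] at h
  exact hπ.not_isUnit h

omit [IsPrincipalIdealRing R] in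
theorem AD_torsionFree {π : R} (hπ : Prime π) (r : R) (hr : r ≠ 0) (x : AD π) (h : r • x = 0) :
    x = 0 := by
  have hdom : IsDomain (AD π) := IsLocalization.isDomain_localization (copr_le hπ)
  have hinj : Injective (algebraMap R (AD π)) := IsLocalization.injective _ (copr_le hπ)
  rw [Algebra.smul_def, mul_eq_zero] at h
  rcases h with h | h
  · exact absurd ((injective_iff_map_eq_zero _).1 hinj r h) hr
  · exact h

omit [IsPrincipalIdealRing R] in
/-- no homomorphism from a module killed by `g ≠ 0` to `R_(π)` -/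
theorem AD_hom_zero {π : R} (hπ : Prime π) (g : R) (hg0 : g ≠ 0) (hg : ∀ v : V, g • v = 0)
    (f : V →ₗ[R] AD π) : f = 0 := by
  ext v
  show f v = 0
  exact AD_torsionFree hπ g hg0 _ (by rw [← map_smul, hg, map_zero])

/-- the values of a homomorphism from `R_(π)` to a module killed by `g ≠ 0` -/
theorem AD_hom_tors {π : R} (hπ : Prime π) (g : R) (hg0 : g ≠ 0) (hg : ∀ v : V, g • v = 0)
    (G : AD π →ₗ[R] V) (x : AD π) : ∃ n : ℕ, π ^ n • G x = 0 := by
  obtain ⟨i, u, rfl, hu⟩ := exists_pow_mul' hπ hg0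
  refine ⟨i, ?_⟩
  have hu' : u ∈ copr π := hu
  have h1 : u • ((IsLocalization.mk' (AD π) (1 : R) (⟨u, hu'⟩ : copr π) : AD π) * x) = x := by
    have h2 := IsLocalization.mk'_spec' (AD π) (1 : R) (⟨u, hu'⟩ : copr π)
    rw [Algebra.smul_def, ← mul_assoc, h2, map_one, one_mul]
  rw [← h1, map_smul, smul_smul, hg]

omit [IsDomain R] [IsPrincipalIdealRing R] in
/-- a vector killed by a power of `π` is the value at `1` of a homomorphism from `R_(π)` -/
theorem AD_exists {π : R} (n : ℕ) (v : V) (hv : π ^ n • v = 0) :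
    ∃ G : AD π →ₗ[R] V, G 1 = v := by
  let I : Ideal R := Ideal.span {π ^ n}
  have hunit : ∀ s : copr π, IsUnit (Ideal.Quotient.mk I (s : R)) := by
    rintro ⟨s, hs⟩
    obtain ⟨a, b, hab⟩ := (show IsCoprime s π from hs).pow_right (n := n)
    have h0 : Ideal.Quotient.mk I (b * π ^ n) = 0 :=
      Ideal.Quotient.eq_zero_iff_mem.2 (Ideal.mem_span_singleton.2 (dvd_mul_left _ _))
    have h1 : Ideal.Quotient.mk I a * Ideal.Quotient.mk I s = 1 := by
      rw [← map_mul, ← map_one (Ideal.Quotient.mk I), ← hab, map_add, h0, add_zero]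
    exact IsUnit.of_mul_eq_one _ (by rw [mul_comm]; exact h1)
  let φ : AD π →+* (R ⧸ I) := IsLocalization.lift hunit
  have hφ : ∀ r : R, φ (algebraMap R (AD π) r) = Ideal.Quotient.mk I r :=
    fun r => IsLocalization.lift_eq hunit r
  let φ' : AD π →ₗ[R] (R ⧸ I) :=
    { toFun := φ
      map_add' := map_add φ
      map_smul' := fun r x => by
        rw [Algebra.smul_def, map_mul, hφ, RingHom.id_apply]
        rfl }
  let ι : (R ⧸ I) →ₗ[R] V :=
    Submodule.liftQ I (LinearMap.toSpanSingleton R V v) (by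
      show Submodule.span R {π ^ n} ≤ _
      rw [Submodule.span_le, Set.singleton_subset_iff]
      exact hv)
  refine ⟨ι ∘ₗ φ', ?_⟩
  have h1 : φ' 1 = Ideal.Quotient.mk I 1 := by
    show φ 1 = _
    rw [map_one, map_one]
  rw [LinearMap.comp_apply, h1]
  show (1 : R) • v = v
  rw [one_smul]

end SAlg
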