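import Mathlib

/-!
# MP_b9fd58_lc, stream T: closed subspaces of dual spaces, linear compactness, retracts
-/

set_option autoImplicit false

namespace SAlg

open Module

universe u v w

variable {k : Type u} [Field k]

section closed

variable {Y : Type v} [AddCommGroup Y] [Module k Y]

/-- The closed subspaces of a dual space. -/
def IsCl (A : Submodule k (Dual k Y)) : Prop := ∃ U : Submodule k Y, A = U.dualAnnihilator

theorem IsCl.bot : IsCl (⊥ : Submodule k (Dual k Y)) :=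
  ⟨⊤, (Submodule.dualAnnihilator_top).symm⟩

theorem IsCl.top : IsCl (⊤ : Submodule k (Dual k Y)) :=
  ⟨⊥, (Submodule.dualAnnihilator_bot).symm⟩

theorem IsCl.inf {A B : Submodule k (Dual k Y)} (hA : IsCl A) (hB : IsCl B) : IsCl (A ⊓ B) := by
  obtain ⟨U, rfl⟩ := hA
  obtain ⟨W, rfl⟩ := hB
  exact ⟨U ⊔ W, (Submodule.dualAnnihilator_sup_eq _ _).symm⟩

theorem IsCl.sup {A B : Submodule k (Dual k Y)} (hA : IsCl A) (hB : IsCl B) : IsCl (A ⊔ B) := by
  obtain ⟨U, rfl⟩ := hA
  obtain ⟨W, rfl⟩ := hB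
  exact ⟨U ⊓ W, (Subspace.dualAnnihilator_inf_eq _ _).symm⟩

variable {Z : Type w} [AddCommGroup Z] [Module k Z]

theorem IsCl.comap (a : Y →ₗ[k] Z) {A : Submodule k (Dual k Y)} (hA : IsCl A) :
    IsCl (A.comap a.dualMap) := by
  obtain ⟨U, rfl⟩ := hA
  refine ⟨U.map a, ?_⟩
  ext f
  rw [Submodule.mem_comap, Submodule.mem_dualAnnihilator, Submodule.mem_dualAnnihilator]
  constructor
  · rintro h _ ⟨u, hu, rfl⟩
    exact h u hu
  · intro h u hu
    exact h (a u) ⟨u, hu, rfl⟩

theorem IsCl.map (a : Y →ₗ[k] Z) {A : Submodule k (Dual k Z)} (hA : IsCl A) :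
    IsCl (A.map a.dualMap) := by
  obtain ⟨U, rfl⟩ := hA
  refine ⟨U.comap a, ?_⟩
  ext f
  rw [Submodule.mem_map, Submodule.mem_dualAnnihilator]
  constructor
  · rintro ⟨g, hg, rfl⟩ y hy
    rw [Submodule.mem_dualAnnihilator] at hg
    exact hg (a y) hy
  · intro h
    -- a functional on `Z / U` which extends `f`
    have h1 : f ∈ (LinearMap.ker (U.mkQ ∘ₗ a)).dualAnnihilator := by
      rw [Submodule.mem_dualAnnihilator]
      intro y hy
      apply h
      rw [LinearMap.mem_ker, LinearMap.comp_apply, Submodule.mkQ_apply,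
        Submodule.Quotient.mk_eq_zero] at hy
      exact hy
    rw [← LinearMap.range_dualMap_eq_dualAnnihilator_ker] at h1
    obtain ⟨g, hg⟩ := h1
    refine ⟨g ∘ₗ U.mkQ, ?_, ?_⟩
    · rw [Submodule.mem_dualAnnihilator]
      intro z hz
      rw [LinearMap.comp_apply, Submodule.mkQ_apply, (Submodule.Quotient.mk_eq_zero U).2 hz,
        map_zero]
    · exact hg

/-- Linear compactness. -/
theorem IsCl.compact (A : ℕ → Submodule k (Dual k Y)) (hA : ∀ m, IsCl (A m)) (y : ℕ → Dual k Y)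
    (hdec : ∀ m, A (m + 1) ≤ A m) (hy : ∀ m, y (m + 1) - y m ∈ A m) :
    ∃ z, ∀ m, z - y m ∈ A m := by
  classical
  choose U hU using hA
  have hanti : ∀ m m', m ≤ m' → A m' ≤ A m := fun m m' h =>
    antitone_nat_of_succ_le hdec h
  have hdiff : ∀ m m', m ≤ m' → y m' - y m ∈ A m := by
    intro m m' h
    induction m', h using Nat.le_induction with
    | base => rw [sub_self]; exact (A m).zero_mem
    | succ j hj ih =>
      have : y (j + 1) - y m = (y (j + 1) - y j) + (y j - y m) := by abel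
      rw [this]
      exact (A m).add_mem (hanti m j hj (hy j)) ih
  let E : Submodule k Y :=
    { carrier := {v | ∃ m₀, ∀ m, m₀ ≤ m → y m v = y m₀ v}
      add_mem' := by
        rintro a b ⟨m, hm⟩ ⟨m', hm'⟩
        refine ⟨max m m', fun j hj => ?_⟩
        rw [map_add, map_add, hm j (le_trans (le_max_left _ _) hj),
          hm' j (le_trans (le_max_right _ _) hj), hm _ (le_max_left _ _), hm' _ (le_max_right _ _)]
      zero_mem' := ⟨0, fun j _ => by rw [map_zero, map_zero]⟩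
      smul_mem' := by
        rintro c a ⟨m, hm⟩
        exact ⟨m, fun j hj => by rw [map_smul, map_smul, hm j hj]⟩ }
  have hE : ∀ v : E, ∃ m₀, ∀ m, m₀ ≤ m → y m v = y m₀ v := fun v => v.2
  choose t ht using hE
  have huniq : ∀ (v : E) (m₀ : ℕ), (∀ m, m₀ ≤ m → y m v = y m₀ v) → y (t v) v = y m₀ v := by
    intro v m₀ h
    rw [← ht v (max (t v) m₀) (le_max_left _ _), h _ (le_max_right _ _)]
  let z₀ : E →ₗ[k] k :=
    { toFun := fun v => y (t v) v
      map_add' := fun a b => by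
        have h1 := huniq (a + b) (max (t (a + b)) (max (t a) (t b))) (fun m hm => by
          rw [ht (a + b) m (le_trans (le_max_left _ _) hm), ht (a + b) _ (le_max_left _ _)])
        rw [h1]
        rw [Submodule.coe_add, map_add, ht a _ (le_trans (le_max_left _ _) (le_max_right _ _)),
          ht b _ (le_trans (le_max_right _ _) (le_max_right _ _))]
      map_smul' := fun c a => by
        have h1 := huniq (c • a) (max (t (c • a)) (t a)) (fun m hm => by
          rw [ht (c • a) m (le_trans (le_max_left _ _) hm), ht (c • a) _ (le_max_left _ _)])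
        rw [h1]
        rw [Submodule.coe_smul, map_smul, ht a _ (le_max_right _ _), RingHom.id_apply] }
  obtain ⟨z, hz⟩ := z₀.exists_extend
  refine ⟨z, fun m => ?_⟩
  rw [hU m, Submodule.mem_dualAnnihilator]
  intro v hv
  have h1 : ∀ j, m ≤ j → y j v = y m v := by
    intro j hj
    have := hdiff m j hj
    rw [hU m, Submodule.mem_dualAnnihilator] at this
    have h2 := this v hv
    rw [LinearMap.sub_apply, sub_eq_zero] at h2
    exact h2
  have h2 : v ∈ E := ⟨m, h1⟩
  have h3 : z v = z₀ ⟨v, h2⟩ := LinearMap.congr_fun hz ⟨v, h2⟩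
  rw [LinearMap.sub_apply, h3, sub_eq_zero]
  exact huniq ⟨v, h2⟩ m h1

end closed

section retract

variable {N : Type w} [AddCommGroup N] [Module k N] {Y : Type v} [AddCommGroup Y] [Module k Y]

/-- The subspaces of a retract `N` of a dual space which come from closed subspaces. -/
def RCl (ι : N →ₗ[k] Dual k Y) (π : Dual k Y →ₗ[k] N) (A : Submodule k N) : Prop :=
  ∃ A' : Submodule k (Dual k Y), IsCl A' ∧ (∀ x ∈ A, ι x ∈ A') ∧ ∀ x ∈ A', π x ∈ A

variable {ι : N →ₗ[k] Dual k Y} {π : Dual k Y →ₗ[k] N}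

theorem RCl.bot : RCl ι π ⊥ := by
  refine ⟨⊥, IsCl.bot, fun x hx => ?_, fun x hx => ?_⟩
  · rw [(Submodule.mem_bot k).1 hx, map_zero]; exact Submodule.zero_mem _
  · rw [(Submodule.mem_bot k).1 hx, map_zero]; exact Submodule.zero_mem _

theorem RCl.top : RCl ι π ⊤ :=
  ⟨⊤, IsCl.top, fun _ _ => Submodule.mem_top, fun _ _ => Submodule.mem_top⟩

theorem RCl.inf {A B : Submodule k N} (hA : RCl ι π A) (hB : RCl ι π B) : RCl ι π (A ⊓ B) := by
  obtain ⟨A', h1, h2, h3⟩ := hA
  obtain ⟨B', h1', h2', h3'⟩ := hB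
  exact ⟨A' ⊓ B', h1.inf h1', fun x hx => ⟨h2 x hx.1, h2' x hx.2⟩,
    fun x hx => ⟨h3 x hx.1, h3' x hx.2⟩⟩

theorem RCl.sup {A B : Submodule k N} (hA : RCl ι π A) (hB : RCl ι π B) : RCl ι π (A ⊔ B) := by
  obtain ⟨A', h1, h2, h3⟩ := hA
  obtain ⟨B', h1', h2', h3'⟩ := hB
  refine ⟨A' ⊔ B', h1.sup h1', fun x hx => ?_, fun x hx => ?_⟩
  · obtain ⟨a, ha, b, hb, rfl⟩ := Submodule.mem_sup.1 hx
    rw [map_add]
    exact Submodule.add_mem_sup (h2 a ha) (h2' b hb)
  · obtain ⟨a, ha, b, hb, rfl⟩ := Submodule.mem_sup.1 hx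
    rw [map_add]
    exact Submodule.add_mem_sup (h3 a ha) (h3' b hb)

/-- images under endomorphisms which commute with the retraction -/
theorem RCl.map {A : Submodule k N} (hA : RCl ι π A) (a : N →ₗ[k] N) (a' : Y →ₗ[k] Y)
    (h₁ : ∀ x, ι (a x) = a'.dualMap (ι x)) (h₂ : ∀ x, π (a'.dualMap x) = a (π x)) :
    RCl ι π (A.map a) := by
  obtain ⟨A', h1, h2, h3⟩ := hA
  refine ⟨A'.map a'.dualMap, h1.map a', ?_, ?_⟩
  · rintro _ ⟨x, hx, rfl⟩
    exact ⟨ι x, h2 x hx, (h₁ x).symm⟩
  · rintro _ ⟨x, hx, rfl⟩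
    exact ⟨π x, h3 x hx, (h₂ x).symm⟩

/-- inverse images under endomorphisms which commute with the retraction -/
theorem RCl.comap {A : Submodule k N} (hA : RCl ι π A) (a : N →ₗ[k] N) (a' : Y →ₗ[k] Y)
    (h₁ : ∀ x, ι (a x) = a'.dualMap (ι x)) (h₂ : ∀ x, π (a'.dualMap x) = a (π x)) :
    RCl ι π (A.comap a) := by
  obtain ⟨A', h1, h2, h3⟩ := hA
  refine ⟨A'.comap a'.dualMap, h1.comap a', fun x hx => ?_, fun x hx => ?_⟩
  · rw [Submodule.mem_comap, ← h₁]
    exact h2 _ hx
  · rw [Submodule.mem_comap, ← h₂]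
    exact h3 _ hx

/-- Linear compactness of retracts of dual spaces. -/
theorem RCl.compact (hιπ : ∀ x, π (ι x) = x) (A : ℕ → Submodule k N) (hA : ∀ m, RCl ι π (A m))
    (y : ℕ → N) (hdec : ∀ m, A (m + 1) ≤ A m) (hy : ∀ m, y (m + 1) - y m ∈ A m) :
    ∃ z, ∀ m, z - y m ∈ A m := by
  choose A' h1 h2 h3 using hA
  -- the finite intersections
  let C : ℕ → Submodule k (Dual k Y) := fun m => Nat.rec (A' 0) (fun j C => C ⊓ A' (j + 1)) m
  have hC0 : C 0 = A' 0 := rfl
  have hCs : ∀ m, C (m + 1) = C m ⊓ A' (m + 1) := fun m => rfl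
  have hCcl : ∀ m, IsCl (C m) := by
    intro m
    induction m with
    | zero => rw [hC0]; exact h1 0
    | succ m ih => rw [hCs]; exact ih.inf (h1 _)
  have hCA : ∀ m, C m ≤ A' m := by
    intro m
    cases m with
    | zero => exact le_rfl
    | succ m => rw [hCs]; exact inf_le_right
  have hanti : ∀ m m', m ≤ m' → A m' ≤ A m := fun m m' h => antitone_nat_of_succ_le hdec h
  have hmem : ∀ m x, x ∈ A m → ι x ∈ C m := by
    intro m
    induction m with
    | zero => exact h2 0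
    | succ m ih =>
      intro x hx
      rw [hCs]
      exact ⟨ih x (hdec m hx), h2 _ x hx⟩
  obtain ⟨z, hz⟩ := IsCl.compact C hCcl (fun m => ι (y m)) (fun m => by rw [hCs]; exact inf_le_left)
    (fun m => by
      rw [← map_sub]
      exact hmem m _ (hy m))
  refine ⟨π z, fun m => ?_⟩
  have h4 := h3 m _ (hCA m (hz m))
  rwa [map_sub, hιπ] at h4

end retract

end SAlg
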