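import Mathlib

/-!
# MP_b9fd58_lc: the `k[X]`-module of an endomorphism
-/

set_option autoImplicit false

namespace SAlg

open Polynomial Module

universe u v w

variable {k : Type u} [Field k]

/-- The `k[X]`-module given by an endomorphism. -/
def EM {M : Type v} [AddCommGroup M] [Module k M] (_ : M →ₗ[k] M) : Type v := M

namespace EM

variable {M : Type v} [AddCommGroup M] [Module k M] (φ : M →ₗ[k] M)

instance : AddCommGroup (EM φ) := inferInstanceAs (AddCommGroup M)

instance : Module k (EM φ) := inferInstanceAs (Module k M)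

noncomputable instance : Module k[X] (EM φ) := Module.compHom M (aeval φ).toRingHom

/-- the identity -/
def of : M ≃ₗ[k] EM φ := LinearEquiv.refl k M

theorem smul_of (r : k[X]) (m : M) : r • of φ m = of φ (aeval φ r m) := rfl

instance : IsScalarTower k k[X] (EM φ) where
  smul_assoc c r m := by
    obtain ⟨m, rfl⟩ := (of φ).surjective m
    rw [smul_of, smul_of, map_smul, LinearMap.smul_apply, map_smul]

theorem X_smul_of (m : M) : (X : k[X]) • of φ m = of φ (φ m) := by
  rw [smul_of, aeval_X]

theorem of_symm_X_smul (m : EM φ) : (of φ).symm ((X : k[X]) • m) = φ ((of φ).symm m) := by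
  obtain ⟨m, rfl⟩ := (of φ).surjective m
  rw [X_smul_of, LinearEquiv.symm_apply_apply, LinearEquiv.symm_apply_apply]

end EM

theorem poly_smul_eq {M : Type*} [AddCommGroup M] [Module k M] [Module k[X] M]
    [IsScalarTower k k[X] M] (r : k[X]) (x : M) :
    r • x = ∑ i ∈ Finset.range (r.natDegree + 1), r.coeff i • (X ^ i : k[X]) • x := by
  conv_lhs => rw [r.as_sum_range_C_mul_X_pow, Finset.sum_smul]
  apply Finset.sum_congr rfl
  intro i _
  rw [mul_smul, ← smul_one_smul k[X] (r.coeff i)]
  congr 1
  rw [Polynomial.smul_eq_C_mul, mul_one]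

theorem C_smul_eq {M : Type*} [AddCommGroup M] [Module k M] [Module k[X] M]
    [IsScalarTower k k[X] M] (c : k) (x : M) : (C c : k[X]) • x = c • x := by
  rw [← mul_one (C c), ← Polynomial.smul_eq_C_mul, smul_assoc, one_smul]

theorem monomial_smul_eq {M : Type*} [AddCommGroup M] [Module k M] [Module k[X] M]
    [IsScalarTower k k[X] M] (n : ℕ) (a : k) (x : M) :
    (monomial n a : k[X]) • x = a • (X ^ n : k[X]) • x := by
  rw [← smul_assoc, Polynomial.smul_X_eq_monomial]

/-- A `k`-linear map which commutes with `X` is `k[X]`-linear. -/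
def ofX {M : Type*} {N : Type*} [AddCommGroup M] [Module k M] [Module k[X] M]
    [IsScalarTower k k[X] M] [AddCommGroup N] [Module k N] [Module k[X] N]
    [IsScalarTower k k[X] N] (f : M →ₗ[k] N) (h : ∀ m, f ((X : k[X]) • m) = (X : k[X]) • f m) :
    M →ₗ[k[X]] N where
  toFun := f
  map_add' := map_add f
  map_smul' r m := by
    have key : ∀ (n : ℕ) (m : M), f ((X ^ n : k[X]) • m) = (X ^ n : k[X]) • f m := by
      intro n
      induction n with
      | zero => intro m; simp
      | succ n ih => intro m; rw [pow_succ', mul_smul, h, ih, ← mul_smul]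
    rw [RingHom.id_apply, poly_smul_eq r m, poly_smul_eq r (f m), map_sum]
    apply Finset.sum_congr rfl
    intro i _
    rw [map_smul, key]

@[simp] theorem ofX_apply {M : Type*} {N : Type*} [AddCommGroup M] [Module k M] [Module k[X] M]
    [IsScalarTower k k[X] M] [AddCommGroup N] [Module k N] [Module k[X] N]
    [IsScalarTower k k[X] N] (f : M →ₗ[k] N) (h : ∀ m, f ((X : k[X]) • m) = (X : k[X]) • f m)
    (m : M) : ofX f h m = f m := rfl

end SAlg
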