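import Pool.Agent.Lib.MP_b9fd58_lc.GThA
import Pool.Agent.Lib.MP_b9fd58_lc.IfDefs
import Pool.Agent.Lib.MP_b9fd58_lc.R.AlgD
import Pool.Agent.Lib.MP_b9fd58_lc.R.EM

/-!
# Stream R: definitions

* `kr f p q`: the kernel of a linear map between line modules;
* `gm o p q φ v`: the graph map of the class of `(p, q)` with the coefficient `φ ⊗ v`;
* `mpE φ`: the map of the band modules induced by a map of the coefficient spaces;
* `rdat`: the part of a block pair seen by the modules `M(c, V)`.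
-/

set_option autoImplicit false

namespace StrAlg

open Module Polynomial

variable {D : Dat} {k : Type} [Field k] {S : Sides D}

section kr
variable {w₁ w₂ : Str S} {l₁ l₂ : ℕ} {V₁ V₂ : Type} [AddCommGroup V₁] [Module k V₁] [AddCommGroup V₂] [Module k V₂]
  {T₁ : V₁ ≃ₗ[k] V₁} {T₂ : V₂ ≃ₗ[k] V₂} (h₁ : w₁.PerOK l₁ T₁) (h₂ : w₂.PerOK l₂ T₂)

/-- the kernel of a linear map between line modules -/
noncomputable def kr (f : (w₁.ME l₁ T₁ h₁).C →ₗ[k] (w₂.ME l₂ T₂ h₂).C) (p q : ℤ) : V₁ →ₗ[k] V₂ :=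
  xiE h₂ q ∘ₗ f ∘ₗ ioE h₁ p

/-- the index set of the class of `(p, q)`: the class consists of the pairs `(p + i, stn o i q)` -/
noncomputable def clI (L₁ L₂ : Ln (Fin D.nV) S.nx) (o : Bool) (p q : ℤ) : Finset ℤ :=
  Finset.Icc (-(lenD L₁ L₂ o false p q : ℤ)) (lenD L₁ L₂ o true p q : ℤ)

/-- the homomorphism of the graph map of the class of `(p, q)` with the coefficient `φ ⊗ v` -/
noncomputable def gm (o : Bool) (p q : ℤ) (φ : V₁ →ₗ[k] k) (v : V₂) :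
    (w₁.ME l₁ T₁ h₁).C →ₗ[k] (w₂.ME l₂ T₂ h₂).C :=
  ∑ i ∈ clI w₁.L w₂.L o p q, (φ ∘ₗ xiE h₁ (p + i)).smulRight (ioE h₂ (stn o i q) v)

/-- all nonzero kernel entries belong to finite classes -/
def FinK (f : (w₁.ME l₁ T₁ h₁).C →ₗ[k] (w₂.ME l₂ T₂ h₂).C) : Prop :=
  ∀ o p q, Mt w₁.L w₂.L o p q → kr h₁ h₂ f p q ≠ 0 → FinCl w₁.L w₂.L o p q

end kr

section mp
variable {c : Str S} {l : ℕ} {V₁ V₂ : Type} [AddCommGroup V₁] [Module k V₁] [AddCommGroup V₂] [Module k V₂]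
  {T₁ : V₁ ≃ₗ[k] V₁} {T₂ : V₂ ≃ₗ[k] V₂} (h₁ : c.PerOK l T₁) (h₂ : c.PerOK l T₂)

/-- the homomorphism induced by a linear map between the coefficient spaces -/
noncomputable def mpE (φ : V₁ →ₗ[k] V₂) (hφ : ∀ v, φ (T₁ v) = T₂ (φ v)) :
    (c.ME l T₁ h₁).C →ₗ[k] (c.ME l T₂ h₂).C where
  toFun m := toME h₂ ⟨fun p => φ (cfE h₁ m p), fun p hp => by
      show φ (cfE h₁ m p) = 0
      rw [cfE_zero h₁ hp, map_zero], fun p => by
      show T₂ (φ (cfE h₁ m (p + l))) = φ (cfE h₁ m p)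
      rw [← hφ, cfE_per]⟩
  map_add' m m' := cfE_inj h₂ (by
    funext p
    show φ (cfE h₁ (m + m') p) = φ (cfE h₁ m p) + φ (cfE h₁ m' p)
    rw [map_add, Pi.add_apply, map_add])
  map_smul' r m := cfE_inj h₂ (by
    funext p
    show φ (cfE h₁ (r • m) p) = r • φ (cfE h₁ m p)
    rw [map_smul, Pi.smul_apply, map_smul])

theorem cfE_mpE (φ : V₁ →ₗ[k] V₂) (hφ : ∀ v, φ (T₁ v) = T₂ (φ v)) (m : (c.ME l T₁ h₁).C) (p : ℤ) :
    cfE h₂ (mpE h₁ h₂ φ hφ m) p = φ (cfE h₁ m p) := rfl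

end mp

/-- the coefficient of `X^t` in the Laurent polynomial of a pair of graph maps `X → c → Y` -/
noncomputable def cof (X Y : Blk S k) (a : X.M.C) (b : Dual k Y.M.C) (c : Str S) (l : ℕ)
    (o : Bool) (p q : ℤ) (o' : Bool) (q' r : ℤ) (φ : (Fin X.n → k) →ₗ[k] k) (y : Fin Y.n → k) (t : ℤ) : k :=
  ∑ i ∈ clI X.x.L c.L o p q, ∑ j ∈ clI c.L Y.x.L o' q' r,
    if stn o i q - (q' + j) = t * l then φ (X.fn a (p + i)) * Y.cf b (stn o' j r) y else 0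

/-- `r = X^N * ∑ u_t X^t` -/
def Enc (r : k[X]) (N : ℤ) (u : ℤ → k) : Prop := (∀ n : ℕ, r.coeff n = u (n - N)) ∧ ∀ t, u t ≠ 0 → -N ≤ t

theorem kill_charpoly {n : ℕ} (T : (Fin n → k) →ₗ[k] (Fin n → k)) (v : SAlg.EM T) : T.charpoly • v = 0 := by
  obtain ⟨m, rfl⟩ := (SAlg.EM.of T).surjective v
  rw [SAlg.EM.smul_of, LinearMap.aeval_self_charpoly, LinearMap.zero_apply, map_zero]

instance noeth_EM {n : ℕ} (T : (Fin n → k) →ₗ[k] (Fin n → k)) : IsNoetherian k[X] (SAlg.EM T) := by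
  have h1 : IsNoetherian k (SAlg.EM T) := inferInstanceAs (IsNoetherian k (Fin n → k))
  exact isNoetherian_of_tower k h1

/-- the part of a block pair seen by the modules `M(c, V)` -/
noncomputable def rdat (c : Str S) (l : ℕ) (X Y : Blk S k) (a : X.M.C) (b : Dual k Y.M.C) :
    SAlg.RDat.{0, 0, 0} k[X] k where
  V1 := SAlg.EM X.T.toLinearMap
  V2 := SAlg.EM Y.T.toLinearMap
  g1 := X.T.toLinearMap.charpoly
  g2 := Y.T.toLinearMap.charpoly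
  g1_ne := (LinearMap.charpoly_monic _).ne_zero
  g2_ne := (LinearMap.charpoly_monic _).ne_zero
  kill1 := kill_charpoly _
  kill2 := kill_charpoly _
  Om := {s | ∃ o p q o' q' r φ y N, Ord X.x c o p q ∧ Ord c Y.x o' q' r ∧
    Enc s N (cof X Y a b c l o p q o' q' r φ y)}
  S2 := {x | X.x = c ∧ ∃ o p r y, Ord X.x Y.x o p r ∧ x = SAlg.EM.of _ (OmV X Y a b o p r y)}
  S3 := {f | Y.x = c ∧ ∃ o p r φ, Ord X.x Y.x o p r ∧ ∀ v, f (SAlg.EM.of _ v) = OmL X Y a b o p r φ v}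
  S4 := {f | X.x = c ∧ Y.x = c ∧ ∀ θ : SAlg.EM X.T.toLinearMap →ₗ[k[X]] SAlg.EM Y.T.toLinearMap,
    f θ = ∑ p ∈ Finset.range l, Y.cf b p ((SAlg.EM.of _).symm (θ (SAlg.EM.of _ (X.fn a p))))}

end StrAlg
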