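import Pool.Agent.Lib.MP_b9fd58_lc.R.HDef

/-!
# Stream R, kernels of homomorphisms between line modules

`kr h₁ h₂ f p q v = cfE h₂ (f (ioE h₁ p v)) q` by definition. Tools: `GHom2.lean` (`ioE_ch`, `xiE_dc`, `ker_KH`,
`ChAt.map`, `ioE_add_l`, `cfE_per`, `ioE_zero`, `cfE_zero`, `ME_decomp`, `repZ_spec`), `KH.lean` (`KH.isKer0`),
`Base.lean` (`Str.Zabs`), `Reg.lean` (`cst_int`), `LB.lean` (`LB.S_zpow`).
-/

set_option autoImplicit false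

namespace StrAlg

open Module Polynomial

variable {D : Dat} {k : Type} [Field k] {S : Sides D}

section kr
variable {w₁ w₂ : Str S} {l₁ l₂ : ℕ} {V₁ V₂ : Type} [AddCommGroup V₁] [Module k V₁] [AddCommGroup V₂] [Module k V₂]
  {T₁ : V₁ ≃ₗ[k] V₁} {T₂ : V₂ ≃ₗ[k] V₂} {h₁ : w₁.PerOK l₁ T₁} {h₂ : w₂.PerOK l₂ T₂}

theorem kr_apply (f : (w₁.ME l₁ T₁ h₁).C →ₗ[k] (w₂.ME l₂ T₂ h₂).C) (p q : ℤ) (v : V₁) :
    kr h₁ h₂ f p q v = cfE h₂ (f (ioE h₁ p v)) q := rfl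

theorem kr_add (f g : (w₁.ME l₁ T₁ h₁).C →ₗ[k] (w₂.ME l₂ T₂ h₂).C) (p q : ℤ) :
    kr h₁ h₂ (f + g) p q = kr h₁ h₂ f p q + kr h₁ h₂ g p q := by
  unfold kr
  rw [LinearMap.add_comp, LinearMap.comp_add]

theorem kr_sub (f g : (w₁.ME l₁ T₁ h₁).C →ₗ[k] (w₂.ME l₂ T₂ h₂).C) (p q : ℤ) :
    kr h₁ h₂ (f - g) p q = kr h₁ h₂ f p q - kr h₁ h₂ g p q := by
  unfold kr
  rw [LinearMap.sub_comp, LinearMap.comp_sub]

theorem kr_sum {ι : Type} (s : Finset ι) (f : ι → (w₁.ME l₁ T₁ h₁).C →ₗ[k] (w₂.ME l₂ T₂ h₂).C) (p q : ℤ) :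
    kr h₁ h₂ (∑ i ∈ s, f i) p q = ∑ i ∈ s, kr h₁ h₂ (f i) p q := by
  refine LinearMap.ext fun v => ?_
  rw [kr_apply, LinearMap.sum_apply, map_sum, Finset.sum_apply, LinearMap.sum_apply]
  rfl

/-- nonzero kernel entries are at positions of the two lines -/
theorem kr_ne {f : (w₁.ME l₁ T₁ h₁).C →ₗ[k] (w₂.ME l₂ T₂ h₂).C} {p q : ℤ} (h : kr h₁ h₂ f p q ≠ 0) :
    p ∈ w₁.Z ∧ q ∈ w₂.Z := by
  constructor
  · by_contra hp
    apply h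
    unfold kr
    rw [ioE_zero h₁ hp, LinearMap.comp_zero, LinearMap.comp_zero]
  · by_contra hq
    apply h
    have h0 : xiE h₂ q = 0 := by
      by_contra hne
      exact hq (xiE_ne h₂ hne)
    unfold kr
    rw [h0, LinearMap.zero_comp]

/-- the kernel of a homomorphism is constant along common letters and zero unless the words are ordered; use
`(ker_KH (ζ := fun a => f ∘ₗ ioE h₁ a) (ξ := xiE h₂) ..).isKer0 w₁.ok w₂.ok` -/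
theorem kr_ker0 {f : (w₁.ME l₁ T₁ h₁).C →ₗ[k] (w₂.ME l₂ T₂ h₂).C}
    (hf : (w₁.ME l₁ T₁ h₁).Hom (w₂.ME l₂ T₂ h₂) f) : IsKer0 w₁.L w₂.L (kr h₁ h₂ f) := by
  have h1 := ker_KH (ζ := fun a => f ∘ₗ ioE h₁ a) (ξ := xiE h₂) (fun a v => (ioE_ch h₁ a v).map hf) (xiE_dc h₂)
    (fun a ha => w₁.Zabs a (ioE_ne h₁ (fun h0 => ha (by rw [h0, LinearMap.comp_zero]))))
    (fun b hb => w₂.Zabs b (xiE_ne h₂ hb))
  exact h1.isKer0 w₁.ok w₂.ok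

theorem kr_left (f : (w₁.ME l₁ T₁ h₁).C →ₗ[k] (w₂.ME l₂ T₂ h₂).C) (p q : ℤ) :
    kr h₁ h₂ f (p + l₁) q = kr h₁ h₂ f p q ∘ₗ T₁.toLinearMap := by
  refine LinearMap.ext fun v => ?_
  rw [LinearMap.comp_apply, kr_apply, kr_apply, ioE_add_l]
  rfl

theorem kr_right (f : (w₁.ME l₁ T₁ h₁).C →ₗ[k] (w₂.ME l₂ T₂ h₂).C) (p q : ℤ) :
    T₂.toLinearMap ∘ₗ kr h₁ h₂ f p (q + l₂) = kr h₁ h₂ f p q := by
  refine LinearMap.ext fun v => ?_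
  exact cfE_per h₂ _ q

theorem kr_left_mul (f : (w₁.ME l₁ T₁ h₁).C →ₗ[k] (w₂.ME l₂ T₂ h₂).C) (p q j : ℤ) :
    kr h₁ h₂ f (p + j * l₁) q = kr h₁ h₂ f p q ∘ₗ (T₁ ^ j).toLinearMap := by
  have hn : ∀ (n : ℕ) (p : ℤ), kr h₁ h₂ f (p + n * l₁) q = kr h₁ h₂ f p q ∘ₗ (T₁ ^ n).toLinearMap := by
    intro n
    induction n with
    | zero => intro p; refine LinearMap.ext fun v => ?_; simp
    | succ n ih =>
      intro p
      have e : p + ((n + 1 : ℕ) : ℤ) * l₁ = (p + n * l₁) + l₁ := by push_cast; ring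
      rw [e, kr_left, ih]
      refine LinearMap.ext fun v => ?_
      rw [pow_succ]
      rfl
  obtain ⟨n, rfl | rfl⟩ := j.eq_nat_or_neg
  · rw [zpow_natCast]; exact hn n p
  · have h2 := hn n (p + -(n : ℤ) * l₁)
    have e : p + -(n : ℤ) * l₁ + n * l₁ = p := by ring
    rw [e] at h2
    rw [h2]
    refine LinearMap.ext fun v => ?_
    have h3 : (T₁ ^ n) ((T₁ ^ (-(n : ℤ))) v) = v := by
      rw [← LinearEquiv.mul_apply, ← zpow_natCast, ← zpow_add]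
      simp
    rw [LinearMap.comp_apply, LinearMap.comp_apply]
    show _ = (kr h₁ h₂ f (p + -(n : ℤ) * l₁) q) ((T₁ ^ n) ((T₁ ^ (-(n : ℤ))) v))
    rw [h3]

theorem kr_right_mul (f : (w₁.ME l₁ T₁ h₁).C →ₗ[k] (w₂.ME l₂ T₂ h₂).C) (p q j : ℤ) :
    (T₂ ^ j).toLinearMap ∘ₗ kr h₁ h₂ f p (q + j * l₂) = kr h₁ h₂ f p q := by
  refine LinearMap.ext fun v => ?_
  exact (w₂.LB l₂ T₂ h₂).S_zpow (cfE_mem h₂ _) q j

theorem kr_shift_zero (f : (w₁.ME l₁ T₁ h₁).C →ₗ[k] (w₂.ME l₂ T₂ h₂).C) (p q j j' : ℤ) :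
    kr h₁ h₂ f (p + j * l₁) (q + j' * l₂) = 0 ↔ kr h₁ h₂ f p q = 0 := by
  have h3 : (T₂ ^ j').toLinearMap ∘ₗ kr h₁ h₂ f (p + j * l₁) (q + j' * l₂) =
      kr h₁ h₂ f p q ∘ₗ (T₁ ^ j).toLinearMap := by
    rw [kr_right_mul, kr_left_mul]
  constructor
  · intro h
    rw [h, LinearMap.comp_zero] at h3
    refine LinearMap.ext fun v => ?_
    have h4 := LinearMap.congr_fun h3 ((T₁ ^ j).symm v)
    rw [LinearMap.comp_apply] at h4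
    have h5 : (T₁ ^ j).toLinearMap ((T₁ ^ j).symm v) = v := (T₁ ^ j).apply_symm_apply v
    rw [h5] at h4
    exact h4.symm
  · intro h
    rw [h, LinearMap.zero_comp] at h3
    refine LinearMap.ext fun v => ?_
    have h4 := LinearMap.congr_fun h3 v
    rw [LinearMap.comp_apply] at h4
    have h5 : (T₂ ^ j') ((kr h₁ h₂ f (p + j * l₁) (q + j' * l₂)) v) = (T₂ ^ j') 0 := by
      rw [map_zero]; exact h4
    exact (T₂ ^ j').injective h5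

/-- zero on representatives implies zero; `cst_int` gives `cst (a : ZMod l) = a + j * l` -/
theorem kr_zero_of_reps (f : (w₁.ME l₁ T₁ h₁).C →ₗ[k] (w₂.ME l₂ T₂ h₂).C)
    (h : ∀ (x : ZMod l₁) (y : ZMod l₂), kr h₁ h₂ f (cst x) (cst y) = 0) (p q : ℤ) : kr h₁ h₂ f p q = 0 := by
  obtain ⟨j, hj⟩ := cst_int (l := l₁) p
  obtain ⟨j', hj'⟩ := cst_int (l := l₂) q
  have h1 := h (p : ZMod l₁) (q : ZMod l₂)
  rw [hj, hj'] at h1
  exact (kr_shift_zero f p q j j').1 h1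

/-- linear maps with the same kernel are equal; by `ME_decomp` -/
theorem kr_ext (hZ₁ : l₁ = 0 → w₁.Z.Finite) {f g : (w₁.ME l₁ T₁ h₁).C →ₗ[k] (w₂.ME l₂ T₂ h₂).C}
    (h : ∀ p q, kr h₁ h₂ f p q = kr h₁ h₂ g p q) : f = g := by
  refine LinearMap.ext fun m => ?_
  apply cfE_inj h₂
  funext q
  have h1 := ME_decomp h₁ m (repZ w₁ l₁ hZ₁) (repZ_spec w₁ l₁ hZ₁)
  rw [h1, map_sum, map_sum, map_sum, map_sum, Finset.sum_apply, Finset.sum_apply]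
  refine Finset.sum_congr rfl fun x _ => ?_
  have h2 := LinearMap.congr_fun (h (cst x) q) (cfE h₁ m (cst x))
  exact h2

end kr

end StrAlg
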