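import Pool.Agent.Lib.MP_b9fd58_lc.R.Ha

/-!
# Stream R, graph maps

`gm o p q φ v` sends `m` to `∑_{i in class} φ (m (p + i)) • ι_{stn o i q} v`. Tools: `Chain.lean` (`pull`, `pull_eq`,
`pull_zero`, `pull_chain`, `Cn.mem_Icc_left`, `Cn.unique_right`), `ThA.lean` (`Cn`), `Om.lean` (`lenD_spec`,
`FinCl`), `GHom2.lean` (`chE`, `chE_apply`, `chE_hom`, `cfE_ioE`, `ioE_ch`), `LB.lean` (`LB.spr_apply`).
-/

set_option autoImplicit false

namespace StrAlg

open Module Polynomial

variable {D : Dat} {k : Type} [Field k] {S : Sides D}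

theorem hb_beq_true (o : Bool) : (true == o) = o := by cases o <;> rfl

theorem hb_beq_false (o : Bool) : (false == o) = !o := by cases o <;> rfl

theorem hb_stn_neg (o : Bool) (n q : ℤ) : stn o (-n) q = stn (!o) n q := by
  cases o
  · show q - -n = q + n
    ring
  · show q + -n = q - n
    ring

/-- the index set of a finite class -/
theorem mem_clI {L₁ L₂ : Ln (Fin D.nV) S.nx} {o : Bool} {p q : ℤ} (hf : FinCl L₁ L₂ o p q) {i : ℤ} :
    i ∈ clI L₁ L₂ o p q ↔ Cn L₁ L₂ o p q (p + i) (stn o i q) := by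
  unfold clI
  rw [Finset.mem_Icc]
  constructor
  · rintro ⟨h1, h2⟩
    rcases le_or_gt 0 i with h | h
    · obtain ⟨n, rfl⟩ := Int.eq_ofNat_of_zero_le h
      have hn : n ≤ lenD L₁ L₂ o true p q := by omega
      refine ⟨true, n, (lenD_spec (hf true)).1.mono hn, by simp, ?_⟩
      rw [hb_beq_true]
    · obtain ⟨n, hn0⟩ := Int.eq_ofNat_of_zero_le (show 0 ≤ -i by omega)
      have hi : i = -(n : ℤ) := by omega
      have hn : n ≤ lenD L₁ L₂ o false p q := by omega
      refine ⟨false, n, (lenD_spec (hf false)).1.mono hn, ?_, ?_⟩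
      · rw [hi, stn_false]; ring
      · rw [hb_beq_false, hi, hb_stn_neg]
  · rintro ⟨e, n, h1, h2, -⟩
    obtain ⟨-, g2⟩ := lenD_spec (hf e)
    have hn : n ≤ lenD L₁ L₂ o e p q := by
      by_contra hcon
      exact g2 (h1.mono (by omega))
    cases e with
    | true =>
      rw [stn_true] at h2
      omega
    | false =>
      rw [stn_false] at h2
      omega

/-- every member of the class has the form `(p + i, stn o i q)` -/
theorem Cn.exists_index {L₁ L₂ : Ln (Fin D.nV) S.nx} {o : Bool} {p q p' q' : ℤ} (h : Cn L₁ L₂ o p q p' q') :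
    ∃ i : ℤ, p' = p + i ∧ q' = stn o i q := by
  obtain ⟨e, n, -, rfl, rfl⟩ := h
  cases e with
  | true => exact ⟨n, by rw [stn_true], by rw [hb_beq_true]⟩
  | false => exact ⟨-n, by rw [stn_false]; ring, by rw [hb_beq_false, hb_stn_neg]⟩

theorem zero_mem_clI (L₁ L₂ : Ln (Fin D.nV) S.nx) (o : Bool) (p q : ℤ) : (0 : ℤ) ∈ clI L₁ L₂ o p q := by
  unfold clI
  rw [Finset.mem_Icc]
  constructor <;> omega

section gm
variable {w₁ w₂ : Str S} {l₁ l₂ : ℕ} {V₁ V₂ : Type} [AddCommGroup V₁] [Module k V₁] [AddCommGroup V₂] [Module k V₂]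
  {T₁ : V₁ ≃ₗ[k] V₁} {T₂ : V₂ ≃ₗ[k] V₂} {h₁ : w₁.PerOK l₁ T₁} {h₂ : w₂.PerOK l₂ T₂}

theorem gm_apply (o : Bool) (p q : ℤ) (φ : V₁ →ₗ[k] k) (v : V₂) (m : (w₁.ME l₁ T₁ h₁).C) :
    gm h₁ h₂ o p q φ v m = ∑ i ∈ clI w₁.L w₂.L o p q, φ (cfE h₁ m (p + i)) • ioE h₂ (stn o i q) v := by
  unfold gm
  rw [LinearMap.sum_apply]
  rfl

/-- graph maps are homomorphisms: `gm` equals `chE h₁ φ (pull w₁.L w₂.L o p q (fun q => ioE h₂ q v)) A` with
`A = Finset.Icc (p - lenD .. false ..) (p + lenD .. true ..)`, apply `chE_hom` and `pull_chain` -/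
theorem gm_hom {o : Bool} {p q : ℤ} (ho : Ord w₁ w₂ o p q) (φ : V₁ →ₗ[k] k) (v : V₂) :
    (w₁.ME l₁ T₁ h₁).Hom (w₂.ME l₂ T₂ h₂) (gm h₁ h₂ o p q φ v) := by
  obtain ⟨-, -, hm, hle, hf⟩ := ho
  have hpull : ∀ i ∈ clI w₁.L w₂.L o p q,
      pull w₁.L w₂.L o p q (fun q => ioE h₂ q v) (p + i) = ioE h₂ (stn o i q) v := fun i hi =>
    pull_eq (g := fun q => ioE h₂ q v) ((mem_clI hf).1 hi)
  have heq : gm h₁ h₂ o p q φ v = chE (N := w₂.ME l₂ T₂ h₂) h₁ φ
      (pull w₁.L w₂.L o p q (fun q => ioE h₂ q v))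
      (Finset.Icc (p - lenD w₁.L w₂.L o false p q) (p + lenD w₁.L w₂.L o true p q)) := by
    refine LinearMap.ext fun m => ?_
    rw [gm_apply, chE_apply]
    refine Finset.sum_bij (fun i _ => p + i) ?_ ?_ ?_ ?_
    · intro i hi
      unfold clI at hi
      rw [Finset.mem_Icc] at hi ⊢
      omega
    · intro i _ j _ hij
      exact add_left_cancel hij
    · intro b hb
      refine ⟨b - p, ?_, by ring⟩
      unfold clI
      rw [Finset.mem_Icc] at hb ⊢
      omega
    · intro i hi
      rw [hpull i hi]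
  rw [heq]
  refine chE_hom h₁ (fun a => pull_chain hm hle (fun a q _ => ioE_ch h₂ q v) a) ?_ φ
  intro a ha
  refine pull_zero ?_
  rintro ⟨q', hq'⟩
  exact ha (Cn.mem_Icc_left hf hq')

/-- the members of a finite class are different modulo the periods: if `i` in the class is divisible by both
periods, then `i = 0` (otherwise the letters agree periodically for ever: the class would be infinite) -/
theorem cl_distinct {o : Bool} {p q : ℤ} (h₁ : w₁.PerOK l₁ T₁) (h₂ : w₂.PerOK l₂ T₂)
    (hf : FinCl w₁.L w₂.L o p q) {i : ℤ} (hi : i ∈ clI w₁.L w₂.L o p q)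
    (hd₁ : (l₁ : ℤ) ∣ i) (hd₂ : (l₂ : ℤ) ∣ i) : i = 0 := by
  by_contra hne
  have hc := (mem_clI hf).1 hi
  obtain ⟨e, n, h1, h2, -⟩ := hc
  have hn0 : 0 < n := by
    rcases Nat.eq_zero_or_pos n with h0 | h0
    · exfalso
      rw [h0] at h2
      rw [Nat.cast_zero, stn_zero] at h2
      exact hne (by omega)
    · exact h0
  obtain ⟨k₁, hk₁⟩ := hd₁
  obtain ⟨k₂, hk₂⟩ := hd₂
  have hlk : ∀ m : ℕ, Lk w₁.L w₂.L o e (stn e m p) (stn (e == o) m q) := by
    intro m
    induction m using Nat.strong_induction_on with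
    | _ m ih =>
      rcases lt_or_ge m n with hm | hm
      · exact h1.lk m hm
      · have h3 := ih (m - n) (by omega)
        have e1 : stn e (m : ℤ) p = stn e ((m - n : ℕ) : ℤ) p + k₁ * l₁ := by
          have e3 : k₁ * (l₁ : ℤ) = i := by rw [hk₁]; ring
          rw [e3, Nat.cast_sub hm]
          cases e with
          | true => rw [stn_true] at h2 ⊢; rw [stn_true]; omega
          | false => rw [stn_false] at h2 ⊢; rw [stn_false]; omega
        have e2 : ∃ c : ℤ, stn (e == o) (m : ℤ) q = stn (e == o) ((m - n : ℕ) : ℤ) q + c * l₂ := by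
          have e3 : k₂ * (l₂ : ℤ) = i := by rw [hk₂]; ring
          refine ⟨if o then k₂ else -k₂, ?_⟩
          rw [Nat.cast_sub hm]
          cases o with
          | true =>
            rw [if_pos rfl, e3]
            cases e with
            | true =>
              have : (true == true) = true := rfl
              rw [this, stn_true, stn_true]
              rw [stn_true] at h2
              omega
            | false =>
              have : (false == true) = false := rfl
              rw [this, stn_false, stn_false]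
              rw [stn_false] at h2
              omega
          | false =>
            have e4 : (if (false : Bool) then k₂ else -k₂) = -k₂ := rfl
            rw [e4, neg_mul, e3]
            cases e with
            | true =>
              have : (true == false) = false := rfl
              rw [this, stn_false, stn_false]
              rw [stn_true] at h2
              omega
            | false =>
              have : (false == false) = true := rfl
              rw [this, stn_true, stn_true]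
              rw [stn_false] at h2
              omega
        obtain ⟨c, e2⟩ := e2
        unfold Lk at h3 ⊢
        rw [e1, e2, (h₁.per.lt e).mul, (h₂.per.lt (e == o)).mul]
        exact h3
  obtain ⟨m, hm⟩ := hf e
  exact hm (AgD_of_lk fun j _ => hlk j)

theorem hb_dvd {w : Str S} {l : ℕ} {V : Type} [AddCommGroup V] [Module k V] {T : V ≃ₗ[k] V}
    (h : w.PerOK l T) {a b : ℤ} {u : V} (hne : cfE h (ioE h a u) b ≠ 0) : (l : ℤ) ∣ a - b := by
  by_contra hd
  apply hne
  by_cases ha : a ∈ w.Z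
  · rw [cfE_ioE h ha]
    exact LB.spr_of_not_dvd (w.LB l T h) u hd
  · rw [ioE_zero h ha, LinearMap.zero_apply, map_zero]
    rfl

/-- only the term `i = 0` contributes -/
theorem gm_kr_self {o : Bool} {p q : ℤ} (ho : Ord w₁ w₂ o p q) (φ : V₁ →ₗ[k] k) (v : V₂) :
    kr h₁ h₂ (gm h₁ h₂ o p q φ v) p q = φ.smulRight v := by
  obtain ⟨hp, hq, hm, hle, hf⟩ := ho
  refine LinearMap.ext fun u => ?_
  rw [kr_apply, gm_apply, map_sum, Finset.sum_apply, Finset.sum_eq_single (0 : ℤ)]
  · rw [add_zero, stn_zero, map_smul, Pi.smul_apply, cfE_ioE h₁ hp, cfE_ioE h₂ hq]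
    have e1 : (w₁.LB l₁ T₁ h₁).spr p u p = u := (w₁.LB l₁ T₁ h₁).spr_self p u
    have e2 : (w₂.LB l₂ T₂ h₂).spr q v q = v := (w₂.LB l₂ T₂ h₂).spr_self q v
    rw [e1, e2]
    rfl
  · intro i hi hne
    rw [map_smul, Pi.smul_apply]
    by_contra hcon
    have e1 : cfE h₁ (ioE h₁ p u) (p + i) ≠ 0 := by
      intro h0
      rw [h0, map_zero, zero_smul] at hcon
      exact hcon rfl
    have e2 : cfE h₂ (ioE h₂ (stn o i q) v) q ≠ 0 := by
      intro h0
      rw [h0, smul_zero] at hcon
      exact hcon rfl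
    have d1 := hb_dvd h₁ e1
    have d2 := hb_dvd h₂ e2
    apply hne
    refine cl_distinct h₁ h₂ hf hi ?_ ?_
    · have e3 : p - (p + i) = -i := by ring
      rw [e3, dvd_neg] at d1
      exact d1
    · cases o with
      | true =>
        have e3 : stn true i q - q = i := by rw [stn_true]; ring
        rw [e3] at d2
        exact d2
      | false =>
        have e3 : stn false i q - q = -i := by rw [stn_false]; ring
        rw [e3, dvd_neg] at d2
        exact d2
  · intro h0
    exact absurd (zero_mem_clI _ _ _ _ _) h0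

theorem gm_kr_ne {o : Bool} {p q : ℤ} {φ : V₁ →ₗ[k] k} {v : V₂} {p' q' : ℤ}
    (h : kr h₁ h₂ (gm h₁ h₂ o p q φ v) p' q' ≠ 0) :
    ∃ i ∈ clI w₁.L w₂.L o p q, ∃ j j' : ℤ, p' = p + i + j * l₁ ∧ q' = stn o i q + j' * l₂ := by
  obtain ⟨u, hu⟩ : ∃ u, kr h₁ h₂ (gm h₁ h₂ o p q φ v) p' q' u ≠ 0 := by
    by_contra hcon
    push Not at hcon
    exact h (LinearMap.ext fun u => hcon u)
  rw [kr_apply, gm_apply, map_sum, Finset.sum_apply] at hu
  obtain ⟨i, hi, hne⟩ := Finset.exists_ne_zero_of_sum_ne_zero hu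
  rw [map_smul, Pi.smul_apply] at hne
  have e1 : cfE h₁ (ioE h₁ p' u) (p + i) ≠ 0 := by
    intro h0
    rw [h0, map_zero, zero_smul] at hne
    exact hne rfl
  have e2 : cfE h₂ (ioE h₂ (stn o i q) v) q' ≠ 0 := by
    intro h0
    rw [h0, smul_zero] at hne
    exact hne rfl
  obtain ⟨c, hc⟩ := hb_dvd h₁ e1
  obtain ⟨c', hc'⟩ := hb_dvd h₂ e2
  refine ⟨i, hi, c, -c', ?_, ?_⟩
  · linarith
  · linarith

end gm

end StrAlg
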