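import Pool.Agent.Lib.MP_b9fd58_lc.R.Hb

/-!
# Stream R, homomorphisms with finite classes are sums of graph maps

Proof of `gm_span`: induction on the number of pairs of representatives `(x, y) ∈ repZ w₁ l₁ × repZ w₂ l₂` with
`kr f (cst x) (cst y) ≠ 0`. If there is none, then `kr f = 0` (`kr_zero_of_reps`; outside `repZ` use `kr_ne`), `f = 0` by
`kr_ext`. Otherwise choose such a pair `(p, q)`; let `o` be the orientation (`Mt` from `IsKer0.vx`); the class is finite by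
`FinK`, `LeD` by `IsKer0.le`. Write `kr f p q = ∑ φ_s ⊗ v_s` (`rank_one_sum`) and `f₁ = ∑ gm o p q φ_s v_s`. Then `f - f₁`
is a homomorphism with `kr (f - f₁) p q = 0`, hence zero on the class of `(p, q)` (`IsKer0.walk`) and on its translates
(`kr_shift_zero`), and outside of these it is equal to `kr f` (`gm_kr_ne`). So `FinK (f - f₁)` and the number is smaller.
-/

set_option autoImplicit false

namespace StrAlg

open Module Polynomial

variable {D : Dat} {k : Type} [Field k] {S : Sides D}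

theorem rank_one_sum {V₁ V₂ : Type} [AddCommGroup V₁] [Module k V₁] [AddCommGroup V₂] [Module k V₂]
    (hV : FiniteDimensional k V₁ ∨ FiniteDimensional k V₂) (κ : V₁ →ₗ[k] V₂) :
    ∃ (n : ℕ) (φ : Fin n → V₁ →ₗ[k] k) (v : Fin n → V₂), κ = ∑ s, (φ s).smulRight (v s) := by
  rcases hV with hV | hV
  · let b := Module.finBasis k V₁
    refine ⟨Module.finrank k V₁, fun s => b.coord s, fun s => κ (b s), LinearMap.ext fun x => ?_⟩
    rw [LinearMap.sum_apply]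
    simp only [LinearMap.smulRight_apply, Basis.coord_apply]
    conv_lhs => rw [← b.sum_repr x]
    rw [map_sum]
    exact Finset.sum_congr rfl fun s _ => by rw [map_smul]
  · let b := Module.finBasis k V₂
    refine ⟨Module.finrank k V₂, fun s => b.coord s ∘ₗ κ, fun s => b s, LinearMap.ext fun x => ?_⟩
    rw [LinearMap.sum_apply]
    simp only [LinearMap.smulRight_apply, LinearMap.comp_apply, Basis.coord_apply]
    exact (b.sum_repr (κ x)).symm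

theorem hc_cn {E : Type} [Zero E] {X Y : Ln (Fin D.nV) S.nx} {F : ℤ → ℤ → E} (hF : IsKer0 X Y F) {o : Bool}
    {a b a' b' : ℤ} (hm : Mt X Y o a b) (h : Cn X Y o a b a' b') : F a' b' = F a b := by
  obtain ⟨e, n, h1, h2, h3⟩ := h
  rw [h2, h3]
  exact hF.walk hm h1

theorem hc_hom_sub {M N : Md D k} {f g : M.C →ₗ[k] N.C} (hf : M.Hom N f) (hg : M.Hom N g) :
    M.Hom N (f - g) := by
  intro x m
  rw [LinearMap.sub_apply, LinearMap.sub_apply, map_sub, hf x m, hg x m]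

theorem hc_hom_sum {M N : Md D k} {n : ℕ} {f : Fin n → M.C →ₗ[k] N.C} (hf : ∀ i, M.Hom N (f i)) :
    M.Hom N (∑ i, f i) := by
  intro x m
  rw [LinearMap.sum_apply, LinearMap.sum_apply, map_sum]
  exact Finset.sum_congr rfl fun i _ => hf i x m

section hc
variable {w₁ w₂ : Str S} {l₁ l₂ : ℕ} {V₁ V₂ : Type} [AddCommGroup V₁] [Module k V₁] [AddCommGroup V₂] [Module k V₂]
  {T₁ : V₁ ≃ₗ[k] V₁} {T₂ : V₂ ≃ₗ[k] V₂} {h₁ : w₁.PerOK l₁ T₁} {h₂ : w₂.PerOK l₂ T₂}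

open Classical in
/-- the pairs of representatives with nonzero kernel entry -/
noncomputable def hc_set (hZ₁ : l₁ = 0 → w₁.Z.Finite) (hZ₂ : l₂ = 0 → w₂.Z.Finite)
    (f : (w₁.ME l₁ T₁ h₁).C →ₗ[k] (w₂.ME l₂ T₂ h₂).C) : Finset (ZMod l₁ × ZMod l₂) :=
  (repZ w₁ l₁ hZ₁ ×ˢ repZ w₂ l₂ hZ₂).filter (fun z => kr h₁ h₂ f (cst z.1) (cst z.2) ≠ 0)

theorem hc_mem {hZ₁ : l₁ = 0 → w₁.Z.Finite} {hZ₂ : l₂ = 0 → w₂.Z.Finite}
    {f : (w₁.ME l₁ T₁ h₁).C →ₗ[k] (w₂.ME l₂ T₂ h₂).C} {z : ZMod l₁ × ZMod l₂} :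
    z ∈ hc_set (h₁ := h₁) (h₂ := h₂) hZ₁ hZ₂ f ↔ kr h₁ h₂ f (cst z.1) (cst z.2) ≠ 0 := by
  classical
  unfold hc_set
  rw [Finset.mem_filter, Finset.mem_product]
  constructor
  · exact fun h => h.2
  · intro h
    obtain ⟨hp, hq⟩ := kr_ne h
    refine ⟨⟨?_, ?_⟩, h⟩
    · by_contra hcon
      exact repZ_spec w₁ l₁ hZ₁ z.1 hcon hp
    · by_contra hcon
      exact repZ_spec w₂ l₂ hZ₂ z.2 hcon hq

theorem hc_main (hZ₁ : l₁ = 0 → w₁.Z.Finite) (hZ₂ : l₂ = 0 → w₂.Z.Finite)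
    (hV : FiniteDimensional k V₁ ∨ FiniteDimensional k V₂) (n : ℕ) :
    ∀ (f : (w₁.ME l₁ T₁ h₁).C →ₗ[k] (w₂.ME l₂ T₂ h₂).C), (w₁.ME l₁ T₁ h₁).Hom (w₂.ME l₂ T₂ h₂) f →
    FinK h₁ h₂ f → (hc_set (h₁ := h₁) (h₂ := h₂) hZ₁ hZ₂ f).card ≤ n →
    f ∈ Submodule.span k {g | ∃ o p q φ v, Ord w₁ w₂ o p q ∧ g = gm h₁ h₂ o p q φ v} := by
  induction n with
  | zero =>
    intro f _ _ hn
    have h0 : f = 0 := by
      apply kr_ext (h₁ := h₁) (h₂ := h₂) hZ₁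
      intro p q
      have e1 : kr h₁ h₂ f p q = 0 := by
        apply kr_zero_of_reps
        intro x y
        by_contra hcon
        have hmem : (x, y) ∈ hc_set (h₁ := h₁) (h₂ := h₂) hZ₁ hZ₂ f := hc_mem.2 hcon
        have hpos := Finset.card_pos.2 ⟨_, hmem⟩
        omega
      have e2 : kr h₁ h₂ (0 : (w₁.ME l₁ T₁ h₁).C →ₗ[k] (w₂.ME l₂ T₂ h₂).C) p q = 0 := by
        unfold kr
        rw [LinearMap.zero_comp, LinearMap.comp_zero]
      rw [e1, e2]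
    rw [h0]
    exact Submodule.zero_mem _
  | succ n ih =>
    intro f hf hF hn
    by_cases hne : (hc_set (h₁ := h₁) (h₂ := h₂) hZ₁ hZ₂ f).card ≤ n
    · exact ih f hf hF hne
    · have hpos : 0 < (hc_set (h₁ := h₁) (h₂ := h₂) hZ₁ hZ₂ f).card := by omega
      obtain ⟨z, hz⟩ := Finset.card_pos.1 hpos
      have hkr := hc_mem.1 hz
      set p : ℤ := cst z.1 with hp
      set q : ℤ := cst z.2 with hq
      have hker := kr_ker0 (h₁ := h₁) (h₂ := h₂) hf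
      have hm : Mt w₁.L w₂.L (w₁.L.r p == w₂.L.r q) p q := ⟨hker.vx p q hkr, rfl⟩
      set o : Bool := (w₁.L.r p == w₂.L.r q) with ho
      have hpq := kr_ne hkr
      have hord : Ord w₁ w₂ o p q := ⟨hpq.1, hpq.2, hm, hker.le o p q hm hkr, hF o p q hm hkr⟩
      have hfin : FinCl w₁.L w₂.L o p q := hF o p q hm hkr
      obtain ⟨s, φ, v, hs⟩ := rank_one_sum hV (kr h₁ h₂ f p q)
      set f₁ : (w₁.ME l₁ T₁ h₁).C →ₗ[k] (w₂.ME l₂ T₂ h₂).C := ∑ i, gm h₁ h₂ o p q (φ i) (v i) with hf₁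
      have hf₁hom : (w₁.ME l₁ T₁ h₁).Hom (w₂.ME l₂ T₂ h₂) f₁ :=
        hc_hom_sum fun i => gm_hom hord (φ i) (v i)
      have hsub : (w₁.ME l₁ T₁ h₁).Hom (w₂.ME l₂ T₂ h₂) (f - f₁) := hc_hom_sub hf hf₁hom
      have hz0 : kr h₁ h₂ (f - f₁) p q = 0 := by
        rw [kr_sub, hf₁, kr_sum]
        have e : ∀ i, kr h₁ h₂ (gm h₁ h₂ o p q (φ i) (v i)) p q = (φ i).smulRight (v i) :=
          fun i => gm_kr_self hord (φ i) (v i)
        rw [Finset.sum_congr rfl fun i _ => e i, ← hs, sub_self]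
      have hker' := kr_ker0 (h₁ := h₁) (h₂ := h₂) hsub
      have key : ∀ p' q', kr h₁ h₂ (f - f₁) p' q' ≠ 0 → kr h₁ h₂ f p' q' ≠ 0 := by
        intro p' q' hne' h0
        have h1 : kr h₁ h₂ f₁ p' q' ≠ 0 := by
          intro h1
          apply hne'
          rw [kr_sub, h0, h1, sub_zero]
        rw [hf₁, kr_sum] at h1
        obtain ⟨i, -, hi⟩ := Finset.exists_ne_zero_of_sum_ne_zero h1
        obtain ⟨t, ht, j, j', e1, e2⟩ := gm_kr_ne hi
        have hcn := (mem_clI hfin).1 ht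
        have h3 : kr h₁ h₂ (f - f₁) (p + t) (stn o t q) = 0 := by
          rw [hc_cn hker' hm hcn]
          exact hz0
        apply hne'
        rw [e1, e2]
        exact (kr_shift_zero (h₁ := h₁) (h₂ := h₂) (f - f₁) (p + t) (stn o t q) j j').2 h3
      have hF' : FinK h₁ h₂ (f - f₁) := fun o' p' q' hm' hne' => hF o' p' q' hm' (key p' q' hne')
      have hlt : (hc_set (h₁ := h₁) (h₂ := h₂) hZ₁ hZ₂ (f - f₁)).card <
          (hc_set (h₁ := h₁) (h₂ := h₂) hZ₁ hZ₂ f).card := by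
        apply Finset.card_lt_card
        rw [Finset.ssubset_iff_of_subset]
        · refine ⟨z, hz, fun hcon => ?_⟩
          exact hc_mem.1 hcon hz0
        · intro z' hz'
          exact hc_mem.2 (key _ _ (hc_mem.1 hz'))
      have h4 := ih (f - f₁) hsub hF' (by omega)
      have h5 : f₁ ∈ Submodule.span k {g | ∃ o p q φ v, Ord w₁ w₂ o p q ∧ g = gm h₁ h₂ o p q φ v} := by
        rw [hf₁]
        refine Submodule.sum_mem _ fun i _ => Submodule.subset_span ?_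
        exact ⟨o, p, q, φ i, v i, hord, rfl⟩
      have h6 := Submodule.add_mem _ h4 h5
      rwa [sub_add_cancel] at h6

end hc

theorem gm_span {w₁ w₂ : Str S} {l₁ l₂ : ℕ} {V₁ V₂ : Type} [AddCommGroup V₁] [Module k V₁] [AddCommGroup V₂]
    [Module k V₂] {T₁ : V₁ ≃ₗ[k] V₁} {T₂ : V₂ ≃ₗ[k] V₂} {h₁ : w₁.PerOK l₁ T₁} {h₂ : w₂.PerOK l₂ T₂}
    (hZ₁ : l₁ = 0 → w₁.Z.Finite) (hZ₂ : l₂ = 0 → w₂.Z.Finite)
    (hV : FiniteDimensional k V₁ ∨ FiniteDimensional k V₂)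
    {f : (w₁.ME l₁ T₁ h₁).C →ₗ[k] (w₂.ME l₂ T₂ h₂).C} (hf : (w₁.ME l₁ T₁ h₁).Hom (w₂.ME l₂ T₂ h₂) f)
    (hF : FinK h₁ h₂ f) :
    f ∈ Submodule.span k {g | ∃ o p q φ v, Ord w₁ w₂ o p q ∧ g = gm h₁ h₂ o p q φ v} :=
  hc_main hZ₁ hZ₂ hV _ f hf hF le_rfl

end StrAlg
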