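import Pool.Agent.Lib.MP_b9fd58_lc.R.Ha

/-!
# Stream R, infinite classes

If the class of `(p, q)` is infinite in one direction, then both lines are bi-infinite periodic (a finite line has the
letter `1` = END in every direction), the letters agree in this direction for ever, hence by periodicity (common period
`l₁ * l₂`) in both directions for all positions.
-/

set_option autoImplicit false

namespace StrAlg

open Module Polynomial

variable {D : Dat} {k : Type} [Field k] {S : Sides D}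

theorem al_sym {x y : Str S} {p q : ℤ} (h : Al x y p q) : Al y x q p := ⟨h.1.symm, fun s => (h.2 s).symm⟩

/-- positions with equal words in all directions are aligned -/
theorem al_of_wdd {w₁ w₂ : Str S} {o : Bool} {p q : ℤ} (hm : Mt w₁.L w₂.L o p q)
    (h : ∀ e, w₁.L.wdd e p = w₂.L.wdd (e == o) q) : Al w₁ w₂ p q := by
  refine ⟨hm.1, fun s => ?_⟩
  have h1 := h (s == w₁.L.r p)
  unfold Ln.wd
  rw [h1, ← hm.2]
  congr 1
  cases s <;> cases w₁.L.r p <;> cases w₂.L.r q <;> rfl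

/-- a line of finite support reads END in both directions -/
theorem Str.exists_end {w : Str S} (hw : w.Z.Finite) {p : ℤ} (hp : p ∈ w.Z) (e : Bool) :
    ∃ n : ℕ, w.L.lt e (stn e n p) = 1 := by
  by_contra hcon
  push Not at hcon
  have h1 : ∀ n : ℕ, stn e (n : ℤ) p ∈ w.Z := fun n =>
    Ln.Reach.trans hp (Ln.Reach.of_lt (fun j _ => hcon j))
  have h2 : Function.Injective (fun n : ℕ => stn e (n : ℤ) p) := by
    intro a b hab
    simp only at hab
    cases e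
    · simp only [stn_false] at hab
      omega
    · simp only [stn_true] at hab
      omega
  exact Set.infinite_of_injective_forall_mem h2 h1 hw

theorem hd1_back {L : Ln (Fin D.nV) S.nx} {l : ℕ} (h : L.IsPer l) (e : Bool) (p : ℤ) (n j : ℕ)
    (hj : n + 1 ≤ j * l) : L.wdd (!e) p n = Fin.rev (L.wdd e p (j * l - (n + 1))) := by
  rw [Ln.wdd_apply, Ln.wdd_apply]
  have e1 : stn (!e) (n : ℤ) p = st e (stn (!e) ((n + 1 : ℕ) : ℤ) p) := by
    cases e <;> simp <;> ring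
  rw [e1, Ln.lt_back]
  congr 1
  have e2 : stn e (((j * l - (n + 1) : ℕ)) : ℤ) p =
      stn (!e) ((n + 1 : ℕ) : ℤ) p + (if e then (j : ℤ) else -(j : ℤ)) * (l : ℤ) := by
    rw [Nat.cast_sub hj]
    cases e <;> simp <;> ring
  rw [e2, (h.lt e).mul]

theorem hd1_mul {L : Ln (Fin D.nV) S.nx} {l : ℕ} (h : L.IsPer l) (m : ℕ) : L.IsPer (l * m) := by
  have key : ∀ {β : Type} (P : ℤ → β), Per l P → Per (l * m) P := by
    intro β P hP a
    have := hP.mul a m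
    rw [← this]
    congr 1
    push_cast
    ring
  exact ⟨key _ h.lam, key _ h.v, key _ h.r⟩

section al
variable {w₁ w₂ : Str S} {l₁ l₂ : ℕ} {V₁ V₂ : Type} [AddCommGroup V₁] [Module k V₁] [AddCommGroup V₂] [Module k V₂]
  {T₁ : V₁ ≃ₗ[k] V₁} {T₂ : V₂ ≃ₗ[k] V₂}

theorem inf_align (h₁ : w₁.PerOK l₁ T₁) (h₂ : w₂.PerOK l₂ T₂) (hZ₁ : l₁ = 0 → w₁.Z.Finite)
    (hZ₂ : l₂ = 0 → w₂.Z.Finite) {o : Bool} {p q : ℤ} (hp : p ∈ w₁.Z) (hq : q ∈ w₂.Z)
    (hf : ¬ FinCl w₁.L w₂.L o p q) :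
    0 < l₁ ∧ 0 < l₂ ∧ ∀ e, w₁.L.wdd e p = w₂.L.wdd (e == o) q := by
  unfold FinCl at hf
  push Not at hf
  obtain ⟨e, he⟩ := hf
  have hlk : ∀ n : ℕ, Lk w₁.L w₂.L o e (stn e n p) (stn (e == o) n q) :=
    fun n => (he (n + 1)).lk n (Nat.lt_succ_self n)
  have hl₁ : 0 < l₁ := by
    rcases Nat.eq_zero_or_pos l₁ with h0 | h0
    · obtain ⟨n, hn⟩ := Str.exists_end (hZ₁ h0) hp e
      exact absurd hn (hlk n).2
    · exact h0
  have hl₂ : 0 < l₂ := by
    rcases Nat.eq_zero_or_pos l₂ with h0 | h0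
    · obtain ⟨n, hn⟩ := Str.exists_end (hZ₂ h0) hq (e == o)
      exact absurd hn ((hlk n).1 ▸ (hlk n).2)
    · exact h0
  have hdir : w₁.L.wdd e p = w₂.L.wdd (e == o) q := by
    funext n
    rw [Ln.wdd_apply, Ln.wdd_apply]
    exact (hlk n).1
  have i1 : w₁.L.IsPer (l₁ * l₂) := hd1_mul h₁.per l₂
  have i2 : w₂.L.IsPer (l₁ * l₂) := by
    rw [Nat.mul_comm]
    exact hd1_mul h₂.per l₁
  have hpos : 0 < l₁ * l₂ := Nat.mul_pos hl₁ hl₂
  refine ⟨hl₁, hl₂, fun e' => ?_⟩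
  by_cases hee : e' = e
  · subst hee
    exact hdir
  · have : e' = !e := by cases e <;> cases e' <;> simp_all
    subst this
    rw [beq_not]
    funext n
    have hj : n + 1 ≤ (n + 1) * (l₁ * l₂) := Nat.le_mul_of_pos_right _ hpos
    rw [hd1_back i1 e p n (n + 1) hj, hd1_back i2 (e == o) q n (n + 1) hj, hdir]

theorem finK_of_not_al {h₁ : w₁.PerOK l₁ T₁} {h₂ : w₂.PerOK l₂ T₂} (hZ₁ : l₁ = 0 → w₁.Z.Finite)
    (hZ₂ : l₂ = 0 → w₂.Z.Finite) (hna : ∀ p ∈ w₁.Z, ∀ q ∈ w₂.Z, ¬ Al w₁ w₂ p q)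
    (f : (w₁.ME l₁ T₁ h₁).C →ₗ[k] (w₂.ME l₂ T₂ h₂).C) : FinK h₁ h₂ f := by
  intro o p q hm hne
  by_contra hcon
  obtain ⟨hp, hq⟩ := kr_ne hne
  have h3 := inf_align h₁ h₂ hZ₁ hZ₂ hp hq hcon
  exact hna p hp q hq (al_of_wdd hm h3.2.2)

end al

end StrAlg
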