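import Pool.Agent.Lib.MP_b9fd58_lc.R.Hd1

/-!
# Stream R, the infinite part of a homomorphism between band modules

Tools: `GAsym.lean` (`Str.same_of_eq`, `Str.per_of_eq`), `Hd1.lean` (`inf_align`), `Ha.lean`, `KH.lean` (`IsKer0.walk`).
Proof of `kr_zero_comm`: the letters of `c` agree with themselves for ever, so `kr f l l = kr f 0 0` (`IsKer0.walk` with
`o = true`); by `kr_left` and `kr_right` this is the claim.
-/

set_option autoImplicit false

namespace StrAlg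

open Module Polynomial

variable {D : Dat} {k : Type} [Field k] {S : Sides D}

/-- the minimal period divides all periods -/
theorem Str.MinPer.dvd {c : Str S} {l : ℕ} (hl : c.MinPer l) {d : ℕ} (hd : c.Per d) : l ∣ d := by
  obtain ⟨hl0, hlp, hmin⟩ := hl
  by_contra hcon
  have h0 : 0 < d % l := Nat.pos_of_ne_zero (fun h => hcon (Nat.dvd_of_mod_eq_zero h))
  have e : ∀ p : ℤ, p + (d : ℤ) = (p + ((d % l : ℕ) : ℤ)) + ((d / l : ℕ) : ℤ) * (l : ℤ) := by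
    intro p
    have h1 : d = d % l + d / l * l := (Nat.mod_add_div' d l).symm
    have h2 : (d : ℤ) = ((d % l : ℕ) : ℤ) + ((d / l : ℕ) : ℤ) * (l : ℤ) := by exact_mod_cast h1
    linarith
  have key : ∀ {β : Type} {P : ℤ → β}, StrAlg.Per l P → StrAlg.Per d P → StrAlg.Per (d % l) P := by
    intro β P h1 h2 a
    have h3 := h2 a
    rw [e a, h1.mul] at h3
    exact h3
  have h4 : c.Per (d % l) := ⟨⟨key hlp.1.lam hd.1.lam, key hlp.1.v hd.1.v, key hlp.1.r hd.1.r⟩, hd.2⟩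
  have h5 := hmin _ h0 h4
  have h6 := Nat.mod_lt d hl0
  omega

section split
variable {c : Str S} {l : ℕ} {V₁ V₂ : Type} [AddCommGroup V₁] [Module k V₁] [AddCommGroup V₂] [Module k V₂]
  {T₁ : V₁ ≃ₗ[k] V₁} {T₂ : V₂ ≃ₗ[k] V₂} {h₁ : c.PerOK l T₁} {h₂ : c.PerOK l T₂}

theorem mpE_hom (φ : V₁ →ₗ[k] V₂) (hφ : ∀ v, φ (T₁ v) = T₂ (φ v)) :
    (c.ME l T₁ h₁).Hom (c.ME l T₂ h₂) (mpE h₁ h₂ φ hφ) := by
  intro g m
  apply cfE_inj
  rw [cfE_op]
  funext p
  rw [cfE_mpE, cfE_op]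
  cases g with
  | inl i =>
    show φ (if c.L.v p = i then cfE h₁ m p else 0) =
      if c.L.v p = i then cfE h₂ (mpE h₁ h₂ φ hφ m) p else 0
    rw [cfE_mpE]
    split_ifs
    · rfl
    · exact map_zero φ
  | inr α =>
    show φ (∑ e : Bool, if c.L.lt e p = 0 ∧ S.ends.inA (c.L.v p) (c.L.sd e p) = some α then
        cfE h₁ m (st e p) else 0) =
      ∑ e : Bool, if c.L.lt e p = 0 ∧ S.ends.inA (c.L.v p) (c.L.sd e p) = some α then
        cfE h₂ (mpE h₁ h₂ φ hφ m) (st e p) else 0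
    rw [map_sum]
    refine Finset.sum_congr rfl (fun e _ => ?_)
    rw [cfE_mpE]
    split_ifs
    · rfl
    · exact map_zero φ

/-- the kernel of `mpE` at `(0, q)` -/
theorem kr_mpE_zero (φ : V₁ →ₗ[k] V₂) (hφ : ∀ v, φ (T₁ v) = T₂ (φ v)) (hl : 0 < l) :
    kr h₁ h₂ (mpE h₁ h₂ φ hφ) 0 0 = φ := by
  refine LinearMap.ext fun v => ?_
  rw [kr_apply, cfE_mpE, cfE_ioE h₁ c.zero_mem]
  exact congrArg φ ((c.LB l T₁ h₁).spr_self 0 v)

theorem hd2_agd (hl : c.MinPer l) (p : ℤ) (e : Bool) (n : ℕ) : AgD c.L c.L true e p p n := by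
  have h1 : ∀ e q, c.L.lt e q ≠ 1 := by
    intro e q
    rw [Ln.lt_ne_one_iff]
    split_ifs
    · exact hl.2.1.2 q
    · exact hl.2.1.2 (q - 1)
  intro i _
  rw [beq_true']
  exact ⟨rfl, by rw [Ln.wdd_apply]; exact h1 _ _⟩

theorem hd2_mt (p : ℤ) : Mt c.L c.L true p p := ⟨rfl, by simp⟩

/-- the kernel is constant along the diagonal -/
theorem hd2_diag (hl : c.MinPer l) {f : (c.ME l T₁ h₁).C →ₗ[k] (c.ME l T₂ h₂).C}
    (hf : (c.ME l T₁ h₁).Hom (c.ME l T₂ h₂) f) (p : ℤ) :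
    kr h₁ h₂ f p p = kr h₁ h₂ f 0 0 := by
  have h0 := kr_ker0 hf
  rcases le_total 0 p with h | h
  · have h2 := h0.walk (hd2_mt (c := c) 0) (hd2_agd hl 0 true p.toNat)
    rw [beq_true', stn_true] at h2
    have e : (0 : ℤ) + (p.toNat : ℤ) = p := by omega
    rw [e] at h2
    exact h2
  · have h2 := h0.walk (hd2_mt (c := c) 0) (hd2_agd hl 0 false (-p).toNat)
    rw [beq_true', stn_false] at h2
    have e : (0 : ℤ) - ((-p).toNat : ℤ) = p := by omega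
    rw [e] at h2
    exact h2

/-- the kernel of a homomorphism at `(0, 0)` commutes with the automorphisms (it is constant along the diagonal) -/
theorem kr_zero_comm (hl : c.MinPer l) {f : (c.ME l T₁ h₁).C →ₗ[k] (c.ME l T₂ h₂).C}
    (hf : (c.ME l T₁ h₁).Hom (c.ME l T₂ h₂) f) (v : V₁) :
    kr h₁ h₂ f 0 0 (T₁ v) = T₂ (kr h₁ h₂ f 0 0 v) := by
  have e1 := kr_left f (h₁ := h₁) (h₂ := h₂) 0 (0 + (l : ℤ))
  rw [hd2_diag hl hf] at e1
  have e2 := kr_right f (h₁ := h₁) (h₂ := h₂) 0 0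
  have e3 := LinearMap.congr_fun e1 v
  have e4 := LinearMap.congr_fun e2 (T₁ v)
  rw [← e4, e3]
  rfl

/-- the infinite part of a homomorphism is induced by its kernel at `(0, 0)`: if the class of `(p, q)` is infinite, then
`o = true` and `l ∣ q - p` (`Str.same_of_eq`), and the kernel there is determined by the one at `(0, 0)` -/
theorem inf_split (hl : c.MinPer l) {f : (c.ME l T₁ h₁).C →ₗ[k] (c.ME l T₂ h₂).C}
    (hf : (c.ME l T₁ h₁).Hom (c.ME l T₂ h₂) f) :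
    ∃ (φ : V₁ →ₗ[k] V₂) (hφ : ∀ v, φ (T₁ v) = T₂ (φ v)), FinK h₁ h₂ (f - mpE h₁ h₂ φ hφ) := by
  refine ⟨kr h₁ h₂ f 0 0, kr_zero_comm hl hf, ?_⟩
  have hg : (c.ME l T₁ h₁).Hom (c.ME l T₂ h₂)
      (f - mpE h₁ h₂ (kr h₁ h₂ f 0 0) (kr_zero_comm hl hf)) := by
    intro g m
    rw [LinearMap.sub_apply, LinearMap.sub_apply, map_sub, hf g m, mpE_hom _ _ g m]
  intro o p q hm hne
  by_contra hcon
  obtain ⟨hp, hq⟩ := kr_ne hne
  have hl0 : 0 < l := hl.1
  obtain ⟨-, -, hw⟩ := inf_align h₁ h₂ (fun h => absurd h hl0.ne') (fun h => absurd h hl0.ne') hp hq hcon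
  obtain ⟨ho, hpq⟩ := Str.same_of_eq hp hq hm hw
  have hdvd : (l : ℤ) ∣ q - p := by
    rcases hpq with h | h
    · rw [h, sub_self]; exact dvd_zero _
    · rw [← Int.dvd_natAbs]
      exact_mod_cast hl.dvd h
  obtain ⟨j, hj⟩ := hdvd
  apply hne
  have e1 : q = p + j * l := by linarith
  have e2 : p = p + 0 * (l : ℤ) := by ring
  rw [e1]
  conv_lhs => rw [show kr h₁ h₂ (f - mpE h₁ h₂ (kr h₁ h₂ f 0 0) (kr_zero_comm hl hf)) p (p + j * l) =
    kr h₁ h₂ (f - mpE h₁ h₂ (kr h₁ h₂ f 0 0) (kr_zero_comm hl hf)) (p + 0 * (l : ℤ)) (p + j * l) by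
      rw [← e2]]
  rw [kr_shift_zero, hd2_diag hl hg, kr_sub, kr_mpE_zero _ _ hl0, sub_self]

end split

end StrAlg
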