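import Pool.Agent.Lib.MP_b9fd58_lc.R.Hb
import Pool.Agent.Lib.MP_b9fd58_lc.R.Hd2

/-!
# Stream R, compositions and values
-/

set_option autoImplicit false

namespace StrAlg

open Module Polynomial

variable {D : Dat} {k : Type} [Field k] {S : Sides D}

section comp
variable {c w : Str S} {l l' : ℕ} {V₁ V₂ V₃ : Type} [AddCommGroup V₁] [Module k V₁] [AddCommGroup V₂] [Module k V₂]
  [AddCommGroup V₃] [Module k V₃] {T₁ : V₁ ≃ₗ[k] V₁} {T₂ : V₂ ≃ₗ[k] V₂} {T₃ : V₃ ≃ₗ[k] V₃}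

theorem gm_comp_mpE {h₁ : c.PerOK l T₁} {h₂ : c.PerOK l T₂} {h₃ : w.PerOK l' T₃} (φ : V₁ →ₗ[k] V₂)
    (hφ : ∀ v, φ (T₁ v) = T₂ (φ v)) (o : Bool) (p q : ℤ) (ψ : V₂ →ₗ[k] k) (v : V₃) :
    gm h₂ h₃ o p q ψ v ∘ₗ mpE h₁ h₂ φ hφ = gm h₁ h₃ o p q (ψ ∘ₗ φ) v := by
  refine LinearMap.ext fun m => ?_
  rw [LinearMap.comp_apply, gm_apply, gm_apply]
  refine Finset.sum_congr rfl fun i _ => ?_
  rw [cfE_mpE]
  rfl

theorem he1_zpow (φ : V₂ →ₗ[k] V₃) (hφ : ∀ v, φ (T₂ v) = T₃ (φ v)) (j : ℤ) (v : V₂) :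
    φ ((T₂ ^ j) v) = (T₃ ^ j) (φ v) := by
  have h1 : ∀ (n : ℕ) (v : V₂), φ ((T₂ ^ n) v) = (T₃ ^ n) (φ v) := by
    intro n
    induction n with
    | zero => intro v; simp
    | succ n ih =>
      intro v
      rw [pow_succ, pow_succ, LinearEquiv.mul_apply, LinearEquiv.mul_apply, ih, hφ]
  obtain ⟨n, rfl | rfl⟩ := j.eq_nat_or_neg
  · rw [zpow_natCast, zpow_natCast]
    exact h1 n v
  · rw [zpow_neg, zpow_neg, zpow_natCast, zpow_natCast]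
    have h2 := h1 n ((T₂ ^ n)⁻¹ v)
    have h3 : (T₂ ^ n) ((T₂ ^ n)⁻¹ v) = v := by
      rw [← LinearEquiv.mul_apply, mul_inv_cancel]; rfl
    rw [h3] at h2
    rw [h2, ← LinearEquiv.mul_apply, inv_mul_cancel]
    rfl

/-- `mpE φ (ι_p v) = ι_p (φ v)` -/
theorem mpE_ioE {h₂ : c.PerOK l T₂} {h₃ : c.PerOK l T₃} (φ : V₂ →ₗ[k] V₃)
    (hφ : ∀ v, φ (T₂ v) = T₃ (φ v)) (p : ℤ) (v : V₂) : mpE h₂ h₃ φ hφ (ioE h₂ p v) = ioE h₃ p (φ v) := by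
  by_cases hp : p ∈ c.Z
  · apply cfE_inj
    funext q
    rw [cfE_mpE, cfE_ioE h₂ hp, cfE_ioE h₃ hp, LB.spr_apply, LB.spr_apply]
    show φ (if (l : ℤ) ∣ (p - q) then (T₂ ^ ((p - q) / l)) v else 0) =
      if (l : ℤ) ∣ (p - q) then (T₃ ^ ((p - q) / l)) (φ v) else 0
    split_ifs
    · exact he1_zpow φ hφ _ v
    · exact map_zero _
  · rw [ioE_zero h₂ hp, ioE_zero h₃ hp, LinearMap.zero_apply, LinearMap.zero_apply, map_zero]

theorem mpE_comp_gm {h₁ : w.PerOK l' T₁} {h₂ : c.PerOK l T₂} {h₃ : c.PerOK l T₃} (φ : V₂ →ₗ[k] V₃)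
    (hφ : ∀ v, φ (T₂ v) = T₃ (φ v)) (o : Bool) (p q : ℤ) (ψ : V₁ →ₗ[k] k) (v : V₂) :
    mpE h₂ h₃ φ hφ ∘ₗ gm h₁ h₂ o p q ψ v = gm h₁ h₃ o p q ψ (φ v) := by
  refine LinearMap.ext fun m => ?_
  rw [LinearMap.comp_apply, gm_apply, gm_apply, map_sum]
  refine Finset.sum_congr rfl fun i _ => ?_
  rw [map_smul, mpE_ioE]

/-- the value of a functional on a band module; the representatives `range l` (compare `ME_decomp`) -/
theorem band_val {h₁ : c.PerOK l T₁} (hl : 0 < l) (b : (c.ME l T₁ h₁).C →ₗ[k] k) (m : (c.ME l T₁ h₁).C) :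
    b m = ∑ p ∈ Finset.range l, b (ioE h₁ p (cfE h₁ m p)) := by
  obtain ⟨n, rfl⟩ : ∃ n, l = n + 1 := ⟨l - 1, by omega⟩
  have h := ME_decomp h₁ m Finset.univ (fun x hx => absurd (Finset.mem_univ x) hx)
  conv_lhs => rw [h, map_sum]
  refine Finset.sum_nbij' (fun x : ZMod (n + 1) => x.val) (fun p : ℕ => (p : ZMod (n + 1))) ?_ ?_ ?_ ?_ ?_
  · intro x _
    exact Finset.mem_range.2 (ZMod.val_lt x)
  · intro p _
    exact Finset.mem_univ _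
  · intro x _
    exact ZMod.natCast_zmod_val x
  · intro p hp
    exact ZMod.val_cast_of_lt (Finset.mem_range.1 hp)
  · intro x _
    have : cst x = ((x.val : ℕ) : ℤ) := by
      unfold cst
      exact (ZMod.natCast_val x).symm
    rw [this]

end comp

end StrAlg
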