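import Pool.Agent.Lib.MP_b9fd58_lc.R.He1

/-!
# Stream R, values of a pair on graph maps

Tools: `gm_apply`, `Blk.fn_eq`, `Blk.iota_eq` (`Y.cf b r v = b (ioE Y.ok r v)`), `Om`, `cfE_ioE`. `clI` is the index set of
`Om`.
-/

set_option autoImplicit false

namespace StrAlg

open Module Polynomial

variable {D : Dat} {k : Type} [Field k] {S : Sides D}

section val
variable (X Y : Blk S k) (a : X.M.C) (b : Dual k Y.M.C)

theorem he2_cf (r : ℤ) (y : Fin Y.n → k) : Y.cf b r y = b (ioE Y.ok r y) := by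
  show b (Y.iota r y) = _
  rw [Blk.iota_eq]
  rfl

/-- the value of the pair on a graph map from `X` to `Y` -/
theorem val_gm (o : Bool) (p q : ℤ) (φ : (Fin X.n → k) →ₗ[k] k) (v : Fin Y.n → k) :
    b (gm X.ok Y.ok o p q φ v a) = Om X.x.L Y.x.L (X.fn a) (Y.cf b) (φ.smulRight v) o p q := by
  have h : gm X.ok Y.ok o p q φ v a =
      ∑ i ∈ clI X.x.L Y.x.L o p q, φ (cfE X.ok a (p + i)) • ioE Y.ok (stn o i q) v := gm_apply o p q φ v a
  rw [h]
  refine (map_sum b _ _).trans ?_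
  unfold Om
  refine Finset.sum_congr rfl fun i _ => ?_
  rw [LinearMap.smulRight_apply, map_smul, he2_cf, Blk.fn_eq]
  exact map_smul b _ _

theorem OmV_val (o : Bool) (p r : ℤ) (φ : (Fin X.n → k) →ₗ[k] k) (y : Fin Y.n → k) :
    Om X.x.L Y.x.L (X.fn a) (Y.cf b) (φ.smulRight y) o p r = φ (OmV X Y a b o p r y) := by
  have h : OmV X Y a b o p r y = ∑ i ∈ clI X.x.L Y.x.L o p r, (Y.cf b (stn o i r) y) • X.fn a (p + i) := by
    funext s
    rw [Finset.sum_apply]
    unfold OmV Om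
    refine Finset.sum_congr rfl fun i _ => ?_
    rw [LinearMap.smulRight_apply, map_smul, LinearMap.proj_apply, Pi.smul_apply, smul_eq_mul, smul_eq_mul,
      mul_comm]
  rw [h, map_sum]
  unfold Om
  refine Finset.sum_congr rfl fun i _ => ?_
  rw [LinearMap.smulRight_apply, map_smul, map_smul, smul_eq_mul, smul_eq_mul, mul_comm]

theorem OmL_val (o : Bool) (p r : ℤ) (φ : (Fin X.n → k) →ₗ[k] k) (y : Fin Y.n → k) :
    Om X.x.L Y.x.L (X.fn a) (Y.cf b) (φ.smulRight y) o p r = OmL X Y a b o p r φ y := rfl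

/-- the value of the pair on a composition of two graph maps `X → c → Y` -/
theorem val_gm_gm {c : Str S} {l : ℕ} {V : Type} [AddCommGroup V] [Module k V] {T : V ≃ₗ[k] V} (h : c.PerOK l T)
    (hc : ∀ p, p ∈ c.Z) (o : Bool) (p q : ℤ) (o' : Bool) (q' r : ℤ) (φ : (Fin X.n → k) →ₗ[k] k) (v : V)
    (lam : V →ₗ[k] k) (y : Fin Y.n → k) :
    b (gm h Y.ok o' q' r lam y (gm X.ok h o p q φ v a)) =
      lam (∑ i ∈ clI X.x.L c.L o p q, ∑ j ∈ clI c.L Y.x.L o' q' r,
        (φ (X.fn a (p + i)) * Y.cf b (stn o' j r) y) • (c.LB l T h).spr (stn o i q) v (q' + j)) := by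
  have h1 : gm h Y.ok o' q' r lam y (gm X.ok h o p q φ v a) =
      ∑ j ∈ clI c.L Y.x.L o' q' r, lam (cfE h (gm X.ok h o p q φ v a) (q' + j)) • ioE Y.ok (stn o' j r) y :=
    gm_apply o' q' r lam y _
  have h2 : ∀ s : ℤ, cfE h (gm X.ok h o p q φ v a) s =
      ∑ i ∈ clI X.x.L c.L o p q, φ (X.fn a (p + i)) • (c.LB l T h).spr (stn o i q) v s := by
    intro s
    have h3 : gm X.ok h o p q φ v a =
        ∑ i ∈ clI X.x.L c.L o p q, φ (cfE X.ok a (p + i)) • ioE h (stn o i q) v := gm_apply o p q φ v a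
    rw [h3, map_sum, Finset.sum_apply]
    refine Finset.sum_congr rfl fun i _ => ?_
    rw [map_smul, Pi.smul_apply, cfE_ioE h (hc _)]
    rfl
  rw [h1]
  refine (map_sum b _ _).trans ?_
  rw [Finset.sum_comm, map_sum]
  refine Finset.sum_congr rfl fun j _ => ?_
  refine (map_smul b _ _).trans ?_
  rw [← he2_cf, h2, map_sum, map_sum, smul_eq_mul, Finset.sum_mul]
  refine Finset.sum_congr rfl fun i _ => ?_
  rw [map_smul, map_smul, smul_eq_mul, smul_eq_mul]
  ring

end val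

end StrAlg
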