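import Pool.Agent.Lib.MP_b9fd58_lc.R.Hc
import Pool.Agent.Lib.MP_b9fd58_lc.R.He2
import Pool.Agent.Lib.MP_b9fd58_lc.R.Hf1
import Pool.Agent.Lib.MP_b9fd58_lc.R.Hf2

/-!
# Stream R, Theorem 8A, first half: a datum which is not closed gives an open pair

If the datum fails by
* `c1`: `s • v ≠ 0` with `s ∈ Om` for graph maps `X → c → Y`: by `Enc.aeval` and `cof_sum` the vector of `val_gm_gm` is
  not `0`, choose `lam` with `lam (vector) ≠ 0` (`Module.forall_dual_apply_eq_zero_iff`): `f = gm X.ok h .. φ v`,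
  `G = gm h Y.ok .. lam y`;
* `c2`: `g x ≠ 0`, `X.x = c`: `f = mpE g`, `G = gm (lam) y`, `gm_comp_mpE`, `val_gm`, `OmV_val`;
* `c3`: `Y.x = c`: `f = gm .. φ v`, `G = mpE g`, `mpE_comp_gm`, `val_gm`, `OmL_val`;
* `c4`: `f = mpE`, `G = mpE`, `band_val`.
`k[X]`-linear maps between the modules `EM` are the `k`-linear maps which commute with the endomorphisms.
-/

set_option autoImplicit false

namespace StrAlg

open Module Polynomial

variable {D : Dat} {k : Type} [Field k] {S : Sides D}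

/-- a `k[X]`-linear map as a `k`-linear map -/
noncomputable def emk {V₁ V₂ : Type} [AddCommGroup V₁] [Module k V₁] [AddCommGroup V₂] [Module k V₂] {T₁ : V₁ →ₗ[k] V₁}
    {T₂ : V₂ →ₗ[k] V₂} (g : SAlg.EM T₁ →ₗ[k[X]] SAlg.EM T₂) : V₁ →ₗ[k] V₂ where
  toFun v := (SAlg.EM.of T₂).symm (g (SAlg.EM.of T₁ v))
  map_add' v v' := by rw [map_add, map_add, map_add]
  map_smul' r v := by
    have h1 : SAlg.EM.of T₁ (r • v) = (C r : k[X]) • SAlg.EM.of T₁ v := by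
      rw [SAlg.C_smul_eq, map_smul]
    rw [h1, map_smul, SAlg.C_smul_eq, map_smul, RingHom.id_apply]

theorem emk_comm {V₁ V₂ : Type} [AddCommGroup V₁] [Module k V₁] [AddCommGroup V₂] [Module k V₂] {T₁ : V₁ →ₗ[k] V₁}
    {T₂ : V₂ →ₗ[k] V₂} (g : SAlg.EM T₁ →ₗ[k[X]] SAlg.EM T₂) (v : V₁) : emk g (T₁ v) = T₂ (emk g v) := by
  show (SAlg.EM.of T₂).symm (g (SAlg.EM.of T₁ (T₁ v))) = _
  rw [← SAlg.EM.X_smul_of, map_smul, SAlg.EM.of_symm_X_smul]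
  rfl

/-- a `k`-linear map which commutes with the endomorphisms as a `k[X]`-linear map -/
theorem exists_emk {V₁ V₂ : Type} [AddCommGroup V₁] [Module k V₁] [AddCommGroup V₂] [Module k V₂] {T₁ : V₁ →ₗ[k] V₁}
    {T₂ : V₂ →ₗ[k] V₂} (φ : V₁ →ₗ[k] V₂) (hφ : ∀ v, φ (T₁ v) = T₂ (φ v)) :
    ∃ g : SAlg.EM T₁ →ₗ[k[X]] SAlg.EM T₂, ∀ v, g (SAlg.EM.of T₁ v) = SAlg.EM.of T₂ (φ v) :=
  ⟨SAlg.ofX ((SAlg.EM.of T₂).toLinearMap ∘ₗ φ ∘ₗ (SAlg.EM.of T₁).symm.toLinearMap) (fun m => by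
    obtain ⟨m, rfl⟩ := (SAlg.EM.of T₁).surjective m
    rw [SAlg.EM.X_smul_of]
    show SAlg.EM.of T₂ (φ (T₁ m)) = (X : k[X]) • SAlg.EM.of T₂ (φ m)
    rw [SAlg.EM.X_smul_of, hφ]), fun v => rfl⟩

section
variable {c : Str S} {l : ℕ} {V : Type} [AddCommGroup V] [Module k V] {T : V ≃ₗ[k] V} {X Y : Blk S k} {a : X.M.C}
  {b : Dual k Y.M.C}

theorem blk_per (X : Blk S k) (h : 0 < X.l) : X.x.MinPer X.l :=
  ⟨h, ⟨X.ok.per, X.ok.big h⟩, fun d hd hp => (X.min d hd hp).2⟩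

theorem blk_l (hl : c.MinPer l) (X : Blk S k) (hX : X.x = c) : X.l = l := by
  subst hX
  obtain ⟨h1, h2⟩ := X.min l hl.1 hl.2.1
  exact le_antisymm h2 (hl.2.2 X.l h1 ⟨X.ok.per, X.ok.big h1⟩)

theorem hg_exists_dual {W : Type} [AddCommGroup W] [Module k W] {v : W} (hv : v ≠ 0) :
    ∃ lam : W →ₗ[k] k, lam v ≠ 0 := by
  by_contra hcon
  push Not at hcon
  exact hv ((Module.forall_dual_apply_eq_zero_iff k v).1 hcon)

theorem open1 (hl : c.MinPer l) (h : c.PerOK l T) {s : k[X]} (hs : s ∈ (rdat c l X Y a b).Om) {v : SAlg.EM T.toLinearMap}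
    (hv : s • v ≠ 0) : (bpr X Y a b).Opn (c.ME l T h) := by
  obtain ⟨o, p, q, o', q', r, φ, y, N, h1, h2, henc⟩ := hs
  obtain ⟨v0, rfl⟩ := (SAlg.EM.of T.toLinearMap).surjective v
  have hfin := cof_finite X Y a b c hl.1 o p q o' q' r φ y
  have hA : ∀ t, cof X Y a b c l o p q o' q' r φ y t ≠ 0 → t ∈ hfin.toFinset := by
    intro t ht
    rw [Set.Finite.mem_toFinset]
    exact ht
  have h3 := henc.aeval T v0 hfin.toFinset hA
  have h4 := cof_sum X Y a b c hl.1 h o p q o' q' r φ y v0 hfin.toFinset hA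
  rw [← h4] at h3
  have h5 : (∑ i ∈ clI X.x.L c.L o p q, ∑ j ∈ clI c.L Y.x.L o' q' r,
        (φ (X.fn a (p + i)) * Y.cf b (stn o' j r) y) • (c.LB l T h).spr (stn o i q) v0 (q' + j)) ≠ 0 := by
    intro h0
    apply hv
    rw [SAlg.EM.smul_of, h3, h0, map_zero, map_zero]
  obtain ⟨lam, hlam⟩ := hg_exists_dual (k := k) h5
  refine ⟨gm X.ok h o p q φ v0, gm h Y.ok o' q' r lam y, gm_hom h1 φ v0, gm_hom h2 lam y, ?_⟩
  have h6 := val_gm_gm X Y a b h (fun p => c.Z_univ hl.2.1.2 p) o p q o' q' r φ v0 lam y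
  show b (gm h Y.ok o' q' r lam y (gm X.ok h o p q φ v0 a)) ≠ 0
  rw [h6]
  exact hlam

theorem open2 (hl : c.MinPer l) (h : c.PerOK l T) {x : SAlg.EM X.T.toLinearMap}
    (hx : x ∈ (rdat c l X Y a b).S2) {g : SAlg.EM X.T.toLinearMap →ₗ[k[X]] SAlg.EM T.toLinearMap}
    (hg : g x ≠ 0) : (bpr X Y a b).Opn (c.ME l T h) := by
  obtain ⟨hXc, o, p, r, y, ho, rfl⟩ := hx
  subst hXc
  obtain rfl := blk_l hl X rfl
  have hcomm : ∀ v : Fin X.n → k, emk (k := k) g (X.T v) = T (emk (k := k) g v) :=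
    fun v => emk_comm g v
  have h1 : emk g (OmV X Y a b o p r y) ≠ 0 := by
    intro h0
    apply hg
    have h2 : (SAlg.EM.of T.toLinearMap).symm (g (SAlg.EM.of X.T.toLinearMap (OmV X Y a b o p r y))) = 0 := h0
    exact (LinearEquiv.map_eq_zero_iff _).1 h2
  obtain ⟨lam, hlam⟩ := hg_exists_dual (k := k) h1
  refine ⟨mpE X.ok h (emk g) hcomm, gm h Y.ok o p r lam y, mpE_hom _ hcomm, gm_hom ho lam y, ?_⟩
  have h3 : b ((gm h Y.ok o p r lam y ∘ₗ mpE X.ok h (emk g) hcomm) a) = lam (emk g (OmV X Y a b o p r y)) := by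
    rw [gm_comp_mpE, val_gm, OmV_val]
    rfl
  exact fun h0 => hlam (h3.symm.trans h0)

theorem open3 (hl : c.MinPer l) (h : c.PerOK l T) {u : SAlg.EM Y.T.toLinearMap →+ k}
    (hu : u ∈ (rdat c l X Y a b).S3) {g : SAlg.EM T.toLinearMap →ₗ[k[X]] SAlg.EM Y.T.toLinearMap}
    {x : SAlg.EM T.toLinearMap} (hg : u (g x) ≠ 0) : (bpr X Y a b).Opn (c.ME l T h) := by
  obtain ⟨hYc, o, p, r, φ, ho, hval⟩ := hu
  subst hYc
  obtain rfl := blk_l hl Y rfl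
  obtain ⟨v, rfl⟩ := (SAlg.EM.of T.toLinearMap).surjective x
  have hcomm : ∀ v : V, emk (k := k) g (T v) = Y.T (emk (k := k) g v) :=
    fun v => emk_comm g v
  have h1 : OmL X Y a b o p r φ (emk g v) ≠ 0 := by
    rw [← hval]
    exact hg
  refine ⟨gm X.ok h o p r φ v, mpE h Y.ok (emk g) hcomm, gm_hom ho φ v, mpE_hom _ hcomm, ?_⟩
  have h3 : b ((mpE h Y.ok (emk g) hcomm ∘ₗ gm X.ok h o p r φ v) a) = OmL X Y a b o p r φ (emk g v) := by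
    rw [mpE_comp_gm, val_gm, OmL_val]
  exact fun h0 => h1 (h3.symm.trans h0)

theorem hg_band {w : Str S} {l : ℕ} {V₁ V V₂ : Type} [AddCommGroup V₁] [Module k V₁] [AddCommGroup V] [Module k V]
    [AddCommGroup V₂] [Module k V₂] {T₁ : V₁ ≃ₗ[k] V₁} {T : V ≃ₗ[k] V} {T₂ : V₂ ≃ₗ[k] V₂} (h₁ : w.PerOK l T₁)
    (h : w.PerOK l T) (h₂ : w.PerOK l T₂) (hl : 0 < l) (a : (w.ME l T₁ h₁).C) (b : (w.ME l T₂ h₂).C →ₗ[k] k)
    (φ : V₁ →ₗ[k] V) (hφ : ∀ v, φ (T₁ v) = T (φ v)) (ψ : V →ₗ[k] V₂) (hψ : ∀ v, ψ (T v) = T₂ (ψ v)) :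
    b (mpE h h₂ ψ hψ (mpE h₁ h φ hφ a)) =
      ∑ p ∈ Finset.range l, b (ioE h₂ p (ψ (φ (cfE h₁ a p)))) := by
  rw [band_val hl b]
  rfl

theorem open4 (hl : c.MinPer l) (h : c.PerOK l T)
    {u : (SAlg.EM X.T.toLinearMap →ₗ[k[X]] SAlg.EM Y.T.toLinearMap) →+ k}
    (hu : u ∈ (rdat c l X Y a b).S4) {f : SAlg.EM X.T.toLinearMap →ₗ[k[X]] SAlg.EM T.toLinearMap}
    {g : SAlg.EM T.toLinearMap →ₗ[k[X]] SAlg.EM Y.T.toLinearMap}
    (hg : u (g ∘ₗ f) ≠ 0) : (bpr X Y a b).Opn (c.ME l T h) := by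
  obtain ⟨hXc, hYc, hval⟩ := hu
  have hXl := blk_l hl X hXc
  have hYl := blk_l hl Y hYc
  obtain ⟨x, n, l₁, T₁, ok₁, mn₁, fn₁⟩ := X
  obtain ⟨y, m, l₂, T₂, ok₂, mn₂, fn₂⟩ := Y
  simp only at hXc hYc hXl hYl
  subst hXc
  subst hYc
  subst hXl
  subst hYl
  have hf : ∀ v, emk f (T₁ v) = T (emk f v) := fun v => emk_comm f v
  have hg' : ∀ v, emk g (T v) = T₂ (emk g v) := fun v => emk_comm g v
  refine ⟨mpE ok₁ h (emk f) hf, mpE h ok₂ (emk g) hg', mpE_hom _ hf, mpE_hom _ hg', ?_⟩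
  have h1 := hg_band ok₁ h ok₂ hl.1 a b (emk f) hf (emk g) hg'
  have h2 := hval (g ∘ₗ f)
  intro h0
  apply hg
  rw [h2]
  refine Eq.trans ?_ (h1.symm.trans h0)
  refine Finset.sum_congr rfl fun p _ => ?_
  rw [Blk.cf, Blk.iota_eq, Blk.fn_eq]
  rfl

theorem opn_of_not_closed (hl : c.MinPer l) (h : c.PerOK l T)
    (hn : ¬ (rdat c l X Y a b).Closed (SAlg.EM T.toLinearMap)) : (bpr X Y a b).Opn (c.ME l T h) := by
  by_contra hcon
  apply hn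
  refine ⟨fun s hs v => ?_, fun x hx f => ?_, fun u hu G x => ?_, fun u hu f G => ?_⟩
  · by_contra h1
    exact hcon (open1 hl h hs h1)
  · by_contra h1
    exact hcon (open2 hl h hx h1)
  · by_contra h1
    exact hcon (open3 hl h hu h1)
  · by_contra h1
    exact hcon (open4 hl h hu h1)

end

end StrAlg
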