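import Pool.Agent.Lib.MP_b9fd58_lc.R.Hb

/-!
# Stream R: the polynomials `Om` vanish iff the pair satisfies the criterion for `c`

The coefficient `cof .. t` is the sum over the composition of the graph map of `(p, q - t * l)` (`c` has the period `l`)
with the graph map of `(q', r)`. If `i₀, j₀` are indices with `stn o i₀ q - (q' + j₀) = t * l`, put
`P = p + i₀`, `Q = q' + j₀`, `R = stn o' j₀ r`; then `(P, Q)` is matched with orientation `o` and ordered (`c` is periodic),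
`(Q, R)` with orientation `o'`, and by `AgD.sandwich`, `AgD.trans` the class of `(P, R)` in `X × Y` consists of the pairs
whose position in `c` lies in both classes. So `cof .. t = Om X Y φ⊗y (o == o') P R`.
-/

set_option autoImplicit false

namespace StrAlg

open Module Polynomial

variable {D : Dat} {k : Type} [Field k] {S : Sides D}

/-- the integer with sign `e` and absolute value `n` -/
def hh1_sg (e : Bool) (n : ℕ) : ℤ := if e then (n : ℤ) else -(n : ℤ)

theorem hh1_sg_exists (i : ℤ) : ∃ e n, i = hh1_sg e n := by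
  rcases le_total 0 i with h | h
  · exact ⟨true, i.toNat, by simp only [hh1_sg, if_true]; omega⟩
  · exact ⟨false, (-i).toNat, by simp only [hh1_sg, Bool.false_eq_true, if_false]; omega⟩

theorem hh1_stn (e : Bool) (n : ℕ) (o : Bool) (q : ℤ) : stn o (hh1_sg e n) q = stn (e == o) n q := by
  cases e <;> cases o <;> simp [hh1_sg] <;> ring

theorem hh1_add (e : Bool) (n : ℕ) (p : ℤ) : p + hh1_sg e n = stn e n p := by
  cases e <;> simp [hh1_sg] <;> ring

theorem hh1_agd {L₁ L₂ : Ln (Fin D.nV) S.nx} {o : Bool} {p q : ℤ} (hf : FinCl L₁ L₂ o p q) (e : Bool) (n : ℕ) :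
    AgD L₁ L₂ o e p q n ↔ n ≤ lenD L₁ L₂ o e p q := by
  obtain ⟨h1, h2⟩ := lenD_spec (hf e)
  constructor
  · intro h
    by_contra hn
    exact h2 (h.mono (by omega))
  · intro h
    exact h1.mono h

/-- members of a finite class -/
theorem hh1_mem {L₁ L₂ : Ln (Fin D.nV) S.nx} {o : Bool} {p q : ℤ} (hf : FinCl L₁ L₂ o p q) (e : Bool) (n : ℕ) :
    hh1_sg e n ∈ clI L₁ L₂ o p q ↔ AgD L₁ L₂ o e p q n := by
  rw [hh1_agd hf, clI, Finset.mem_Icc]
  cases e
  · simp only [hh1_sg, Bool.false_eq_true, if_false]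
    omega
  · simp only [hh1_sg, if_true]
    omega

theorem hh1_len {L₁ L₂ : Ln (Fin D.nV) S.nx} {o e : Bool} {n : ℕ} : ∀ {a b : ℤ}, AgD L₁ L₂ o e a b n →
    FinCl L₁ L₂ o a b →
    lenD L₁ L₂ o e (stn e n a) (stn (e == o) n b) + n = lenD L₁ L₂ o e a b ∧
    lenD L₁ L₂ o (!e) (stn e n a) (stn (e == o) n b) = lenD L₁ L₂ o (!e) a b + n := by
  induction n with
  | zero => intro a b _ _; simp
  | succ n ih =>
    intro a b h hf
    rw [AgD_succ] at h
    have e1 : stn e (n + 1 : ℕ) a = stn e n (st e a) := by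
      rw [← stn_one, stn_stn]; push_cast; ring_nf
    have e2 : stn (e == o) (n + 1 : ℕ) b = stn (e == o) n (st (e == o) b) := by
      rw [← stn_one, stn_stn]; push_cast; ring_nf
    obtain ⟨h1, h2⟩ := ih h.2 ((FinCl.step_iff h.1).2 hf)
    obtain ⟨h3, h4⟩ := lenD_step h.1 hf
    rw [e1, e2]
    omega

theorem hh1_wdd {L : Ln (Fin D.nV) S.nx} {l : ℕ} (h : L.IsPer l) (e : Bool) (q t : ℤ) :
    L.wdd e (q + t * l) = L.wdd e q := by
  funext n
  rw [Ln.wdd_apply, Ln.wdd_apply, ← (h.lt e).mul (stn e n q) t]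
  congr 1
  cases e <;> simp <;> ring

/-- the length of the class seen from another member -/
theorem lenD_shift {L₁ L₂ : Ln (Fin D.nV) S.nx} {o : Bool} {p q : ℤ} (hf : FinCl L₁ L₂ o p q) {i : ℤ}
    (hi : i ∈ clI L₁ L₂ o p q) :
    (lenD L₁ L₂ o true (p + i) (stn o i q) : ℤ) = lenD L₁ L₂ o true p q - i ∧
    (lenD L₁ L₂ o false (p + i) (stn o i q) : ℤ) = lenD L₁ L₂ o false p q + i := by
  obtain ⟨e, n, rfl⟩ := hh1_sg_exists i
  obtain ⟨h1, h2⟩ := hh1_len ((hh1_mem hf e n).1 hi) hf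
  rw [hh1_add, hh1_stn]
  cases e
  · simp only [hh1_sg, Bool.false_eq_true, if_false]
    rw [Bool.not_false] at h2
    omega
  · simp only [hh1_sg, if_true]
    rw [Bool.not_true] at h2
    omega

/-- the condition is invariant under the period -/
theorem Ord.shift {X c : Str S} {l : ℕ} (hc : c.Per l) {o : Bool} {p q : ℤ} (h : Ord X c o p q) (t : ℤ) :
    Ord X c o p (q + t * l) := by
  obtain ⟨h1, h2, h3, h4, h5⟩ := h
  refine ⟨h1, c.Z_univ hc.2 _, ⟨?_, ?_⟩, ?_, ?_⟩
  · rw [hc.1.v.mul]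
    exact h3.1
  · rw [hc.1.r.mul]
    exact h3.2
  · intro e
    rw [hh1_wdd hc.1]
    exact h4 e
  · intro e
    obtain ⟨n, hn⟩ := h5 e
    refine ⟨n, fun h => hn ?_⟩
    unfold AgD at h ⊢
    rwa [hh1_wdd hc.1] at h

theorem lenD_per {X c : Str S} {l : ℕ} (hc : c.Per l) (o e : Bool) (p q t : ℤ) :
    lenD X.L c.L o e p (q + t * l) = lenD X.L c.L o e p q := by
  unfold lenD AgD
  rw [hh1_wdd hc.1]

/-- the condition holds for all members of the class -/
theorem Ord.cl {X Y : Str S} {o : Bool} {p q : ℤ} (h : Ord X Y o p q) {i : ℤ} (hi : i ∈ clI X.L Y.L o p q) :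
    Ord X Y o (p + i) (stn o i q) := by
  obtain ⟨h1, h2, h3, h4, h5⟩ := h
  obtain ⟨e, n, rfl⟩ := hh1_sg_exists i
  have hag := (hh1_mem h5 e n).1 hi
  rw [hh1_add, hh1_stn]
  refine ⟨?_, ?_, hag.walk.1.2 h3, hag.walk.2.2 h4, (FinCl.walk hag).2 h5⟩
  · exact Ln.Reach.trans h1 (Ln.Reach.of_lt fun j hj => (hag j hj).2)
  · exact Ln.Reach.trans h2 (Ln.Reach.of_lt fun j hj => (hag.symm j hj).2)

/-- the class of a composition at a common position -/
theorem clI_comp {X c Y : Str S} {o o' : Bool} {P Q R : ℤ} (h1 : Ord X c o P Q) (h2 : Ord c Y o' Q R) (i : ℤ) :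
    i ∈ clI X.L Y.L (o == o') P R ↔ i ∈ clI X.L c.L o P Q ∧ (if o then i else -i) ∈ clI c.L Y.L o' Q R := by
  obtain ⟨-, -, -, a4, a5⟩ := h1
  obtain ⟨-, -, -, b4, b5⟩ := h2
  have hf : FinCl X.L Y.L (o == o') P R := by
    intro e
    obtain ⟨n, hn⟩ := a5 e
    exact ⟨n, fun h => hn (AgD.sandwich a4 b4 h).1⟩
  obtain ⟨e, n, rfl⟩ := hh1_sg_exists i
  have h3 : (if o then hh1_sg e n else -hh1_sg e n) = hh1_sg (e == o) n := by
    cases e <;> cases o <;> simp [hh1_sg]
  rw [h3, hh1_mem hf, hh1_mem a5, hh1_mem b5]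
  exact ⟨fun h => AgD.sandwich a4 b4 h, fun h => h.1.trans h.2⟩

end StrAlg
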