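import Pool.Agent.Lib.MP_b9fd58_lc.R.Hg

/-!
# Stream R, Theorem 8A, second half: a closed datum gives a closed pair

Write `f = f₀ + f₁`, where `f₁` is a sum of graph maps `X → c` (`gm_span`) and `f₀ = 0` or (if `X.x = c`) `f₀ = mpE φ`
(`inf_split`, after substituting `X.x = c`, `X.l = l`; if `X.x ≠ c` then no positions are aligned, `finK_of_not_al`).
Similarly for `G`. The four kinds of products are zero by the four conditions of `RDat.Closed`.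
-/

set_option autoImplicit false

namespace StrAlg

open Module Polynomial

variable {D : Dat} {k : Type} [Field k] {S : Sides D}

/-- zero on graph maps implies zero on all homomorphisms with finite classes -/
theorem zero_of_gm {w₁ w₂ : Str S} {l₁ l₂ : ℕ} {V₁ V₂ : Type} [AddCommGroup V₁] [Module k V₁] [AddCommGroup V₂]
    [Module k V₂] {T₁ : V₁ ≃ₗ[k] V₁} {T₂ : V₂ ≃ₗ[k] V₂} {h₁ : w₁.PerOK l₁ T₁} {h₂ : w₂.PerOK l₂ T₂}
    (hZ₁ : l₁ = 0 → w₁.Z.Finite) (hZ₂ : l₂ = 0 → w₂.Z.Finite)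
    (hV : FiniteDimensional k V₁ ∨ FiniteDimensional k V₂)
    {f : (w₁.ME l₁ T₁ h₁).C →ₗ[k] (w₂.ME l₂ T₂ h₂).C} (hf : (w₁.ME l₁ T₁ h₁).Hom (w₂.ME l₂ T₂ h₂) f)
    (hF : FinK h₁ h₂ f) (E : ((w₁.ME l₁ T₁ h₁).C →ₗ[k] (w₂.ME l₂ T₂ h₂).C) →ₗ[k] k)
    (hE : ∀ o p q φ v, Ord w₁ w₂ o p q → E (gm h₁ h₂ o p q φ v) = 0) : E f = 0 := by
  have h1 := gm_span hZ₁ hZ₂ hV hf hF
  have h2 : Submodule.span k {g | ∃ o p q φ v, Ord w₁ w₂ o p q ∧ g = gm h₁ h₂ o p q φ v} ≤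
      LinearMap.ker E := Submodule.span_le.2 (by
    rintro _ ⟨o, p, q, φ, v, ho, rfl⟩
    exact hE o p q φ v ho)
  exact h2 h1

section
variable {c : Str S} {l : ℕ} {V : Type} [AddCommGroup V] [Module k V] {T : V ≃ₗ[k] V} {X Y : Blk S k}

/-- the decomposition of `f : X.M → M(c, V)` -/
theorem split_left (hl : c.MinPer l) (h : c.PerOK l T)
    (sX : (∃ r ∈ X.x.Z, ∃ r' ∈ c.Z, Al X.x c r r') → X.x = c)
    {f : X.M.C →ₗ[k] (c.ME l T h).C} (hf : X.M.Hom (c.ME l T h) f) :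
    FinK X.ok h f ∨ ∃ (hX : X.x = c) (h₁ : c.PerOK l X.T) (φ : (Fin X.n → k) →ₗ[k] V) (hφ : ∀ v, φ (X.T v) = T (φ v))
      (e : X.M.C ≃ₗ[k] (c.ME l X.T h₁).C), (∀ m, cfE h₁ (e m) = cfE X.ok m) ∧
      FinK X.ok h (f - mpE h₁ h φ hφ ∘ₗ e.toLinearMap) ∧ X.M.Hom (c.ME l T h) (mpE h₁ h φ hφ ∘ₗ e.toLinearMap) := by
  have hl0 : 0 < l := hl.1
  by_cases hX : X.x = c
  · right
    have hXl : X.l = l := blk_l hl X hX
    obtain ⟨x, n, l', T', ok, mn, fin⟩ := X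
    change x = c at hX
    change l' = l at hXl
    subst hX
    subst hXl
    obtain ⟨φ, hφ, hF⟩ := inf_split (h₁ := ok) (h₂ := h) hl hf
    exact ⟨rfl, ok, φ, hφ, LinearEquiv.refl k _, fun m => rfl, hF, mpE_hom φ hφ⟩
  · left
    exact finK_of_not_al (fun h0 => X.fin h0) (fun h0 => absurd h0 hl0.ne')
      (fun p hp q hq hal => hX (sX ⟨p, hp, q, hq, hal⟩)) f

/-- the decomposition of `G : M(c, V) → Y.M` -/
theorem split_right (hl : c.MinPer l) (h : c.PerOK l T)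
    (sY : (∃ r ∈ Y.x.Z, ∃ r' ∈ c.Z, Al Y.x c r r') → Y.x = c)
    {G : (c.ME l T h).C →ₗ[k] Y.M.C} (hG : (c.ME l T h).Hom Y.M G) :
    FinK h Y.ok G ∨ ∃ (hY : Y.x = c) (h₂ : c.PerOK l Y.T) (φ : V →ₗ[k] (Fin Y.n → k)) (hφ : ∀ v, φ (T v) = Y.T (φ v))
      (e : (c.ME l Y.T h₂).C ≃ₗ[k] Y.M.C), (∀ m, cfE Y.ok (e m) = cfE h₂ m) ∧
      FinK h Y.ok (G - e.toLinearMap ∘ₗ mpE h h₂ φ hφ) ∧ (c.ME l T h).Hom Y.M (e.toLinearMap ∘ₗ mpE h h₂ φ hφ) := by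
  have hl0 : 0 < l := hl.1
  by_cases hY : Y.x = c
  · right
    have hYl : Y.l = l := blk_l hl Y hY
    obtain ⟨y, n, l', T', ok, mn, fin⟩ := Y
    change y = c at hY
    change l' = l at hYl
    subst hY
    subst hYl
    obtain ⟨φ, hφ, hF⟩ := inf_split (h₁ := h) (h₂ := ok) hl hG
    exact ⟨rfl, ok, φ, hφ, LinearEquiv.refl k _, fun m => rfl, hF, mpE_hom φ hφ⟩
  · left
    exact finK_of_not_al (fun h0 => absurd h0 hl0.ne') (fun h0 => Y.fin h0)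
      (fun p hp q hq hal => hY (sY ⟨q, hq, p, hp, al_sym hal⟩)) G

end

end StrAlg
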