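import Pool.Agent.Lib.MP_b9fd58_lc.R.Hl1

/-!
# Stream R, Theorem 8A, second half: the four kinds of products

`val_ff`: by `zero_of_gm` (twice) it suffices to treat graph maps; then `val_gm_gm`, `cof_sum`, `Enc.aeval` and `c1`
(`exists_enc`, `cof_finite`). `val_if`: `zero_of_gm` for `G`, then the value is `lam (φ (OmV ..))` (`val_gm`, `OmV_val`), zero by
`c2` for the `k[X]`-linear map of `exists_emk`. `val_fi`: the same with `c3`. `val_ii`: `band_val` and `c4`.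
`not_opn_of_closed`: `split_left`, `split_right`, then `b (G (f a))` is a sum of at most four such values.
-/

set_option autoImplicit false

namespace StrAlg

open Module Polynomial

variable {D : Dat} {k : Type} [Field k] {S : Sides D}

section aux
variable {c : Str S} {l : ℕ}

theorem hl2_ioE {Y : Blk S k} (hY : Y.x = c) (hl : Y.l = l) (h₂ : c.PerOK l Y.T)
    (e : (c.ME l Y.T h₂).C ≃ₗ[k] Y.M.C) (he : ∀ m, cfE Y.ok (e m) = cfE h₂ m) (p : ℤ)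
    (v : Fin Y.n → k) : e (ioE h₂ p v) = ioE Y.ok p v := by
  subst hY
  subst hl
  exact cfE_inj Y.ok (he _)

theorem hl2_gmX {X Y : Blk S k} (hX : X.x = c) (h₁ : c.PerOK l X.T)
    (e : X.M.C ≃ₗ[k] (c.ME l X.T h₁).C) (he : ∀ m, cfE h₁ (e m) = cfE X.ok m) (a : X.M.C)
    (o : Bool) (p q : ℤ) (φ : (Fin X.n → k) →ₗ[k] k) (y : Fin Y.n → k) :
    gm h₁ Y.ok o p q φ y (e a) = gm X.ok Y.ok o p q φ y a := by
  have h1 : gm h₁ Y.ok o p q φ y (e a) =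
      ∑ i ∈ clI c.L Y.x.L o p q, φ (cfE h₁ (e a) (p + i)) • ioE Y.ok (stn o i q) y :=
    gm_apply o p q φ y (e a)
  have h2 : gm X.ok Y.ok o p q φ y a =
      ∑ i ∈ clI X.x.L Y.x.L o p q, φ (cfE X.ok a (p + i)) • ioE Y.ok (stn o i q) y :=
    gm_apply o p q φ y a
  have h3 : clI c.L Y.x.L o p q = clI X.x.L Y.x.L o p q := by rw [hX]
  rw [h1, h2, he, h3]

theorem hl2_gmY {X Y : Blk S k} (hY : Y.x = c) (hl : Y.l = l) (h₂ : c.PerOK l Y.T)
    (e : (c.ME l Y.T h₂).C ≃ₗ[k] Y.M.C) (he : ∀ m, cfE Y.ok (e m) = cfE h₂ m) (a : X.M.C)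
    (o : Bool) (p q : ℤ) (φ : (Fin X.n → k) →ₗ[k] k) (y : Fin Y.n → k) :
    e (gm X.ok h₂ o p q φ y a) = gm X.ok Y.ok o p q φ y a := by
  have h1 : gm X.ok h₂ o p q φ y a =
      ∑ i ∈ clI X.x.L c.L o p q, φ (cfE X.ok a (p + i)) • ioE h₂ (stn o i q) y :=
    gm_apply o p q φ y a
  have h2 : gm X.ok Y.ok o p q φ y a =
      ∑ i ∈ clI X.x.L Y.x.L o p q, φ (cfE X.ok a (p + i)) • ioE Y.ok (stn o i q) y :=
    gm_apply o p q φ y a
  have h3 : clI X.x.L c.L o p q = clI X.x.L Y.x.L o p q := by rw [hY]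
  rw [h1, h2, map_sum, h3]
  refine Finset.sum_congr rfl fun i _ => ?_
  rw [map_smul, hl2_ioE hY hl h₂ e he]
  rfl

theorem hl2_OmL_add (X Y : Blk S k) (a : X.M.C) (b : Dual k Y.M.C) (o : Bool) (p q : ℤ)
    (φ : Dual k (Fin X.n → k)) (y y' : Fin Y.n → k) :
    OmL X Y a b o p q φ (y + y') = OmL X Y a b o p q φ y + OmL X Y a b o p q φ y' := by
  simp only [OmL, Om, LinearMap.smulRight_apply, smul_add, map_add, Finset.sum_add_distrib]

theorem hl2_OmL_zero (X Y : Blk S k) (a : X.M.C) (b : Dual k Y.M.C) (o : Bool) (p q : ℤ)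
    (φ : Dual k (Fin X.n → k)) : OmL X Y a b o p q φ 0 = 0 := by
  simp only [OmL, Om, LinearMap.smulRight_apply, smul_zero, map_zero, Finset.sum_const_zero]

theorem hl2_sub {M N : Md D k} {f f' : M.C →ₗ[k] N.C} (h : M.Hom N f) (h' : M.Hom N f') :
    M.Hom N (f - f') := by
  intro g m
  rw [LinearMap.sub_apply, h g m, h' g m, LinearMap.sub_apply, map_sub]

end aux

section
variable {c : Str S} {l : ℕ} {V : Type} [AddCommGroup V] [Module k V] {T : V ≃ₗ[k] V} {X Y : Blk S k}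
variable {a : X.M.C} {b : Dual k Y.M.C}

/-- (finite, finite) -/
theorem val_ff (hl : c.MinPer l) (h : c.PerOK l T)
    (hc : (rdat c l X Y a b).Closed (SAlg.EM T.toLinearMap)) {f : X.M.C →ₗ[k] (c.ME l T h).C}
    (hf : X.M.Hom (c.ME l T h) f) (hF : FinK X.ok h f) {G : (c.ME l T h).C →ₗ[k] Y.M.C}
    (hG : (c.ME l T h).Hom Y.M G) (hFG : FinK h Y.ok G) : b (G (f a)) = 0 := by
  have hl0 : l = 0 → c.Z.Finite := fun h0 => absurd hl.1 (by omega)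
  have key : ∀ o p q (φ : (Fin X.n → k) →ₗ[k] k) (v : V), Ord X.x c o p q →
      b (G (gm X.ok h o p q φ v a)) = 0 := by
    intro o p q φ v ho
    refine zero_of_gm (h₁ := h) (h₂ := Y.ok) hl0 Y.fin (Or.inr inferInstance) hG hFG
      ((Dual.eval k _ (gm X.ok h o p q φ v a)).comp
        (LinearMap.id) |>.comp (LinearMap.llcomp k _ _ _ b)) ?_
    intro o' q' r lam y ho'
    show b (gm h Y.ok o' q' r lam y (gm X.ok h o p q φ v a)) = 0
    rw [val_gm_gm X Y a b h (c.Z_univ hl.2.1.2)]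
    have hfin := cof_finite X Y a b c hl.1 o p q o' q' r φ y
    rw [cof_sum X Y a b c hl.1 h o p q o' q' r φ y v hfin.toFinset
      (fun t ht => hfin.mem_toFinset.mpr ht)]
    obtain ⟨s, N, hs⟩ := exists_enc _ hfin
    have h1 := hc.c1 s ⟨o, p, q, o', q', r, φ, y, N, ho, ho', hs⟩ (SAlg.EM.of T.toLinearMap v)
    rw [SAlg.EM.smul_of] at h1
    have h2 : Polynomial.aeval T.toLinearMap s v = 0 := h1
    rw [hs.aeval T v hfin.toFinset (fun t ht => hfin.mem_toFinset.mpr ht)] at h2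
    have h3 := (map_eq_zero_iff (T ^ N) (T ^ N).injective).mp h2
    rw [h3, map_zero]
  exact zero_of_gm (h₁ := X.ok) (h₂ := h) X.fin hl0 (Or.inl inferInstance) hf hF
    ((b ∘ₗ G) ∘ₗ (LinearMap.applyₗ a)) (fun o p q φ v ho => key o p q φ v ho)

/-- (infinite, finite) -/
theorem val_if (hl : c.MinPer l) (h : c.PerOK l T)
    (hc : (rdat c l X Y a b).Closed (SAlg.EM T.toLinearMap)) (hX : X.x = c) (h₁ : c.PerOK l X.T)
    (φ : (Fin X.n → k) →ₗ[k] V) (hφ : ∀ v, φ (X.T v) = T (φ v)) (e : X.M.C ≃ₗ[k] (c.ME l X.T h₁).C)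
    (he : ∀ m, cfE h₁ (e m) = cfE X.ok m) {G : (c.ME l T h).C →ₗ[k] Y.M.C}
    (hG : (c.ME l T h).Hom Y.M G) (hFG : FinK h Y.ok G) : b (G (mpE h₁ h φ hφ (e a))) = 0 := by
  have hl0 : l = 0 → c.Z.Finite := fun h0 => absurd hl.1 (by omega)
  refine zero_of_gm (h₁ := h) (h₂ := Y.ok) hl0 Y.fin (Or.inr inferInstance) hG hFG
    (b ∘ₗ (LinearMap.applyₗ (mpE h₁ h φ hφ (e a)))) ?_
  intro o q r lam y ho
  have h0 : (gm h Y.ok o q r lam y) (mpE h₁ h φ hφ (e a)) =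
      gm h₁ Y.ok o q r (lam ∘ₗ φ) y (e a) := by
    rw [← gm_comp_mpE (h₁ := h₁) (h₂ := h) (h₃ := Y.ok) φ hφ o q r lam y]
    rfl
  show b ((gm h Y.ok o q r lam y) (mpE h₁ h φ hφ (e a))) = 0
  rw [h0, hl2_gmX hX h₁ e he, val_gm, OmV_val]
  obtain ⟨g, hg⟩ := exists_emk (T₁ := X.T.toLinearMap) (T₂ := T.toLinearMap) φ hφ
  have ho' : Ord X.x Y.x o q r := by rw [hX]; exact ho
  have h2 := hc.c2 _ ⟨hX, o, q, r, y, ho', rfl⟩ g
  have h3 : g (SAlg.EM.of X.T.toLinearMap (OmV X Y a b o q r y)) = 0 := h2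
  rw [hg] at h3
  have h4 : φ (OmV X Y a b o q r y) = 0 := h3
  rw [LinearMap.comp_apply, h4, map_zero]

/-- (finite, infinite) -/
theorem val_fi (hl : c.MinPer l) (h : c.PerOK l T)
    (hc : (rdat c l X Y a b).Closed (SAlg.EM T.toLinearMap)) (hY : Y.x = c) (h₂ : c.PerOK l Y.T)
    (φ : V →ₗ[k] (Fin Y.n → k)) (hφ : ∀ v, φ (T v) = Y.T (φ v)) (e : (c.ME l Y.T h₂).C ≃ₗ[k] Y.M.C)
    (he : ∀ m, cfE Y.ok (e m) = cfE h₂ m) {f : X.M.C →ₗ[k] (c.ME l T h).C}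
    (hf : X.M.Hom (c.ME l T h) f) (hF : FinK X.ok h f) : b (e (mpE h h₂ φ hφ (f a))) = 0 := by
  have hl0 : l = 0 → c.Z.Finite := fun h0 => absurd hl.1 (by omega)
  have hYl := blk_l hl Y hY
  refine zero_of_gm (h₁ := X.ok) (h₂ := h) X.fin hl0 (Or.inl inferInstance) hf hF
    ((b ∘ₗ e.toLinearMap ∘ₗ mpE h h₂ φ hφ) ∘ₗ (LinearMap.applyₗ a)) ?_
  intro o p q ψ v ho
  have h0 : mpE h h₂ φ hφ (gm X.ok h o p q ψ v a) = gm X.ok h₂ o p q ψ (φ v) a := by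
    rw [← mpE_comp_gm (h₁ := X.ok) (h₂ := h) (h₃ := h₂) φ hφ o p q ψ v]
    rfl
  show b (e (mpE h h₂ φ hφ (gm X.ok h o p q ψ v a))) = 0
  rw [h0, hl2_gmY hY hYl h₂ e he, val_gm, OmL_val]
  obtain ⟨g, hg⟩ := exists_emk (T₁ := T.toLinearMap) (T₂ := Y.T.toLinearMap) φ hφ
  have ho' : Ord X.x Y.x o p q := by rw [hY]; exact ho
  let lf : SAlg.EM Y.T.toLinearMap →+ k :=
    { toFun := fun w => OmL X Y a b o p q ψ ((SAlg.EM.of Y.T.toLinearMap).symm w)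
      map_zero' := by
        rw [map_zero]
        exact hl2_OmL_zero X Y a b o p q ψ
      map_add' := fun w w' => by
        rw [map_add]
        exact hl2_OmL_add X Y a b o p q ψ _ _ }
  have h2 := hc.c3 lf ⟨hY, o, p, q, ψ, ho', fun w => rfl⟩ g (SAlg.EM.of T.toLinearMap v)
  have h3 := hg v
  have h4 : lf (SAlg.EM.of Y.T.toLinearMap (φ v)) = 0 := by
    rw [← h3]
    exact h2
  exact h4

/-- (infinite, infinite) -/
theorem val_ii (hl : c.MinPer l) (h : c.PerOK l T)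
    (hc : (rdat c l X Y a b).Closed (SAlg.EM T.toLinearMap)) (hX : X.x = c) (h₁ : c.PerOK l X.T)
    (φ : (Fin X.n → k) →ₗ[k] V) (hφ : ∀ v, φ (X.T v) = T (φ v)) (e : X.M.C ≃ₗ[k] (c.ME l X.T h₁).C)
    (he : ∀ m, cfE h₁ (e m) = cfE X.ok m) (hY : Y.x = c) (h₂ : c.PerOK l Y.T)
    (ψ : V →ₗ[k] (Fin Y.n → k)) (hψ : ∀ v, ψ (T v) = Y.T (ψ v)) (e' : (c.ME l Y.T h₂).C ≃ₗ[k] Y.M.C)
    (he' : ∀ m, cfE Y.ok (e' m) = cfE h₂ m) :
    b (e' (mpE h h₂ ψ hψ (mpE h₁ h φ hφ (e a)))) = 0 := by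
  have hYl := blk_l hl Y hY
  have h0 := band_val (h₁ := h₂) hl.1 (b ∘ₗ e'.toLinearMap) (mpE h h₂ ψ hψ (mpE h₁ h φ hφ (e a)))
  have h1 : b (e' (mpE h h₂ ψ hψ (mpE h₁ h φ hφ (e a)))) =
      ∑ p ∈ Finset.range l, Y.cf b p (ψ (φ (X.fn a p))) := by
    refine h0.trans (Finset.sum_congr rfl fun p _ => ?_)
    show b (e' (ioE h₂ p (cfE h₂ (mpE h h₂ ψ hψ (mpE h₁ h φ hφ (e a))) p))) = _
    rw [hl2_ioE hY hYl h₂ e' he', cfE_mpE, cfE_mpE, he, ← Blk.iota_eq]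
    rfl
  rw [h1]
  obtain ⟨f, hf⟩ := exists_emk (T₁ := X.T.toLinearMap) (T₂ := T.toLinearMap) φ hφ
  obtain ⟨g, hg⟩ := exists_emk (T₁ := T.toLinearMap) (T₂ := Y.T.toLinearMap) ψ hψ
  let u : (SAlg.EM X.T.toLinearMap →ₗ[k[X]] SAlg.EM Y.T.toLinearMap) →+ k :=
    { toFun := fun θ => ∑ p ∈ Finset.range l,
        Y.cf b p ((SAlg.EM.of Y.T.toLinearMap).symm (θ (SAlg.EM.of X.T.toLinearMap (X.fn a p))))
      map_zero' := by simp
      map_add' := fun θ θ' => by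
        rw [← Finset.sum_add_distrib]
        refine Finset.sum_congr rfl fun p _ => ?_
        rw [LinearMap.add_apply, map_add, map_add] }
  have h2 := hc.c4 u ⟨hX, hY, fun θ => rfl⟩ f g
  have h3 : u (g ∘ₗ f) = ∑ p ∈ Finset.range l, Y.cf b p (ψ (φ (X.fn a p))) := by
    have h4 : ∀ p : ℤ, (SAlg.EM.of Y.T.toLinearMap).symm
        ((g ∘ₗ f) (SAlg.EM.of X.T.toLinearMap (X.fn a p))) = ψ (φ (X.fn a p)) := by
      intro p
      rw [LinearMap.comp_apply, hf, hg, LinearEquiv.symm_apply_apply]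
    show ∑ p ∈ Finset.range l, Y.cf b p ((SAlg.EM.of Y.T.toLinearMap).symm
        ((g ∘ₗ f) (SAlg.EM.of X.T.toLinearMap (X.fn a p)))) = _
    refine Finset.sum_congr rfl fun p _ => ?_
    exact congrArg (Y.cf b p) (h4 p)
  rw [← h3]
  exact h2

theorem not_opn_of_closed (hl : c.MinPer l) (h : c.PerOK l T)
    (sX : (∃ r ∈ X.x.Z, ∃ r' ∈ c.Z, Al X.x c r r') → X.x = c)
    (sY : (∃ r ∈ Y.x.Z, ∃ r' ∈ c.Z, Al Y.x c r r') → Y.x = c)
    (hc : (rdat c l X Y a b).Closed (SAlg.EM T.toLinearMap)) : ¬ (bpr X Y a b).Opn (c.ME l T h) := by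
  rintro ⟨f, G, hf, hG, hne⟩
  apply hne
  change X.M.C →ₗ[k] (c.ME l T h).C at f
  change (c.ME l T h).C →ₗ[k] Y.M.C at G
  change X.M.Hom (c.ME l T h) f at hf
  change (c.ME l T h).Hom Y.M G at hG
  show b (G (f a)) = 0
  rcases split_left hl h sX hf with hF | ⟨hX, h₁, φ, hφ, e, he, hF, hfm⟩
  · rcases split_right hl h sY hG with hFG | ⟨hY, h₂, ψ, hψ, e', he', hFG, hGm⟩
    · exact val_ff hl h hc hf hF hG hFG
    · have t1 := val_ff hl h hc hf hF (hl2_sub hG hGm) hFG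
      have t2 := val_fi hl h hc hY h₂ ψ hψ e' he' hf hF
      rw [LinearMap.sub_apply, map_sub, sub_eq_zero] at t1
      rw [t1]
      exact t2
  · have hfs := hl2_sub hf hfm
    have hsum : f a = (f - mpE h₁ h φ hφ ∘ₗ e.toLinearMap) a + mpE h₁ h φ hφ (e a) := by
      rw [LinearMap.sub_apply]
      exact (sub_add_cancel _ _).symm
    rcases split_right hl h sY hG with hFG | ⟨hY, h₂, ψ, hψ, e', he', hFG, hGm⟩
    · rw [hsum, map_add, map_add, val_ff hl h hc hfs hF hG hFG,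
        val_if hl h hc hX h₁ φ hφ e he hG hFG, add_zero]
    · have hGs := hl2_sub hG hGm
      have t1 := val_ff hl h hc hfs hF hGs hFG
      have t2 := val_if hl h hc hX h₁ φ hφ e he hGs hFG
      have t3 := val_fi hl h hc hY h₂ ψ hψ e' he' hfs hF
      have t4 := val_ii hl h hc hX h₁ φ hφ e he hY h₂ ψ hψ e' he'
      rw [LinearMap.sub_apply, map_sub, sub_eq_zero] at t1 t2
      rw [hsum, map_add, map_add, t1, t2]
      have t5 : b ((e'.toLinearMap ∘ₗ mpE h h₂ ψ hψ) ((f - mpE h₁ h φ hφ ∘ₗ e.toLinearMap) a)) = 0 := t3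
      have t6 : b ((e'.toLinearMap ∘ₗ mpE h h₂ ψ hψ) (mpE h₁ h φ hφ (e a))) = 0 := t4
      rw [t5, t6, add_zero]

end

end StrAlg
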