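import Mathlib

/-!
# MP_b9fd58_lc, stream T: periodic sequences of linear relations (I)

`BRel`: an `l`-periodic sequence of linear relations on a vector space `N`; chains; the dual
sequence on the dual space; division of one-sided sequences by polynomials.
-/

set_option autoImplicit false

namespace SAlg

open Finset

universe u v

variable {k : Type u} [Field k]

/-- An `l`-periodic sequence of linear relations `R p ≤ N × N` between the images of the
idempotents `e p` and `e (p + 1)`. -/
structure BRel (k : Type u) (N : Type v) [Field k] [AddCommGroup N] [Module k N] where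
  l : ℕ
  l_pos : 0 < l
  e : ℤ → N →ₗ[k] N
  R : ℤ → Submodule k (N × N)
  e_idem : ∀ p x, e p (e p x) = e p x
  e_per : ∀ p, e (p + l) = e p
  R_per : ∀ p, R (p + l) = R p
  R_left : ∀ p x y, (x, y) ∈ R p → e p x = x
  R_right : ∀ p x y, (x, y) ∈ R p → e (p + 1) y = y

namespace BRel

variable {N : Type v} [AddCommGroup N] [Module k N] (B : BRel k N)

theorem e_per_mul (p : ℤ) (i : ℤ) : B.e (p + B.l * i) = B.e p := by
  induction i using Int.induction_on with
  | zero => simp
  | succ i ih =>
    have : p + B.l * ((i : ℤ) + 1) = (p + B.l * i) + B.l := by ring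
    rw [this, B.e_per, ih]
  | pred i ih =>
    have h := B.e_per (p + B.l * (-(i : ℤ) - 1))
    have : p + B.l * (-(i : ℤ) - 1) + B.l = p + B.l * (-(i : ℤ)) := by ring
    rw [this, ih] at h
    exact h.symm

theorem R_per_mul (p : ℤ) (i : ℤ) : B.R (p + B.l * i) = B.R p := by
  induction i using Int.induction_on with
  | zero => simp
  | succ i ih =>
    have : p + B.l * ((i : ℤ) + 1) = (p + B.l * i) + B.l := by ring
    rw [this, B.R_per, ih]
  | pred i ih =>
    have h := B.R_per (p + B.l * (-(i : ℤ) - 1))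
    have : p + B.l * (-(i : ℤ) - 1) + B.l = p + B.l * (-(i : ℤ)) := by ring
    rw [this, ih] at h
    exact h.symm

/-- The reversed sequence. -/
def rev : BRel k N where
  l := B.l
  l_pos := B.l_pos
  e p := B.e (-p)
  R p := (B.R (-p - 1)).map (LinearEquiv.prodComm k N N).toLinearMap
  e_idem p x := B.e_idem (-p) x
  e_per p := by
    have h := B.e_per_mul (-p) (-1)
    rw [← h]
    congr 1
    ring
  R_per p := by
    have h := B.R_per_mul (-p - 1) (-1)
    rw [show -(p + (B.l : ℤ)) - 1 = -p - 1 + B.l * (-1) by ring, h]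
  R_left p x y h := by
    obtain ⟨⟨a, b⟩, hab, hxy⟩ := h
    simp only [LinearEquiv.coe_coe, LinearEquiv.prodComm_apply, Prod.swap_prod_mk,
      Prod.mk.injEq] at hxy
    obtain ⟨rfl, rfl⟩ := hxy
    have := B.R_right _ _ _ hab
    rwa [show -p - 1 + 1 = -p by ring] at this
  R_right p x y h := by
    obtain ⟨⟨a, b⟩, hab, hxy⟩ := h
    simp only [LinearEquiv.coe_coe, LinearEquiv.prodComm_apply, Prod.swap_prod_mk,
      Prod.mk.injEq] at hxy
    obtain ⟨rfl, rfl⟩ := hxy
    have := B.R_left _ _ _ hab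
    rwa [show -p - 1 = -(p + 1) by ring] at this

theorem mem_rev (p : ℤ) (x y : N) : (x, y) ∈ B.rev.R p ↔ (y, x) ∈ B.R (-p - 1) := by
  constructor
  · rintro ⟨⟨a, b⟩, hab, hxy⟩
    simp only [LinearEquiv.coe_coe, LinearEquiv.prodComm_apply, Prod.swap_prod_mk,
      Prod.mk.injEq] at hxy
    obtain ⟨rfl, rfl⟩ := hxy
    exact hab
  · intro h
    exact ⟨(y, x), h, rfl⟩

/-- The dual sequence. -/
def dual : BRel k (Module.Dual k N) where
  l := B.l
  l_pos := B.l_pos
  e p := (B.e p).dualMap
  R p :=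
    { carrier := {z | (∀ x y, (x, y) ∈ B.R p → z.1 x = z.2 y) ∧ (∀ x, z.1 (B.e p x) = z.1 x) ∧
        ∀ x, z.2 (B.e (p + 1) x) = z.2 x}
      add_mem' := by
        rintro ⟨a, b⟩ ⟨c, d⟩ ⟨h1, h2, h3⟩ ⟨h4, h5, h6⟩
        refine ⟨fun x y h => ?_, fun x => ?_, fun x => ?_⟩
        · simp only [Prod.mk_add_mk, LinearMap.add_apply]
          rw [h1 x y h, h4 x y h]
        · simp only [Prod.mk_add_mk, LinearMap.add_apply]
          rw [h2, h5]
        · simp only [Prod.mk_add_mk, LinearMap.add_apply]
          rw [h3, h6]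
      zero_mem' := by simp
      smul_mem' := by
        rintro c ⟨a, b⟩ ⟨h1, h2, h3⟩
        refine ⟨fun x y h => ?_, fun x => ?_, fun x => ?_⟩
        · simp only [Prod.smul_mk, LinearMap.smul_apply]
          rw [h1 x y h]
        · simp only [Prod.smul_mk, LinearMap.smul_apply]
          rw [h2]
        · simp only [Prod.smul_mk, LinearMap.smul_apply]
          rw [h3] }
  e_idem p x := by
    ext n
    simp [B.e_idem]
  e_per p := by rw [B.e_per]
  R_per p := by
    have h1 : B.e (p + B.l + 1) = B.e (p + 1) := by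
      rw [show p + (B.l : ℤ) + 1 = (p + 1) + B.l by ring, B.e_per]
    ext z
    simp only [Submodule.mem_mk, AddSubmonoid.mem_mk, AddSubsemigroup.mem_mk, Set.mem_ofPred_eq,
      B.R_per, B.e_per, h1]
  R_left p x y h := by
    ext n
    exact h.2.1 n
  R_right p x y h := by
    ext n
    exact h.2.2 n

theorem mem_dual (p : ℤ) (a b : Module.Dual k N) : (a, b) ∈ B.dual.R p ↔
    (∀ x y, (x, y) ∈ B.R p → a x = b y) ∧ (∀ x, a (B.e p x) = a x) ∧
      ∀ x, b (B.e (p + 1) x) = b x := Iff.rfl

end BRel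

/-- Division (upwards): for a sequence `m` which vanishes below `a` there is a sequence `n` which
vanishes below `a`, with `∑_{i ≤ D} c i • n (p - l i) = m p`. -/
theorem exists_div {N : Type v} [AddCommGroup N] [Module k N] (l : ℕ) (hl : 0 < l) (D : ℕ)
    (c : ℕ → k) (hc : c 0 ≠ 0) (m : ℤ → N) (a : ℤ) (ha : ∀ p < a, m p = 0) :
    ∃ n : ℤ → N, (∀ p < a, n p = 0) ∧
      ∀ p, ∑ i ∈ range (D + 1), c i • n (p - l * i) = m p := by
  -- recursive definition of `f t = n (a + t)`
  let F : (t : ℕ) → ((s : ℕ) → s < t → N) → N := fun t f =>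
    (c 0)⁻¹ • (m (a + t) - ∑ i ∈ range D, c (i + 1) •
      if h : l * (i + 1) ≤ t then f (t - l * (i + 1)) (by
        have : 0 < l * (i + 1) := Nat.mul_pos hl (Nat.succ_pos i)
        omega) else 0)
  let f : ℕ → N := WellFounded.fix Nat.lt_wfRel.wf F
  have hf : ∀ t : ℕ, f t = (c 0)⁻¹ • (m (a + t) - ∑ i ∈ range D, c (i + 1) •
      if l * (i + 1) ≤ t then f (t - l * (i + 1)) else 0) := by
    intro t
    have h := WellFounded.fix_eq Nat.lt_wfRel.wf F t
    simp only [F, dite_eq_ite] at h
    exact h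
  refine ⟨fun p => if p < a then 0 else f (p - a).toNat, fun p hp => if_pos hp, fun p => ?_⟩
  rw [Finset.sum_range_succ']
  by_cases hp : p < a
  · rw [ha p hp, Finset.sum_eq_zero, zero_add]
    · simp [hp]
    · intro i _
      have : p - (l : ℤ) * ((i + 1 : ℕ) : ℤ) < a := by
        have : (0 : ℤ) ≤ (l : ℤ) * ((i + 1 : ℕ) : ℤ) := by positivity
        linarith
      simp only [this, if_true, smul_zero]
  · push Not at hp
    obtain ⟨t, ht⟩ := Int.eq_ofNat_of_zero_le (sub_nonneg.2 hp)
    have hp' : p = a + t := by linarith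
    have h0 : ¬ (p - (l : ℤ) * ((0 : ℕ) : ℤ) < a) := by
      rw [Nat.cast_zero, mul_zero, sub_zero]
      exact not_lt.2 hp
    have h1 : (p - (l : ℤ) * ((0 : ℕ) : ℤ) - a).toNat = t := by
      rw [Nat.cast_zero, mul_zero, sub_zero, hp']
      simp
    simp only [h0, if_false, h1]
    rw [hf t, smul_smul, mul_inv_cancel₀ hc, one_smul, ← hp']
    have h2 : ∀ i ∈ range D, (c (i + 1) • if p - (l : ℤ) * ((i + 1 : ℕ) : ℤ) < a then (0 : N) else
        f (p - (l : ℤ) * ((i + 1 : ℕ) : ℤ) - a).toNat) =
        c (i + 1) • if l * (i + 1) ≤ t then f (t - l * (i + 1)) else 0 := by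
      intro i _
      congr 1
      have h3 : p - (l : ℤ) * ((i + 1 : ℕ) : ℤ) < a ↔ ¬ (l * (i + 1) ≤ t) := by
        rw [hp']
        constructor
        · intro h hle
          have : ((l * (i + 1) : ℕ) : ℤ) ≤ t := by exact_mod_cast hle
          push_cast at this h
          linarith
        · intro h
          have : (t : ℤ) < ((l * (i + 1) : ℕ) : ℤ) := by exact_mod_cast not_le.1 h
          push_cast at this ⊢
          linarith
      by_cases h4 : l * (i + 1) ≤ t
      · rw [if_neg (fun h => h3.1 h h4), if_pos h4]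
        congr 1
        rw [hp']
        have : ((l * (i + 1) : ℕ) : ℤ) ≤ t := by exact_mod_cast h4
        push_cast at this ⊢
        have h5 : a + (t : ℤ) - (l : ℤ) * ((i : ℤ) + 1) - a = ((t - l * (i + 1) : ℕ) : ℤ) := by
          rw [Nat.cast_sub h4]
          push_cast
          ring
        rw [h5, Int.toNat_natCast]
      · rw [if_pos (h3.2 h4), if_neg h4]
    rw [Finset.sum_congr rfl h2]
    abel

/-- The quotient is unique. -/
theorem div_unique {N : Type v} [AddCommGroup N] [Module k N] (l : ℕ) (hl : 0 < l) (D : ℕ)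
    (c : ℕ → k) (hc : c 0 ≠ 0) (n : ℤ → N) (a : ℤ) (ha : ∀ p < a, n p = 0)
    (b : ℤ) (h : ∀ p < b, ∑ i ∈ range (D + 1), c i • n (p - l * i) = 0) : ∀ p < b, n p = 0 := by
  have key : ∀ (t : ℕ) (p : ℤ), p < a + t → p < b → n p = 0 := by
    intro t
    induction t with
    | zero => intro p hp _; exact ha p (by simpa using hp)
    | succ t ih =>
      intro p hp hpb
      have h1 := h p hpb
      rw [Finset.sum_range_succ'] at h1
      have h2 : ∑ i ∈ range D, c (i + 1) • n (p - l * ((i + 1 : ℕ) : ℤ)) = 0 := by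
        apply Finset.sum_eq_zero
        intro i _
        have h3 : (1 : ℤ) ≤ (l : ℤ) * ((i + 1 : ℕ) : ℤ) := by
          have : 1 ≤ l * (i + 1) := Nat.mul_pos hl (Nat.succ_pos i)
          exact_mod_cast this
        rw [ih _ (by push_cast at hp ⊢; push_cast at h3; linarith) (by linarith), smul_zero]
      rw [h2, zero_add, Nat.cast_zero, mul_zero, sub_zero] at h1
      exact (smul_eq_zero.1 h1).resolve_left hc
  intro p hp
  exact key (p - a + 1).toNat p (by
    have := Int.self_le_toNat (p - a + 1)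
    linarith) hp

namespace BRel

variable {N : Type v} [AddCommGroup N] [Module k N] (B : BRel k N)

/-- The quotient of a (partial) chain by a polynomial is a (partial) chain. -/
theorem div_chain (D : ℕ) (c : ℕ → k) (hc : c 0 ≠ 0) (m n : ℤ → N) (a : ℤ)
    (ha : ∀ p < a, n p = 0)
    (hn : ∀ p, ∑ i ∈ range (D + 1), c i • n (p - B.l * i) = m p) (b : ℤ)
    (hm : ∀ p < b, (m p, m (p + 1)) ∈ B.R p) : ∀ p < b, (n p, n (p + 1)) ∈ B.R p := by
  have key : ∀ (t : ℕ) (p : ℤ), p + 1 < a + t → p < b → (n p, n (p + 1)) ∈ B.R p := by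
    intro t
    induction t with
    | zero =>
      intro p hp _
      rw [ha p (by push_cast at hp; linarith), ha (p + 1) (by simpa using hp)]
      exact (B.R p).zero_mem
    | succ t ih =>
      intro p hp hpb
      have h1 := hn p
      have h2 := hn (p + 1)
      rw [Finset.sum_range_succ'] at h1 h2
      rw [Nat.cast_zero, mul_zero, sub_zero] at h1 h2
      have e1 : n p = (c 0)⁻¹ • (m p - ∑ i ∈ range D, c (i + 1) •
          n (p - B.l * ((i + 1 : ℕ) : ℤ))) := by
        rw [← h1, add_sub_cancel_left, smul_smul, inv_mul_cancel₀ hc, one_smul]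
      have e2 : n (p + 1) = (c 0)⁻¹ • (m (p + 1) - ∑ i ∈ range D, c (i + 1) •
          n (p + 1 - B.l * ((i + 1 : ℕ) : ℤ))) := by
        rw [← h2, add_sub_cancel_left, smul_smul, inv_mul_cancel₀ hc, one_smul]
      rw [e1, e2, ← Prod.smul_mk]
      apply Submodule.smul_mem
      rw [← Prod.mk_sub_mk]
      apply Submodule.sub_mem _ (hm p hpb)
      have h3 : (∑ i ∈ range D, c (i + 1) • n (p - B.l * ((i + 1 : ℕ) : ℤ)),
          ∑ i ∈ range D, c (i + 1) • n (p + 1 - B.l * ((i + 1 : ℕ) : ℤ))) =
          ∑ i ∈ range D, c (i + 1) • (n (p - B.l * ((i + 1 : ℕ) : ℤ)),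
            n (p - B.l * ((i + 1 : ℕ) : ℤ) + 1)) := by
        rw [Prod.ext_iff]
        simp only [Prod.fst_sum, Prod.snd_sum, Prod.smul_mk, true_and]
        apply Finset.sum_congr rfl
        intro i _
        congr 2
        ring
      rw [h3]
      apply Submodule.sum_mem
      intro i _
      apply Submodule.smul_mem
      have h4 : B.R (p - B.l * ((i + 1 : ℕ) : ℤ)) = B.R p := by
        have := B.R_per_mul p (-((i + 1 : ℕ) : ℤ))
        rw [← this]
        congr 1
      rw [← h4]
      have h5 : (1 : ℤ) ≤ (B.l : ℤ) * ((i + 1 : ℕ) : ℤ) := by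
        have : 1 ≤ B.l * (i + 1) := Nat.mul_pos B.l_pos (Nat.succ_pos i)
        exact_mod_cast this
      exact ih _ (by push_cast at hp h5 ⊢; linarith) (by linarith)
  intro p hp
  exact key (p - a + 2).toNat p (by
    have := Int.self_le_toNat (p - a + 2)
    linarith) hp

end BRel

end SAlg
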