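import Pool.Agent.Lib.MP_b9fd58_lc.R.AlgA
import Pool.Agent.Lib.MP_b9fd58_lc.R.RelA
import Pool.Agent.Lib.MP_b9fd58_lc.R.EM

/-!
# MP_b9fd58_lc, stream T: periodic sequences of linear relations (II)

The `k[X]`-modules `QX` (chains) and `PX`, the map `nu`, its kernel `K0`, divisibility of `K0`.
-/

set_option autoImplicit false

namespace SAlg

open Finset Polynomial Module

universe u v w

variable {k : Type u} [Field k]

theorem sum_reflect' {M : Type*} [AddCommMonoid M] (f : ℕ → M) (d : ℕ) :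
    ∑ i ∈ range (d + 1), f (d - i) = ∑ i ∈ range (d + 1), f i := by
  have := Finset.sum_range_reflect f (d + 1)
  rw [← this]
  apply Finset.sum_congr rfl
  intro i hi
  rw [Finset.mem_range] at hi
  congr 1

/-- Division of a sequence which vanishes on the left, sign `+`. -/
theorem solveL {N : Type v} [AddCommGroup N] [Module k N] (B : BRel k N) (r : k[X]) (hr : r ≠ 0)
    (m : ℤ → N) (a : ℤ) (ha : ∀ p < a, m p = 0) :
    ∃ (n : ℤ → N) (a' : ℤ), (∀ p < a', n p = 0) ∧
      (∀ p, ∑ i ∈ range (r.natDegree + 1), r.coeff i • n (p + B.l * i) = m p) ∧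
      ∀ b, (∀ p < b, (m p, m (p + 1)) ∈ B.R p) → ∀ p < b, (n p, n (p + 1)) ∈ B.R p := by
  set d := r.natDegree with hd
  obtain ⟨n, hn0, hn⟩ := exists_div B.l B.l_pos d (fun i => r.coeff (d - i))
    (by simpa [hd] using hr) (fun p => m (p - B.l * d)) (a + B.l * d)
    (fun p hp => ha _ (by linarith))
  refine ⟨n, a + B.l * d, hn0, fun p => ?_, fun b hb => ?_⟩
  · have h1 := hn (p + B.l * d)
    rw [show p + (B.l : ℤ) * (d : ℤ) - B.l * d = p by ring] at h1
    rw [← h1, ← sum_reflect']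
    apply Finset.sum_congr rfl
    intro i hi
    rw [Finset.mem_range] at hi
    congr 2
    rw [Nat.cast_sub (by omega)]
    ring
  · have h2 := B.div_chain d (fun i => r.coeff (d - i)) (by simpa [hd] using hr)
      (fun p => m (p - B.l * d)) n (a + B.l * d) hn0 hn (b + B.l * d) (fun p hp => by
        have h3 := hb (p - B.l * d) (by linarith)
        have h4 : B.R (p - B.l * d) = B.R p := by
          have := B.R_per_mul p (-(d : ℤ))
          rw [← this]
          congr 1
          ring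
        rw [h4] at h3
        rw [show p + 1 - (B.l : ℤ) * (d : ℤ) = p - B.l * d + 1 by ring]
        exact h3)
    intro p hp
    apply h2
    have : (0 : ℤ) ≤ B.l * d := by positivity
    linarith

/-- Division of a sequence which vanishes on the left, sign `-`. -/
theorem solveL' {N : Type v} [AddCommGroup N] [Module k N] (B : BRel k N) (r : k[X]) (hr : r ≠ 0)
    (m : ℤ → N) (a : ℤ) (ha : ∀ p < a, m p = 0) :
    ∃ (n : ℤ → N) (a' : ℤ), (∀ p < a', n p = 0) ∧
      (∀ p, ∑ i ∈ range (r.natDegree + 1), r.coeff i • n (p - B.l * i) = m p) ∧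
      ∀ b, (∀ p < b, (m p, m (p + 1)) ∈ B.R p) →
        ∀ p < b - B.l * r.natDegree, (n p, n (p + 1)) ∈ B.R p := by
  set j := r.natTrailingDegree with hj
  obtain ⟨D, hD⟩ : ∃ D, r.natDegree = j + D :=
    Nat.exists_eq_add_of_le r.natTrailingDegree_le_natDegree
  have hc0 : r.coeff (j + 0) ≠ 0 := by
    rw [Nat.add_zero]
    exact mt Polynomial.trailingCoeff_eq_zero.1 hr
  obtain ⟨n, hn0, hn⟩ := exists_div B.l B.l_pos D (fun i => r.coeff (j + i)) hc0
    (fun p => m (p + B.l * j)) (a - B.l * j)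
    (fun p hp => ha _ (by linarith))
  refine ⟨n, a - B.l * j, hn0, fun p => ?_, fun b hb => ?_⟩
  · have h1 := hn (p - B.l * j)
    rw [show p - (B.l : ℤ) * (j : ℤ) + B.l * j = p by ring] at h1
    rw [← h1, hD, show j + D + 1 = j + (D + 1) by ring, Finset.sum_range_add]
    have h2 : ∑ i ∈ range j, r.coeff i • n (p - B.l * i) = 0 := by
      apply Finset.sum_eq_zero
      intro i hi
      rw [Finset.mem_range] at hi
      rw [Polynomial.coeff_eq_zero_of_lt_natTrailingDegree hi, zero_smul]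
    rw [h2, zero_add]
    apply Finset.sum_congr rfl
    intro i _
    congr 2
    push_cast
    ring
  · have h2 := B.div_chain D (fun i => r.coeff (j + i)) hc0
      (fun p => m (p + B.l * j)) n (a - B.l * j) hn0 hn (b - B.l * j) (fun p hp => by
        have h3 := hb (p + B.l * j) (by linarith)
        rw [B.R_per_mul p j] at h3
        rw [show p + 1 + (B.l : ℤ) * (j : ℤ) = p + B.l * j + 1 by ring]
        exact h3)
    intro p hp
    apply h2
    rw [hD] at hp
    push_cast at hp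
    have : (0 : ℤ) ≤ B.l * D := by positivity
    linarith

namespace BRel

variable {N : Type v} [AddCommGroup N] [Module k N] (B : BRel k N)

/-- The chains. -/
def Ch : Submodule k (ℤ → N) where
  carrier := {n | ∀ p, (n p, n (p + 1)) ∈ B.R p}
  add_mem' ha hb p := (B.R p).add_mem (ha p) (hb p)
  zero_mem' p := (B.R p).zero_mem
  smul_mem' c _ ha p := (B.R p).smul_mem c (ha p)

theorem mem_Ch (n : ℤ → N) : n ∈ B.Ch ↔ ∀ p, (n p, n (p + 1)) ∈ B.R p := Iff.rfl

/-- The shift on the chains. -/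
def T : B.Ch ≃ₗ[k] B.Ch where
  toFun n := ⟨fun p => n.1 (p + B.l), fun p => by
    have h := n.2 (p + B.l)
    rw [B.R_per] at h
    show (n.1 (p + B.l), n.1 (p + 1 + B.l)) ∈ B.R p
    rw [show p + 1 + (B.l : ℤ) = p + B.l + 1 by ring]
    exact h⟩
  invFun n := ⟨fun p => n.1 (p - B.l), fun p => by
    have h := n.2 (p - B.l)
    have h2 := B.R_per (p - B.l)
    rw [sub_add_cancel] at h2
    rw [← h2] at h
    show (n.1 (p - B.l), n.1 (p + 1 - B.l)) ∈ B.R p
    rw [show p + 1 - (B.l : ℤ) = p - B.l + 1 by ring]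
    exact h⟩
  map_add' a b := rfl
  map_smul' c a := rfl
  left_inv n := Subtype.ext (funext fun p => by simp)
  right_inv n := Subtype.ext (funext fun p => by simp)

theorem T_apply (n : B.Ch) (p : ℤ) : (B.T n).1 p = n.1 (p + B.l) := rfl

/-- The module of chains. -/
abbrev QX := EM (B.T : B.Ch →ₗ[k] B.Ch)

/-- the terms of a chain -/
def val (x : B.QX) (p : ℤ) : N := ((EM.of (B.T : B.Ch →ₗ[k] B.Ch)).symm x).1 p

/-- a chain as an element of `QX` -/
def mkQ (n : ℤ → N) (h : ∀ p, (n p, n (p + 1)) ∈ B.R p) : B.QX :=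
  EM.of (B.T : B.Ch →ₗ[k] B.Ch) ⟨n, h⟩

@[simp] theorem val_mkQ (n : ℤ → N) (h : ∀ p, (n p, n (p + 1)) ∈ B.R p) (p : ℤ) :
    B.val (B.mkQ n h) p = n p := by
  simp [val, mkQ]

theorem val_rel (x : B.QX) (p : ℤ) : (B.val x p, B.val x (p + 1)) ∈ B.R p :=
  ((EM.of (B.T : B.Ch →ₗ[k] B.Ch)).symm x).2 p

theorem val_e (x : B.QX) (p : ℤ) : B.e p (B.val x p) = B.val x p := B.R_left _ _ _ (B.val_rel x p)

theorem ext_val {x y : B.QX} (h : ∀ p, B.val x p = B.val y p) : x = y := by
  apply (EM.of (B.T : B.Ch →ₗ[k] B.Ch)).symm.injective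
  exact Subtype.ext (funext h)

@[simp] theorem val_zero (p : ℤ) : B.val 0 p = 0 := by simp [val]

@[simp] theorem val_add (x y : B.QX) (p : ℤ) : B.val (x + y) p = B.val x p + B.val y p := by
  simp [val]

@[simp] theorem val_sub (x y : B.QX) (p : ℤ) : B.val (x - y) p = B.val x p - B.val y p := by
  simp [val]

@[simp] theorem val_smul (c : k) (x : B.QX) (p : ℤ) : B.val (c • x) p = c • B.val x p := by
  simp [val]

theorem val_X (x : B.QX) (p : ℤ) : B.val ((X : k[X]) • x) p = B.val x (p + B.l) := by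
  simp only [val, EM.of_symm_X_smul]
  rfl

theorem val_X_pow (i : ℕ) (x : B.QX) (p : ℤ) :
    B.val ((X ^ i : k[X]) • x) p = B.val x (p + B.l * i) := by
  induction i generalizing p with
  | zero => simp
  | succ i ih =>
    rw [pow_succ', mul_smul, val_X, ih]
    congr 1
    push_cast
    ring

theorem val_sum {ι : Type*} (s : Finset ι) (f : ι → B.QX) (p : ℤ) :
    B.val (∑ i ∈ s, f i) p = ∑ i ∈ s, B.val (f i) p := by
  classical
  induction s using Finset.induction_on with
  | empty => simp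
  | insert a s ha ih => rw [Finset.sum_insert ha, Finset.sum_insert ha, val_add, ih]

theorem val_poly (r : k[X]) (x : B.QX) (p : ℤ) :
    B.val (r • x) p = ∑ i ∈ range (r.natDegree + 1), r.coeff i • B.val x (p + B.l * i) := by
  rw [poly_smul_eq r x, val_sum]
  apply Finset.sum_congr rfl
  intro i _
  rw [val_smul, val_X_pow]

/-- chains which vanish on the left -/
def Kl : Submodule k[X] B.QX where
  carrier := {x | ∃ a : ℤ, ∀ p < a, B.val x p = 0}
  add_mem' := by
    rintro x y ⟨a, ha⟩ ⟨b, hb⟩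
    refine ⟨min a b, fun p hp => ?_⟩
    rw [val_add, ha p (lt_of_lt_of_le hp (min_le_left _ _)),
      hb p (lt_of_lt_of_le hp (min_le_right _ _)), add_zero]
  zero_mem' := ⟨0, fun p _ => by simp⟩
  smul_mem' := by
    rintro r x ⟨a, ha⟩
    refine ⟨a - B.l * r.natDegree, fun p hp => ?_⟩
    rw [val_poly]
    apply Finset.sum_eq_zero
    intro i hi
    rw [Finset.mem_range] at hi
    rw [ha, smul_zero]
    have h1 : (B.l : ℤ) * i ≤ B.l * r.natDegree := by
      apply mul_le_mul_of_nonneg_left _ (by positivity)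
      exact_mod_cast Nat.lt_succ_iff.1 hi
    linarith

/-- chains which vanish on the right -/
def Kr : Submodule k[X] B.QX where
  carrier := {x | ∃ a : ℤ, ∀ p, a < p → B.val x p = 0}
  add_mem' := by
    rintro x y ⟨a, ha⟩ ⟨b, hb⟩
    refine ⟨max a b, fun p hp => ?_⟩
    rw [val_add, ha p (lt_of_le_of_lt (le_max_left _ _) hp),
      hb p (lt_of_le_of_lt (le_max_right _ _) hp), add_zero]
  zero_mem' := ⟨0, fun p _ => by simp⟩
  smul_mem' := by
    rintro r x ⟨a, ha⟩
    refine ⟨a, fun p hp => ?_⟩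
    rw [val_poly]
    apply Finset.sum_eq_zero
    intro i _
    rw [ha, smul_zero]
    have h1 : (0 : ℤ) ≤ (B.l : ℤ) * i := by positivity
    linarith

/-- the sum of the chains which vanish on one side -/
noncomputable def K0 : Submodule k[X] B.QX := B.Kl ⊔ B.Kr

theorem Kl_div (r : k[X]) (hr : r ≠ 0) (x : B.QX) (hx : x ∈ B.Kl) : ∃ y ∈ B.Kl, r • y = x := by
  obtain ⟨a, ha⟩ := hx
  obtain ⟨n, a', hn0, hn, hch⟩ := solveL B r hr (B.val x) a ha
  have hc : ∀ p, (n p, n (p + 1)) ∈ B.R p := fun p =>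
    hch (p + 1) (fun q _ => B.val_rel x q) p (by linarith)
  refine ⟨B.mkQ n hc, ⟨a', fun p hp => by rw [val_mkQ, hn0 p hp]⟩, B.ext_val fun p => ?_⟩
  rw [val_poly, ← hn p]
  apply Finset.sum_congr rfl
  intro i _
  rw [val_mkQ]

theorem Kr_div (r : k[X]) (hr : r ≠ 0) (x : B.QX) (hx : x ∈ B.Kr) : ∃ y ∈ B.Kr, r • y = x := by
  obtain ⟨a, ha⟩ := hx
  obtain ⟨n, a', hn0, hn, hch⟩ := solveL' B.rev r hr (fun p => B.val x (-p)) (-a)
    (fun p hp => ha _ (by linarith))
  have hl : B.rev.l = B.l := rfl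
  have hc : ∀ p, (n (-p), n (-(p + 1))) ∈ B.R p := fun p => by
    have h1 := hch (-p + B.rev.l * r.natDegree) (fun q _ => by
      rw [mem_rev]
      have := B.val_rel x (-q - 1)
      rw [show -q - 1 + 1 = -q by ring] at this
      rw [show -(q + 1) = -q - 1 by ring]
      exact this) (-p - 1) (by linarith)
    rw [mem_rev] at h1
    rw [show -(-p - 1) - 1 = p by ring] at h1
    rw [show -(p + 1) = -p - 1 by ring]
    rw [show -p - 1 + 1 = -p by ring] at h1
    exact h1
  refine ⟨B.mkQ (fun p => n (-p)) hc, ⟨-a', fun p hp => by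
    rw [val_mkQ, hn0 _ (by linarith)]⟩, B.ext_val fun p => ?_⟩
  have h2 := hn (-p)
  rw [neg_neg] at h2
  rw [val_poly, ← h2]
  apply Finset.sum_congr rfl
  intro i _
  rw [val_mkQ, hl]
  congr 2
  ring

theorem K0_div (r : k[X]) (hr : r ≠ 0) (x : B.QX) (hx : x ∈ B.K0) : ∃ y ∈ B.K0, r • y = x := by
  obtain ⟨a, ha, b, hb, rfl⟩ := Submodule.mem_sup.1 hx
  obtain ⟨a', ha', rfl⟩ := B.Kl_div r hr a ha
  obtain ⟨b', hb', rfl⟩ := B.Kr_div r hr b hb
  exact ⟨a' + b', Submodule.add_mem_sup ha' hb', smul_add _ _ _⟩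

/-- the complement of `K0` -/
theorem exists_compl : ∃ W : Submodule k[X] B.QX, IsCompl B.K0 W :=
  compl_of_divisible (R := k[X]) (Q := B.QX) B.K0 B.K0_div

end BRel

end SAlg
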