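import Pool.Agent.Lib.MP_b9fd58_lc.R.RelB

/-!
# MP_b9fd58_lc, stream T: periodic sequences of linear relations (III)

The `k[X]`-module `PX`, the map `nu : QX → PX`, its kernel.
-/

set_option autoImplicit false

namespace SAlg

open Finset Polynomial Module

universe u v w

variable {k : Type u} [Field k]

namespace BRel

variable {N : Type v} [AddCommGroup N] [Module k N] (B : BRel k N)

/-- the relations of `PX` -/
noncomputable def Lsub : Submodule k (ℤ →₀ N) :=
  Submodule.span k ({z | ∃ p x y, (x, y) ∈ B.R p ∧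
    z = Finsupp.single p x - Finsupp.single (p + 1) y} ∪
    {z | ∃ p n, z = Finsupp.single p n - Finsupp.single p (B.e p n)})

/-- the shift -/
noncomputable def S0 : (ℤ →₀ N) →ₗ[k] (ℤ →₀ N) := Finsupp.lmapDomain N k (fun p => p - B.l)

theorem S0_single (p : ℤ) (x : N) :
    B.S0 (Finsupp.single p x) = Finsupp.single (p - B.l) x := by
  simp [S0, Finsupp.lmapDomain_apply, Finsupp.mapDomain_single]

theorem Lsub_S0 : B.Lsub ≤ B.Lsub.comap B.S0 := by
  conv_lhs => rw [Lsub]
  rw [Submodule.span_le]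
  rintro z (⟨p, x, y, hxy, rfl⟩ | ⟨p, n, rfl⟩)
  · show B.S0 (Finsupp.single p x - Finsupp.single (p + 1) y) ∈ B.Lsub
    rw [map_sub, S0_single, S0_single]
    apply Submodule.subset_span
    left
    refine ⟨p - B.l, x, y, ?_, ?_⟩
    · have := B.R_per (p - B.l)
      rw [sub_add_cancel] at this
      rwa [← this]
    · rw [show p + 1 - (B.l : ℤ) = p - B.l + 1 by ring]
  · show B.S0 (Finsupp.single p n - Finsupp.single p (B.e p n)) ∈ B.Lsub
    rw [map_sub, S0_single, S0_single]
    apply Submodule.subset_span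
    right
    refine ⟨p - B.l, n, ?_⟩
    have := B.e_per (p - B.l)
    rw [sub_add_cancel] at this
    rw [← this]

/-- the coinvariants -/
abbrev P0 := (ℤ →₀ N) ⧸ B.Lsub

noncomputable def TP : B.P0 →ₗ[k] B.P0 := B.Lsub.mapQ B.Lsub B.S0 B.Lsub_S0

/-- the `k[X]`-module of the coinvariants -/
abbrev PX := EM B.TP

/-- the class of `n` at the position `p` -/
noncomputable def dl (p : ℤ) : N →ₗ[k] B.PX :=
  (EM.of B.TP).toLinearMap ∘ₗ B.Lsub.mkQ ∘ₗ Finsupp.lsingle p

theorem dl_X (p : ℤ) (x : N) : (X : k[X]) • B.dl p x = B.dl (p - B.l) x := by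
  simp only [dl, LinearMap.comp_apply, LinearEquiv.coe_coe, EM.X_smul_of]
  congr 1
  show B.TP (B.Lsub.mkQ (Finsupp.single p x)) = B.Lsub.mkQ (Finsupp.single (p - B.l) x)
  rw [← S0_single]
  rfl

theorem dl_X_pow (i : ℕ) (p : ℤ) (x : N) :
    (X ^ i : k[X]) • B.dl p x = B.dl (p - B.l * i) x := by
  induction i generalizing p with
  | zero => simp
  | succ i ih =>
    rw [pow_succ, mul_smul, dl_X, ih]
    congr 2
    push_cast
    ring

theorem dl_poly (r : k[X]) (p : ℤ) (x : N) :
    r • B.dl p x = ∑ i ∈ range (r.natDegree + 1), r.coeff i • B.dl (p - B.l * i) x := by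
  rw [poly_smul_eq r]
  apply Finset.sum_congr rfl
  intro i _
  rw [dl_X_pow]

theorem dl_rel {p : ℤ} {x y : N} (h : (x, y) ∈ B.R p) : B.dl p x = B.dl (p + 1) y := by
  rw [← sub_eq_zero]
  simp only [dl, LinearMap.comp_apply, LinearEquiv.coe_coe, ← map_sub]
  rw [LinearEquiv.map_eq_zero_iff, Submodule.mkQ_apply, Submodule.Quotient.mk_eq_zero]
  exact Submodule.subset_span (Or.inl ⟨p, x, y, h, rfl⟩)

theorem dl_e (p : ℤ) (n : N) : B.dl p (B.e p n) = B.dl p n := by
  symm
  rw [← sub_eq_zero]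
  simp only [dl, LinearMap.comp_apply, LinearEquiv.coe_coe, ← map_sub]
  rw [LinearEquiv.map_eq_zero_iff, Submodule.mkQ_apply, Submodule.Quotient.mk_eq_zero]
  refine Submodule.subset_span (Or.inr ⟨p, n, ?_⟩)
  rw [map_sub]
  rfl

/-- a representative -/
theorem exists_rep (x : B.PX) : ∃ z : ℤ →₀ N,
    x = EM.of B.TP (B.Lsub.mkQ z) ∧ x = z.sum fun p n => B.dl p n := by
  obtain ⟨z, hz⟩ := B.Lsub.mkQ_surjective ((EM.of B.TP).symm x)
  have h1 : x = EM.of B.TP (B.Lsub.mkQ z) := by
    rw [hz, LinearEquiv.apply_symm_apply]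
  refine ⟨z, h1, ?_⟩
  rw [h1]
  have h2 : ∀ z : ℤ →₀ N, EM.of B.TP (B.Lsub.mkQ z) = z.sum fun p n => B.dl p n := by
    intro z
    induction z using Finsupp.induction_linear with
    | zero => simp
    | add f g hf hg =>
      rw [map_add, map_add, hf, hg, Finsupp.sum_add_index']
      · intro p; simp
      · intro p a b; simp
    | single p n =>
      rw [Finsupp.sum_single_index (by simp)]
      rfl
  exact h2 z

/-- the universal property -/
noncomputable def lift {V : Type w} [AddCommGroup V] [Module k V] (f : ℤ → N →ₗ[k] V)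
    (h1 : ∀ p x y, (x, y) ∈ B.R p → f p x = f (p + 1) y) (h2 : ∀ p x, f p (B.e p x) = f p x) :
    B.PX →ₗ[k] V :=
  (B.Lsub.liftQ (Finsupp.lsum k f) (by
    rw [Lsub, Submodule.span_le]
    rintro z (⟨p, x, y, hxy, rfl⟩ | ⟨p, n, rfl⟩)
    · show Finsupp.lsum k f (Finsupp.single p x - Finsupp.single (p + 1) y) = 0
      rw [map_sub, Finsupp.lsum_single, Finsupp.lsum_single, h1 p x y hxy, sub_self]
    · show Finsupp.lsum k f (Finsupp.single p n - Finsupp.single p (B.e p n)) = 0
      rw [map_sub, Finsupp.lsum_single, Finsupp.lsum_single, h2, sub_self])) ∘ₗ (EM.of B.TP).symm.toLinearMap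

theorem lift_dl {V : Type w} [AddCommGroup V] [Module k V] (f : ℤ → N →ₗ[k] V)
    (h1 : ∀ p x y, (x, y) ∈ B.R p → f p x = f (p + 1) y) (h2 : ∀ p x, f p (B.e p x) = f p x)
    (p : ℤ) (x : N) : B.lift f h1 h2 (B.dl p x) = f p x := by
  simp only [lift, dl, LinearMap.comp_apply, LinearEquiv.coe_coe, LinearEquiv.symm_apply_apply]
  show Finsupp.lsum k f (Finsupp.single p x) = _
  simp

theorem dl_nat (x : B.QX) (t : ℕ) : B.dl 0 (B.val x 0) = B.dl t (B.val x t) := by
  induction t with
  | zero => rfl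
  | succ t ih =>
    rw [ih, B.dl_rel (B.val_rel x t)]
    push_cast
    rfl

/-- the map `nu` -/
noncomputable def nu : B.QX →ₗ[k[X]] B.PX :=
  ofX
    { toFun := fun x : B.QX => B.dl 0 (B.val x 0)
      map_add' := fun a b => by rw [val_add, map_add]
      map_smul' := fun c a => by rw [val_smul, map_smul, RingHom.id_apply] } (by
    intro x
    show B.dl 0 (B.val ((X : k[X]) • x) 0) = (X : k[X]) • B.dl 0 (B.val x 0)
    rw [B.dl_nat x B.l, dl_X, sub_self, val_X, zero_add])

theorem nu_apply (x : B.QX) : B.nu x = B.dl 0 (B.val x 0) := rfl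

theorem nu_nat (x : B.QX) (t : ℕ) : B.nu x = B.dl t (B.val x t) := B.dl_nat x t

theorem nu_neg (x : B.QX) (t : ℕ) : B.nu x = B.dl (-t) (B.val x (-t)) := by
  induction t with
  | zero => simp [nu_apply]
  | succ t ih =>
    have h1 := B.dl_rel (B.val_rel x (-((t + 1 : ℕ) : ℤ)))
    rw [h1, ih]
    have h2 : -((t + 1 : ℕ) : ℤ) + 1 = -(t : ℤ) := by push_cast; ring
    rw [h2]

theorem nu_eq (x : B.QX) (p : ℤ) : B.nu x = B.dl p (B.val x p) := by
  rcases Int.eq_nat_or_neg p with ⟨t, rfl | rfl⟩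
  · exact B.nu_nat x t
  · exact B.nu_neg x t

theorem nu_K0 (x : B.QX) (hx : x ∈ B.K0) : B.nu x = 0 := by
  obtain ⟨a, ⟨s, hs⟩, b, ⟨t, ht⟩, rfl⟩ := Submodule.mem_sup.1 hx
  rw [map_add, B.nu_eq a (s - 1), hs _ (by linarith), B.nu_eq b (t + 1), ht _ (by linarith)]
  simp

/-- structure of the relations -/
theorem Lsub_structure (z : ℤ →₀ N) (hz : z ∈ B.Lsub) : ∃ W : ℤ →₀ (N × N),
    (∀ p, W p ∈ B.R p) ∧ ∀ q, B.e q (z q) = (W q).1 - (W (q - 1)).2 := by
  classical
  induction hz using Submodule.span_induction with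
  | mem z hz =>
    rcases hz with ⟨p, x, y, hxy, rfl⟩ | ⟨p, n, rfl⟩
    · refine ⟨Finsupp.single p (x, y), fun q => ?_, fun q => ?_⟩
      · by_cases h : p = q
        · subst h
          simpa using hxy
        · rw [Finsupp.single_eq_of_ne (Ne.symm h)]
          exact (B.R q).zero_mem
      · rw [Finsupp.sub_apply, map_sub]
        by_cases h : p = q
        · subst h
          rw [Finsupp.single_eq_same, Finsupp.single_eq_same,
            Finsupp.single_eq_of_ne (by omega), Finsupp.single_eq_of_ne (by omega)]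
          simp [B.R_left _ _ _ hxy]
        · by_cases h' : p + 1 = q
          · subst h'
            rw [Finsupp.single_eq_of_ne (by omega), Finsupp.single_eq_same,
              Finsupp.single_eq_of_ne (by omega), add_sub_cancel_right, Finsupp.single_eq_same]
            simp [B.R_right _ _ _ hxy]
          · rw [Finsupp.single_eq_of_ne (by omega), Finsupp.single_eq_of_ne (by omega),
              Finsupp.single_eq_of_ne (by omega), Finsupp.single_eq_of_ne (by omega)]
            simp
    · refine ⟨0, fun q => (B.R q).zero_mem, fun q => ?_⟩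
      rw [Finsupp.sub_apply, map_sub]
      by_cases h : p = q
      · subst h
        simp [B.e_idem]
      · rw [Finsupp.single_eq_of_ne (by omega), Finsupp.single_eq_of_ne (by omega)]
        simp
  | zero => exact ⟨0, fun q => (B.R q).zero_mem, fun q => by simp⟩
  | add z z' _ _ h h' =>
    obtain ⟨W, h1, h2⟩ := h
    obtain ⟨W', h1', h2'⟩ := h'
    refine ⟨W + W', fun q => (B.R q).add_mem (h1 q) (h1' q), fun q => ?_⟩
    rw [Finsupp.add_apply, map_add, h2, h2', Finsupp.add_apply, Finsupp.add_apply]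
    simp only [Prod.fst_add, Prod.snd_add]
    abel
  | smul c z _ h =>
    obtain ⟨W, h1, h2⟩ := h
    refine ⟨c • W, fun q => (B.R q).smul_mem c (h1 q), fun q => ?_⟩
    rw [Finsupp.smul_apply, map_smul, h2, Finsupp.smul_apply, Finsupp.smul_apply]
    simp only [Prod.smul_fst, Prod.smul_snd, smul_sub]

theorem dl_eq_zero {p : ℤ} {y : N} (h : B.dl p y = 0) : Finsupp.single p y ∈ B.Lsub := by
  simp only [dl, LinearMap.comp_apply, LinearEquiv.coe_coe] at h
  rw [LinearEquiv.map_eq_zero_iff, Submodule.mkQ_apply, Submodule.Quotient.mk_eq_zero] at h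
  exact h

/-- the kernel of `nu` -/
theorem mem_K0_of_nu (x : B.QX) (hx : B.nu x = 0) : x ∈ B.K0 := by
  classical
  rw [nu_apply] at hx
  obtain ⟨W, hW, hz⟩ := B.Lsub_structure _ (B.dl_eq_zero hx)
  have hz0 : B.val x 0 = (W 0).1 - (W (-1)).2 := by
    have := hz 0
    rw [Finsupp.single_eq_same, val_e] at this
    simpa using this
  have hzq : ∀ q : ℤ, q ≠ 0 → (W q).1 = (W (q - 1)).2 := by
    intro q hq
    have := hz q
    rw [Finsupp.single_eq_of_ne (by omega), map_zero] at this
    exact (sub_eq_zero.1 this.symm)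
  -- bounds of the support
  obtain ⟨b, hb⟩ : ∃ b : ℤ, 0 ≤ b ∧ ∀ p, (p < -b ∨ b < p) → W p = 0 := by
    refine ⟨∑ q ∈ W.support, |q|, Finset.sum_nonneg fun _ _ => abs_nonneg _, fun p hp => ?_⟩
    by_contra hne
    have h1 : |p| ≤ ∑ q ∈ W.support, |q| :=
      Finset.single_le_sum (f := fun q : ℤ => |q|) (fun _ _ => abs_nonneg _)
        (Finsupp.mem_support_iff.2 hne)
    have h2 := abs_le.1 h1
    omega
  obtain ⟨hb0, hb⟩ := hb
  -- the chain which vanishes on the right
  let c : ℤ → N := fun p => if 0 ≤ p then (W p).1 else B.val x p + (W (p - 1)).2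
  have hc : ∀ p, (c p, c (p + 1)) ∈ B.R p := by
    intro p
    by_cases h0 : 0 ≤ p
    · have h1 : 0 ≤ p + 1 := by omega
      simp only [c, h0, h1, if_true]
      rw [hzq (p + 1) (by omega), add_sub_cancel_right]
      exact hW p
    · by_cases h1 : 0 ≤ p + 1
      · have hp : p = -1 := by omega
        subst hp
        simp only [c]
        rw [if_neg (by norm_num), if_pos (by norm_num)]
        have h2 : (B.val x (-1), B.val x (-1 + 1)) ∈ B.R (-1) := B.val_rel x (-1)
        have h3 := (B.R (-1)).add_mem h2 (hW (-1))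
        have h4 : (W (-1)).1 = (W (-1 - 1)).2 := hzq (-1) (by norm_num)
        rw [show (-1 : ℤ) + 1 = 0 by norm_num] at h2 h3 ⊢
        rw [hz0] at h3
        have h5 : (B.val x (-1), (W 0).1 - (W (-1)).2) + W (-1) =
            (B.val x (-1) + (W (-1 - 1)).2, (W 0).1) := by
          rw [← h4]
          ext <;> simp
        rw [h5] at h3
        exact h3
      · simp only [c]
        rw [if_neg h0, if_neg h1]
        have h3 := (B.R p).add_mem (B.val_rel x p) (hW p)
        have h4 : (W p).1 = (W (p - 1)).2 := hzq p (by omega)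
        have h5 : (B.val x p, B.val x (p + 1)) + W p =
            (B.val x p + (W (p - 1)).2, B.val x (p + 1) + (W (p + 1 - 1)).2) := by
          rw [← h4, add_sub_cancel_right]
          ext <;> simp
        rw [h5] at h3
        exact h3
  have hcr : B.mkQ c hc ∈ B.Kr := by
    refine ⟨b, fun p hp => ?_⟩
    rw [val_mkQ]
    simp only [c]
    rw [if_pos (by omega), hb p (Or.inr hp)]
    rfl
  have hcl : x - B.mkQ c hc ∈ B.Kl := by
    refine ⟨-b, fun p hp => ?_⟩
    rw [val_sub, val_mkQ]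
    simp only [c]
    rw [if_neg (by omega), hb (p - 1) (Or.inl (by omega))]
    simp
  have : x = (x - B.mkQ c hc) + B.mkQ c hc := by abel
  rw [this]
  exact Submodule.add_mem_sup hcl hcr

theorem ker_nu : LinearMap.ker B.nu = B.K0 := by
  ext x
  rw [LinearMap.mem_ker]
  exact ⟨B.mem_K0_of_nu x, B.nu_K0 x⟩

end BRel

end SAlg
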