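import Pool.Agent.Lib.MP_b9fd58_lc.R.RelC

/-!
# MP_b9fd58_lc, stream T: periodic sequences of linear relations (IV)

Duality of the partial chains; `PX / nu QX` is torsion free.
-/

set_option autoImplicit false

namespace SAlg

open Finset Polynomial Module

universe u v w

variable {k : Type u} [Field k]

namespace BRel

variable {N : Type v} [AddCommGroup N] [Module k N] (B : BRel k N)

/-- the inverse image of a subspace under the relation `R p` -/
def pre (p : ℤ) (A : Submodule k N) : Submodule k N where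
  carrier := {x | ∃ y ∈ A, (x, y) ∈ B.R p}
  add_mem' := by
    rintro a b ⟨y, hy, h⟩ ⟨z, hz, h'⟩
    exact ⟨y + z, A.add_mem hy hz, (B.R p).add_mem h h'⟩
  zero_mem' := ⟨0, A.zero_mem, (B.R p).zero_mem⟩
  smul_mem' := by
    rintro c a ⟨y, hy, h⟩
    exact ⟨c • y, A.smul_mem c hy, (B.R p).smul_mem c h⟩

/-- the beginnings (at `p`) of the partial chains on `[p, p + m]` -/
def UR : ℕ → ℤ → Submodule k N
  | 0, p => LinearMap.range (B.e p)
  | m + 1, p => B.pre p (UR m (p + 1))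

/-- the beginnings of the partial chains on `[p, p + m]` which end with `0` -/
def LR : ℕ → ℤ → Submodule k N
  | 0, _ => ⊥
  | m + 1, p => B.pre p (LR m (p + 1))

theorem UR_e (m : ℕ) (p : ℤ) (x : N) (hx : x ∈ B.UR m p) : B.e p x = x := by
  cases m with
  | zero =>
    obtain ⟨y, rfl⟩ := hx
    exact B.e_idem p y
  | succ m =>
    obtain ⟨y, -, h⟩ := hx
    exact B.R_left _ _ _ h

theorem LR_e (m : ℕ) (p : ℤ) (x : N) (hx : x ∈ B.LR m p) : B.e p x = x := by
  cases m with
  | zero =>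
    rw [(Submodule.mem_bot k).1 hx, map_zero]
  | succ m =>
    obtain ⟨y, -, h⟩ := hx
    exact B.R_left _ _ _ h

/-- an element of `LR` is `0` in `PX` -/
theorem dl_LR (m : ℕ) (p : ℤ) (x : N) (hx : x ∈ B.LR m p) : B.dl p x = 0 := by
  induction m generalizing p x with
  | zero => rw [(Submodule.mem_bot k).1 hx, map_zero]
  | succ m ih =>
    obtain ⟨y, hy, h⟩ := hx
    rw [B.dl_rel h]
    exact ih _ _ hy

/-- duality for one step -/
theorem ext_fun (p : ℤ) (A : Submodule k N) (hA : ∀ y ∈ A, B.e (p + 1) y = y) (f : Dual k N)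
    (hf : ∀ x ∈ B.pre p A, f x = 0) (he : ∀ x, f (B.e p x) = f x) :
    ∃ g : Dual k N, (∀ y ∈ A, g y = 0) ∧ (f, g) ∈ B.dual.R p := by
  let Φ : (B.R p × A) →ₗ[k] N :=
    LinearMap.coprod ((LinearMap.snd k N N) ∘ₗ (B.R p).subtype) A.subtype
  let F : Dual k (B.R p × A) :=
    LinearMap.coprod (f ∘ₗ (LinearMap.fst k N N) ∘ₗ (B.R p).subtype) 0
  have hF : F ∈ (LinearMap.ker Φ).dualAnnihilator := by
    rw [Submodule.mem_dualAnnihilator]
    rintro ⟨⟨⟨x, y⟩, hxy⟩, ⟨a, ha⟩⟩ hz
    have h1 : y + a = 0 := by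
      have := LinearMap.mem_ker.1 hz
      simpa [Φ] using this
    have h2 : f x = 0 := hf x ⟨y, by
      rw [eq_neg_of_add_eq_zero_left h1]
      exact A.neg_mem ha, hxy⟩
    simpa [F] using h2
  rw [← LinearMap.range_dualMap_eq_dualAnnihilator_ker] at hF
  obtain ⟨g, hg⟩ := hF
  have hg1 : ∀ x y, (x, y) ∈ B.R p → g y = f x := by
    intro x y hxy
    have := LinearMap.congr_fun hg (⟨(x, y), hxy⟩, 0)
    simpa [Φ, F] using this
  have hg2 : ∀ y ∈ A, g y = 0 := by
    intro y hy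
    have := LinearMap.congr_fun hg (0, ⟨y, hy⟩)
    simpa [Φ, F] using this
  refine ⟨g ∘ₗ B.e (p + 1), fun y hy => ?_, fun x y hxy => ?_, he, fun x => ?_⟩
  · rw [LinearMap.comp_apply, hA y hy, hg2 y hy]
  · show f x = g (B.e (p + 1) y)
    rw [B.R_right _ _ _ hxy, hg1 x y hxy]
  · show g (B.e (p + 1) (B.e (p + 1) x)) = g (B.e (p + 1) x)
    rw [B.e_idem]

/-- functionals which vanish on the beginnings of chains extend to dual chains ending with `0` -/
theorem ext_UR (m : ℕ) (p : ℤ) (f : Dual k N) (hf : ∀ x ∈ B.UR m p, f x = 0)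
    (he : ∀ x, f (B.e p x) = f x) :
    ∃ g : ℕ → Dual k N, g 0 = f ∧ (∀ i : ℕ, (g i, g (i + 1)) ∈ B.dual.R (p + i)) ∧
      ∀ i, m ≤ i → g i = 0 := by
  induction m generalizing p f with
  | zero =>
    have hf0 : f = 0 := by
      ext x
      rw [← he]
      exact hf _ ⟨x, rfl⟩
    exact ⟨fun _ => 0, hf0.symm, fun i => (B.dual.R _).zero_mem, fun _ _ => rfl⟩
  | succ m ih =>
    obtain ⟨g₁, h1, h2⟩ := B.ext_fun p (B.UR m (p + 1)) (B.UR_e m (p + 1)) f hf he
    obtain ⟨g, hg0, hg, hgm⟩ := ih (p + 1) g₁ h1 h2.2.2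
    refine ⟨fun i => if i = 0 then f else g (i - 1), by simp, fun i => ?_, fun i hi => ?_⟩
    · rcases Nat.eq_zero_or_pos i with rfl | hi
      · simpa [hg0] using h2
      · obtain ⟨j, rfl⟩ := Nat.exists_eq_succ_of_ne_zero hi.ne'
        have h3 := hg j
        simp only [Nat.succ_ne_zero, if_false, Nat.succ_eq_add_one, Nat.add_sub_cancel]
        rw [show p + ((j + 1 : ℕ) : ℤ) = p + 1 + j by push_cast; ring]
        simpa using h3
    · obtain ⟨j, rfl⟩ := Nat.exists_eq_succ_of_ne_zero (show i ≠ 0 by omega)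
      simp only [Nat.succ_ne_zero, if_false]
      exact hgm _ (by omega)

/-- functionals which vanish on the beginnings of chains ending with `0` extend to partial dual
chains -/
theorem ext_LR (m : ℕ) (p : ℤ) (f : Dual k N) (hf : ∀ x ∈ B.LR m p, f x = 0)
    (he : ∀ x, f (B.e p x) = f x) :
    ∃ g : ℕ → Dual k N, g 0 = f ∧ ∀ i : ℕ, i < m → (g i, g (i + 1)) ∈ B.dual.R (p + i) := by
  induction m generalizing p f with
  | zero => exact ⟨fun _ => f, rfl, fun i hi => absurd hi (Nat.not_lt_zero i)⟩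
  | succ m ih =>
    obtain ⟨g₁, h1, h2⟩ := B.ext_fun p (B.LR m (p + 1)) (B.LR_e m (p + 1)) f hf he
    obtain ⟨g, hg0, hg⟩ := ih (p + 1) g₁ h1 h2.2.2
    refine ⟨fun i => if i = 0 then f else g (i - 1), by simp, fun i hi => ?_⟩
    rcases Nat.eq_zero_or_pos i with rfl | hi0
    · simpa [hg0] using h2
    · obtain ⟨j, rfl⟩ := Nat.exists_eq_succ_of_ne_zero hi0.ne'
      have h3 := hg j (by omega)
      simp only [Nat.succ_ne_zero, if_false, Nat.succ_eq_add_one, Nat.add_sub_cancel]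
      rw [show p + ((j + 1 : ℕ) : ℤ) = p + 1 + j by push_cast; ring]
      simpa using h3

theorem mem_rev_dual (p : ℤ) (a b : Dual k N) :
    (a, b) ∈ B.rev.dual.R p ↔ (b, a) ∈ B.dual.R (-p - 1) := by
  rw [mem_dual, mem_dual]
  have e1 : B.rev.e p = B.e (-p - 1 + 1) := by
    rw [show -p - 1 + 1 = -p by ring]; rfl
  have e2 : B.rev.e (p + 1) = B.e (-p - 1) := by
    rw [show -p - 1 = -(p + 1) by ring]; rfl
  rw [e1, e2]
  constructor
  · rintro ⟨h1, h2, h3⟩
    refine ⟨fun x y h => ?_, h3, h2⟩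
    exact (h1 y x ((B.mem_rev p y x).2 h)).symm
  · rintro ⟨h1, h2, h3⟩
    refine ⟨fun x y h => ?_, h3, h2⟩
    exact (h1 y x ((B.mem_rev p x y).1 h)).symm

/-- the functional of a dual chain -/
noncomputable def phi (ξ : ℤ → Dual k N) (h : ∀ p, (ξ p, ξ (p + 1)) ∈ B.dual.R p) :
    B.PX →ₗ[k] k :=
  B.lift ξ (fun p x y hxy => (h p).1 x y hxy) (fun p x => (h p).2.1 x)

theorem phi_dl (ξ : ℤ → Dual k N) (h : ∀ p, (ξ p, ξ (p + 1)) ∈ B.dual.R p) (p : ℤ) (x : N) :
    B.phi ξ h (B.dl p x) = ξ p x := B.lift_dl _ _ _ _ _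

/-- the action of a polynomial -/
theorem phi_poly (ξ ζ : ℤ → Dual k N) (hξ : ∀ p, (ξ p, ξ (p + 1)) ∈ B.dual.R p)
    (hζ : ∀ p, (ζ p, ζ (p + 1)) ∈ B.dual.R p) (r : k[X])
    (h : ∀ p, ∑ i ∈ range (r.natDegree + 1), r.coeff i • ζ (p - B.l * i) = ξ p) (η : B.PX) :
    B.phi ξ hξ η = B.phi ζ hζ (r • η) := by
  obtain ⟨z, -, rfl⟩ := B.exists_rep η
  rw [Finsupp.sum, Finset.smul_sum, map_sum, map_sum]
  apply Finset.sum_congr rfl
  intro p _
  rw [dl_poly, map_sum, phi_dl, ← h p, LinearMap.sum_apply]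
  apply Finset.sum_congr rfl
  intro i _
  rw [map_smul, phi_dl, LinearMap.smul_apply]

theorem dual_val (ζ : ℤ → Dual k N) (x : B.QX) (p : ℤ) (h : (ζ p, ζ (p + 1)) ∈ B.dual.R p) :
    ζ p (B.val x p) = ζ (p + 1) (B.val x (p + 1)) := h.1 _ _ (B.val_rel x p)

/-- a functional which vanishes on the left kills the torsion over `nu QX` -/
theorem phi_left (r : k[X]) (hr : r ≠ 0) (η : B.PX) (x : B.QX) (h : r • η = B.nu x)
    (ξ : ℤ → Dual k N) (hξ : ∀ p, (ξ p, ξ (p + 1)) ∈ B.dual.R p) (a : ℤ)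
    (ha : ∀ p < a, ξ p = 0) : B.phi ξ hξ η = 0 := by
  obtain ⟨ζ, a', h0, h1, h2⟩ := solveL' B.dual r hr ξ a ha
  have hζ : ∀ p, (ζ p, ζ (p + 1)) ∈ B.dual.R p := fun p =>
    h2 (p + 1 + B.dual.l * r.natDegree) (fun q _ => hξ q) p (by linarith)
  rw [B.phi_poly ξ ζ hξ hζ r h1, h, B.nu_eq x (a' - 1), phi_dl, h0 _ (by linarith),
    LinearMap.zero_apply]

/-- a functional which vanishes on the right kills the torsion over `nu QX` -/
theorem phi_right (r : k[X]) (hr : r ≠ 0) (η : B.PX) (x : B.QX) (h : r • η = B.nu x)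
    (ξ : ℤ → Dual k N) (hξ : ∀ p, (ξ p, ξ (p + 1)) ∈ B.dual.R p) (a : ℤ)
    (ha : ∀ p, a < p → ξ p = 0) : B.phi ξ hξ η = 0 := by
  obtain ⟨ζ, a', h0, h1, h2⟩ := solveL B.dual.rev r hr (fun p => ξ (-p)) (-a)
    (fun p hp => ha _ (by linarith))
  have hl : B.dual.rev.l = B.l := rfl
  have hζ : ∀ p, (ζ (-p), ζ (-(p + 1))) ∈ B.dual.R p := fun p => by
    have h3 := h2 (-p) (fun q _ => by
      rw [mem_rev]
      have := hξ (-q - 1)
      rw [show -q - 1 + 1 = -q by ring] at this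
      rw [show -(q + 1) = -q - 1 by ring]
      exact this) (-p - 1) (by linarith)
    rw [mem_rev] at h3
    rw [show -(-p - 1) - 1 = p by ring, show -p - 1 + 1 = -p by ring] at h3
    rw [show -(p + 1) = -p - 1 by ring]
    exact h3
  have h4 : ∀ p, ∑ i ∈ range (r.natDegree + 1), r.coeff i • ζ (-(p - B.l * i)) = ξ p := by
    intro p
    have := h1 (-p)
    rw [neg_neg] at this
    rw [← this]
    apply Finset.sum_congr rfl
    intro i _
    rw [hl]
    congr 2
    ring
  rw [B.phi_poly ξ (fun p => ζ (-p)) hξ hζ r h4, h, B.nu_eq x (-a' + 1), phi_dl]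
  show ζ (-(-a' + 1)) _ = 0
  rw [h0 _ (by linarith), LinearMap.zero_apply]

/-- the windows of the relations -/
theorem window (z : ℤ →₀ N) (hz : z ∈ B.Lsub) : ∃ n₁ : ℕ, ∀ ζ : ℤ → Dual k N,
    (∀ p : ℤ, -n₁ ≤ p → p < n₁ → (ζ p, ζ (p + 1)) ∈ B.dual.R p) →
      (z.sum fun q x => ζ q x) = 0 := by
  classical
  induction hz using Submodule.span_induction with
  | mem z hz =>
    rcases hz with ⟨p, x, y, hxy, rfl⟩ | ⟨p, n, rfl⟩
    · refine ⟨p.natAbs + 1, fun ζ hζ => ?_⟩
      have h1 := hζ p (by omega) (by omega)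
      have hs : ∀ p n, (Finsupp.single p n).sum (fun q x => ζ q x) = ζ p n :=
        fun p n => Finsupp.sum_single_index (map_zero _)
      rw [Finsupp.sum_sub_index (fun _ _ _ => map_sub _ _ _), hs, hs, h1.1 x y hxy, sub_self]
    · refine ⟨p.natAbs + 1, fun ζ hζ => ?_⟩
      have h1 := hζ p (by omega) (by omega)
      have hs : ∀ p n, (Finsupp.single p n).sum (fun q x => ζ q x) = ζ p n :=
        fun p n => Finsupp.sum_single_index (map_zero _)
      rw [Finsupp.sum_sub_index (fun _ _ _ => map_sub _ _ _), hs, hs, h1.2.1, sub_self]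
  | zero => exact ⟨0, fun ζ _ => by simp⟩
  | add z z' _ _ h h' =>
    obtain ⟨n, h1⟩ := h
    obtain ⟨n', h2⟩ := h'
    refine ⟨n + n', fun ζ hζ => ?_⟩
    rw [Finsupp.sum_add_index' (fun _ => map_zero _) (fun _ _ _ => map_add _ _ _),
      h1 ζ (fun p hp hp' => hζ p (by push_cast; linarith) (by push_cast; linarith)),
      h2 ζ (fun p hp hp' => hζ p (by push_cast; linarith) (by push_cast; linarith)), add_zero]
  | smul c z _ h =>
    obtain ⟨n, h1⟩ := h
    refine ⟨n, fun ζ hζ => ?_⟩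
    rw [Finsupp.sum_smul_index' (fun _ => map_zero _)]
    have h2 := h1 ζ hζ
    have h3 : (z.sum fun q x => ζ q (c • x)) = c • z.sum fun q x => ζ q x := by
      rw [Finsupp.sum, Finsupp.sum, Finset.smul_sum]
      apply Finset.sum_congr rfl
      intro q _
      rw [map_smul]
    rw [h3, h2, smul_zero]

/-- `y` is separated by window chains: part `β` -/
theorem window_left (r : k[X]) (hr : r ≠ 0) (x : B.QX) (y : N) (n₁ n₀ : ℕ)
    (hn : n₁ + B.l * r.natDegree ≤ n₀)
    (hw : ∀ ζ : ℤ → Dual k N, (∀ p : ℤ, -n₁ ≤ p → p < n₁ → (ζ p, ζ (p + 1)) ∈ B.dual.R p) →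
      ∑ i ∈ range (r.natDegree + 1), r.coeff i • ζ (-(B.l * i)) y = ζ 0 (B.val x 0))
    (β : ℤ → Dual k N) (a : ℤ) (ha : ∀ p < a, β p = 0)
    (hβ : ∀ p : ℤ, p < n₀ → (β p, β (p + 1)) ∈ B.dual.R p) : β 0 y = 0 := by
  obtain ⟨ζ, a', h0, h1, h2⟩ := solveL' B.dual r hr β a ha
  have hl : B.dual.l = B.l := rfl
  have hnn : (n₁ : ℤ) ≤ n₀ - B.l * r.natDegree := by
    have : ((n₁ + B.l * r.natDegree : ℕ) : ℤ) ≤ n₀ := by exact_mod_cast hn
    push_cast at this
    linarith
  have hζ : ∀ p : ℤ, p < n₁ → (ζ p, ζ (p + 1)) ∈ B.dual.R p := fun p hp =>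
    h2 n₀ (fun q hq => hβ q hq) p (by rw [hl]; linarith)
  have h3 := hw ζ (fun p _ hp => hζ p hp)
  have h4 := h1 0
  rw [hl] at h4
  have h5 : β 0 y = ∑ i ∈ range (r.natDegree + 1), r.coeff i • ζ (-(B.l * i)) y := by
    rw [← h4, LinearMap.sum_apply]
    apply Finset.sum_congr rfl
    intro i _
    rw [LinearMap.smul_apply, zero_sub]
  rw [h5, h3]
  have h6 : ∀ t : ℕ, ζ 0 (B.val x 0) = ζ (-t) (B.val x (-t)) := by
    intro t
    induction t with
    | zero => simp
    | succ t ih =>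
      have h7 := B.dual_val ζ x (-((t + 1 : ℕ) : ℤ)) (hζ _ (by push_cast; linarith))
      have h8 : -((t + 1 : ℕ) : ℤ) + 1 = -(t : ℤ) := by push_cast; ring
      rw [h8] at h7
      rw [ih, h7]
  rw [h6 (a'.natAbs + 1), h0 _ (by omega), LinearMap.zero_apply]

/-- `y` is separated by window chains: part `α` -/
theorem window_right (r : k[X]) (hr : r ≠ 0) (x : B.QX) (y : N) (n₁ n₀ : ℕ)
    (hn : n₁ + B.l * r.natDegree ≤ n₀)
    (hw : ∀ ζ : ℤ → Dual k N, (∀ p : ℤ, -n₁ ≤ p → p < n₁ → (ζ p, ζ (p + 1)) ∈ B.dual.R p) →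
      ∑ i ∈ range (r.natDegree + 1), r.coeff i • ζ (-(B.l * i)) y = ζ 0 (B.val x 0))
    (α : ℤ → Dual k N) (a : ℤ) (ha : ∀ p, a < p → α p = 0)
    (hα : ∀ p : ℤ, -n₀ ≤ p → (α p, α (p + 1)) ∈ B.dual.R p) : α 0 y = 0 := by
  obtain ⟨ζ, a', h0, h1, h2⟩ := solveL B.dual.rev r hr (fun p => α (-p)) (-a)
    (fun p hp => ha _ (by linarith))
  have hl : B.dual.rev.l = B.l := rfl
  have hnn : (n₁ : ℤ) ≤ n₀ := by
    have : ((n₁ + B.l * r.natDegree : ℕ) : ℤ) ≤ n₀ := by exact_mod_cast hn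
    push_cast at this
    have : (0 : ℤ) ≤ B.l * r.natDegree := by positivity
    linarith
  have hζ : ∀ p : ℤ, -n₁ ≤ p → (ζ (-p), ζ (-(p + 1))) ∈ B.dual.R p := fun p hp => by
    have h3 := h2 n₀ (fun q hq => by
      rw [mem_rev]
      have := hα (-q - 1) (by linarith)
      rw [show -q - 1 + 1 = -q by ring] at this
      rw [show -(q + 1) = -q - 1 by ring]
      exact this) (-p - 1) (by linarith)
    rw [mem_rev] at h3
    rw [show -(-p - 1) - 1 = p by ring, show -p - 1 + 1 = -p by ring] at h3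
    rw [show -(p + 1) = -p - 1 by ring]
    exact h3
  have h3 := hw (fun p => ζ (-p)) (fun p hp _ => hζ p hp)
  have h4 := h1 0
  rw [hl] at h4
  have h5 : α 0 y = ∑ i ∈ range (r.natDegree + 1), r.coeff i • ζ (-(-(B.l * i))) y := by
    have : α 0 = ∑ i ∈ range (r.natDegree + 1), r.coeff i • ζ (0 + B.l * i) := by
      rw [h4]; simp
    rw [this, LinearMap.sum_apply]
    apply Finset.sum_congr rfl
    intro i _
    rw [LinearMap.smul_apply, zero_add, neg_neg]
  rw [h5, h3]
  have h6 : ∀ t : ℕ, ζ (-0) (B.val x 0) = ζ (-(t : ℤ)) (B.val x t) := by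
    intro t
    induction t with
    | zero => simp
    | succ t ih =>
      have h7 := B.dual_val (fun p => ζ (-p)) x t (hζ _ (by linarith))
      rw [ih]
      push_cast
      exact h7
  rw [h6 (a'.natAbs + 1), h0 _ (by omega), LinearMap.zero_apply]

/-- `PX / nu QX` is torsion free under two compactness hypotheses. -/
theorem torsionFree
    (S1 : ∀ (y : N) (n₀ : ℕ),
      (∀ m, ∃ u ∈ B.UR m 0 ⊓ B.rev.UR m 0, u - y ∈ B.LR n₀ 0 ⊔ B.rev.LR n₀ 0) →
      ∃ u, (∀ m, u ∈ B.UR m 0 ⊓ B.rev.UR m 0) ∧ u - y ∈ B.LR n₀ 0 ⊔ B.rev.LR n₀ 0)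
    (S2 : ∀ u, (∀ m, u ∈ B.UR m 0 ⊓ B.rev.UR m 0) → ∃ x : B.QX, B.val x 0 = u)
    (r : k[X]) (hr : r ≠ 0) (η : B.PX) (x : B.QX) (h : r • η = B.nu x) :
    ∃ x', B.nu x' = η := by
  classical
  -- step 1
  have step1 : ∃ y, B.dl 0 y = η := by
    by_contra hcon
    have hη : η ∉ LinearMap.range (B.dl 0) := fun ⟨y, hy⟩ => hcon ⟨y, hy⟩
    obtain ⟨φ, hφ, hφ0⟩ := Submodule.exists_le_ker_of_notMem hη
    apply hφ
    let ξ : ℤ → Dual k N := fun p => φ ∘ₗ B.dl p
    have hξ : ∀ p, (ξ p, ξ (p + 1)) ∈ B.dual.R p := by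
      intro p
      refine ⟨fun x y hxy => ?_, fun x => ?_, fun x => ?_⟩
      · show φ (B.dl p x) = φ (B.dl (p + 1) y)
        rw [B.dl_rel hxy]
      · show φ (B.dl p (B.e p x)) = φ (B.dl p x)
        rw [dl_e]
      · show φ (B.dl (p + 1) (B.e (p + 1) x)) = φ (B.dl (p + 1) x)
        rw [dl_e]
    have hξ0 : ξ 0 = 0 := by
      ext y
      have : B.dl 0 y ∈ LinearMap.ker φ := hφ0 ⟨y, rfl⟩
      exact this
    let ξp : ℤ → Dual k N := fun p => if 0 < p then ξ p else 0
    let ξm : ℤ → Dual k N := fun p => if p < 0 then ξ p else 0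
    have hξp : ∀ p, (ξp p, ξp (p + 1)) ∈ B.dual.R p := by
      intro p
      by_cases h1 : 0 < p
      · have h2 : 0 < p + 1 := by omega
        simp only [ξp, h1, h2, if_true]
        exact hξ p
      · by_cases h2 : 0 < p + 1
        · have h3 : p = 0 := by omega
          subst h3
          simp only [ξp, h1, h2, if_true, if_false]
          have := hξ 0
          rwa [hξ0] at this
        · simp only [ξp, h1, h2, if_false]
          exact (B.dual.R p).zero_mem
    have hξm : ∀ p, (ξm p, ξm (p + 1)) ∈ B.dual.R p := by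
      intro p
      by_cases h1 : p + 1 < 0
      · have h2 : p < 0 := by omega
        simp only [ξm, h1, h2, if_true]
        exact hξ p
      · by_cases h2 : p < 0
        · have h3 : p = -1 := by omega
          subst h3
          simp only [ξm, h1, h2, if_true, if_false]
          have := hξ (-1)
          rw [show (-1 : ℤ) + 1 = 0 by norm_num, hξ0] at this
          exact this
        · simp only [ξm, h1, h2, if_false]
          exact (B.dual.R p).zero_mem
    have e1 := B.phi_left r hr η x h ξp hξp 0 (fun p hp => by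
      simp only [ξp]
      rw [if_neg (by omega)])
    have e2 := B.phi_right r hr η x h ξm hξm 0 (fun p hp => by
      simp only [ξm]
      rw [if_neg (by omega)])
    have e3 : ∀ η : B.PX, φ η = B.phi ξp hξp η + B.phi ξm hξm η := by
      intro η
      obtain ⟨z, -, rfl⟩ := B.exists_rep η
      rw [Finsupp.sum, map_sum, map_sum, map_sum, ← Finset.sum_add_distrib]
      apply Finset.sum_congr rfl
      intro p _
      rw [phi_dl, phi_dl]
      show ξ p (z p) = _
      rcases lt_trichotomy p 0 with hp | hp | hp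
      · simp only [ξp, ξm]
        rw [if_neg (by omega), if_pos hp, LinearMap.zero_apply, zero_add]
      · subst hp
        simp [ξp, ξm, hξ0]
      · simp only [ξp, ξm]
        rw [if_pos hp, if_neg (by omega), LinearMap.zero_apply, add_zero]
    rw [e3, e1, e2, add_zero]
  obtain ⟨y₀, hy₀⟩ := step1
  set y := B.e 0 y₀ with hy
  have hey : B.e 0 y = y := B.e_idem 0 y₀
  have hyη : B.dl 0 y = η := by rw [hy, dl_e, hy₀]
  -- step 2
  obtain ⟨n₁, hn₁⟩ := B.window
    (∑ i ∈ range (r.natDegree + 1), r.coeff i • Finsupp.single (-(B.l * i : ℤ)) y -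
      Finsupp.single 0 (B.val x 0)) (by
    have h1 : r • B.dl 0 y = B.dl 0 (B.val x 0) := by rw [hyη, h, nu_apply]
    rw [dl_poly, ← sub_eq_zero] at h1
    simp only [dl, LinearMap.comp_apply, LinearEquiv.coe_coe, ← map_smul, ← map_sum,
      ← map_sub, zero_sub] at h1
    rw [LinearEquiv.map_eq_zero_iff, Submodule.mkQ_apply, Submodule.Quotient.mk_eq_zero] at h1
    have h2 : ∑ i ∈ range (r.natDegree + 1), r.coeff i • Finsupp.single (-(B.l * i : ℤ)) y =
        ∑ i ∈ range (r.natDegree + 1), Finsupp.lsingle (R := k) (-(B.l * i : ℤ))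
          (r.coeff i • y) := by
      apply Finset.sum_congr rfl
      intro i _
      exact Finsupp.smul_single _ _ _
    rw [h2]
    exact h1)
  have hw : ∀ ζ : ℤ → Dual k N, (∀ p : ℤ, -n₁ ≤ p → p < n₁ → (ζ p, ζ (p + 1)) ∈ B.dual.R p) →
      ∑ i ∈ range (r.natDegree + 1), r.coeff i • ζ (-(B.l * i)) y = ζ 0 (B.val x 0) := by
    intro ζ hζ
    have h1 := hn₁ ζ hζ
    have h2 : ∀ z : ℤ →₀ N, (z.sum fun q x => ζ q x) = Finsupp.lsum k ζ z := fun z => rfl
    rw [h2, map_sub, map_sum, Finsupp.lsum_single, sub_eq_zero] at h1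
    rw [← h1]
    apply Finset.sum_congr rfl
    intro i _
    rw [map_smul, Finsupp.lsum_single]
  -- step 3
  set n₀ := n₁ + B.l * r.natDegree with hn₀
  have step3 : ∀ m, ∃ u ∈ B.UR m 0 ⊓ B.rev.UR m 0, u - y ∈ B.LR n₀ 0 ⊔ B.rev.LR n₀ 0 := by
    intro m
    by_contra hcon
    have hyS : y ∉ (B.UR m 0 ⊓ B.rev.UR m 0) ⊔ (B.LR n₀ 0 ⊔ B.rev.LR n₀ 0) := by
      intro hmem
      obtain ⟨u, hu, v, hv, huv⟩ := Submodule.mem_sup.1 hmem
      apply hcon
      refine ⟨u, hu, ?_⟩
      rw [← huv, sub_add_cancel_left]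
      exact Submodule.neg_mem _ hv
    obtain ⟨f₀, hf₀, hf₀S⟩ := Submodule.exists_le_ker_of_notMem hyS
    apply hf₀
    set f : Dual k N := f₀ ∘ₗ B.e 0 with hf
    have hfe : ∀ x, f (B.e 0 x) = f x := by
      intro x
      show f₀ (B.e 0 (B.e 0 x)) = f₀ (B.e 0 x)
      rw [B.e_idem]
    have hfy : f₀ y = f y := by
      show f₀ y = f₀ (B.e 0 y)
      rw [hey]
    rw [hfy]
    have he0 : B.rev.e 0 = B.e 0 := by
      show B.e (-0) = B.e 0
      rw [neg_zero]
    have hfLR : ∀ x ∈ B.LR n₀ 0, f x = 0 := by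
      intro x hx
      show f₀ (B.e 0 x) = 0
      rw [B.LR_e _ _ _ hx]
      exact hf₀S (Submodule.mem_sup_right (Submodule.mem_sup_left hx))
    have hfLL : ∀ x ∈ B.rev.LR n₀ 0, f x = 0 := by
      intro x hx
      show f₀ (B.e 0 x) = 0
      rw [← he0, B.rev.LR_e _ _ _ hx]
      exact hf₀S (Submodule.mem_sup_right (Submodule.mem_sup_right hx))
    have hfU : f ∈ (B.UR m 0 ⊓ B.rev.UR m 0).dualAnnihilator := by
      rw [Submodule.mem_dualAnnihilator]
      intro x hx
      show f₀ (B.e 0 x) = 0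
      rw [B.UR_e _ _ _ hx.1]
      exact hf₀S (Submodule.mem_sup_left hx)
    rw [Subspace.dualAnnihilator_inf_eq] at hfU
    obtain ⟨α₀, hα₀, β₀, hβ₀, hαβ₀⟩ := Submodule.mem_sup.1 hfU
    rw [Submodule.mem_dualAnnihilator] at hα₀ hβ₀
    set α : Dual k N := α₀ ∘ₗ B.e 0 with hα
    set β : Dual k N := β₀ ∘ₗ B.e 0 with hβ
    have hαβ : α + β = f := by
      ext x
      show α₀ (B.e 0 x) + β₀ (B.e 0 x) = f x
      rw [← LinearMap.add_apply, hαβ₀, hfe]
    have hαe : ∀ x, α (B.e 0 x) = α x := fun x => by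
      show α₀ (B.e 0 (B.e 0 x)) = α₀ (B.e 0 x)
      rw [B.e_idem]
    have hβe : ∀ x, β (B.e 0 x) = β x := fun x => by
      show β₀ (B.e 0 (B.e 0 x)) = β₀ (B.e 0 x)
      rw [B.e_idem]
    have hαU : ∀ x ∈ B.UR m 0, α x = 0 := fun x hx => by
      show α₀ (B.e 0 x) = 0
      rw [B.UR_e _ _ _ hx, hα₀ x hx]
    have hβU : ∀ x ∈ B.rev.UR m 0, β x = 0 := fun x hx => by
      show β₀ (B.e 0 x) = 0
      rw [← he0, B.rev.UR_e _ _ _ hx, hβ₀ x hx]
    obtain ⟨AR, hAR0, hAR, hARm⟩ := B.ext_UR m 0 α hαU hαe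
    obtain ⟨BL, hBL0, hBL, hBLm⟩ := B.rev.ext_UR m 0 β hβU (by rw [he0]; exact hβe)
    obtain ⟨FR, hFR0, hFR⟩ := B.ext_LR n₀ 0 f hfLR hfe
    obtain ⟨FL, hFL0, hFL⟩ := B.rev.ext_LR n₀ 0 f hfLL (by rw [he0]; exact hfe)
    -- the sequence of `α`
    let As : ℤ → Dual k N := fun q => if 0 ≤ q then AR q.toNat else FL (-q).toNat - BL (-q).toNat
    have hAs : ∀ p : ℤ, -n₀ ≤ p → (As p, As (p + 1)) ∈ B.dual.R p := by
      intro p hp
      by_cases h0 : 0 ≤ p
      · obtain ⟨t, rfl⟩ := Int.eq_ofNat_of_zero_le h0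
        have h1 := hAR t
        simp only [As]
        rw [if_pos h0, if_pos (by omega)]
        rw [zero_add] at h1
        exact h1
      · obtain ⟨t, ht⟩ := Int.eq_ofNat_of_zero_le (show 0 ≤ -p - 1 by omega)
        have hpt : p = -(t : ℤ) - 1 := by omega
        have h1 := hFL t (by omega)
        have h2 := hBL t
        rw [mem_rev_dual, show -((0 : ℤ) + (t : ℤ)) - 1 = p by omega] at h1 h2
        have h3 := (B.dual.R p).sub_mem h1 h2
        have h4 : As p = FL (t + 1) - BL (t + 1) := by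
          simp only [As]
          rw [if_neg h0, show (-p).toNat = t + 1 by omega]
        have h5 : As (p + 1) = FL t - BL t := by
          by_cases h6 : 0 ≤ p + 1
          · have h7 : t = 0 := by omega
            subst h7
            simp only [As]
            rw [if_pos h6, show (p + 1).toNat = 0 by omega, hAR0, hFL0, hBL0, ← hαβ,
              add_sub_cancel_right]
          · simp only [As]
            rw [if_neg h6, show (-(p + 1)).toNat = t by omega]
        rw [h4, h5]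
        exact h3
    have hα0 : α y = 0 := by
      have := B.window_right r hr x y n₁ n₀ le_rfl hw As m (fun p hp => by
        simp only [As]
        rw [if_pos (by omega)]
        exact hARm _ (by omega)) hAs
      simp only [As] at this
      rw [if_pos le_rfl] at this
      simpa [hAR0] using this
    -- the sequence of `β`
    let Bs : ℤ → Dual k N := fun q => if q ≤ 0 then BL (-q).toNat else FR q.toNat - AR q.toNat
    have hBs : ∀ p : ℤ, p < n₀ → (Bs p, Bs (p + 1)) ∈ B.dual.R p := by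
      intro p hp
      by_cases h0 : p < 0
      · obtain ⟨t, ht⟩ := Int.eq_ofNat_of_zero_le (show 0 ≤ -p - 1 by omega)
        have h2 := hBL t
        rw [mem_rev_dual, show -((0 : ℤ) + (t : ℤ)) - 1 = p by omega] at h2
        simp only [Bs]
        rw [if_pos (by omega), if_pos (by omega), show (-p).toNat = t + 1 by omega,
          show (-(p + 1)).toNat = t by omega]
        exact h2
      · obtain ⟨t, rfl⟩ := Int.eq_ofNat_of_zero_le (show 0 ≤ p by omega)
        have h1 := hFR t (by omega)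
        have h2 := hAR t
        rw [zero_add] at h1 h2
        have h3 := (B.dual.R t).sub_mem h1 h2
        have h5 : Bs ((t : ℤ) + 1) = FR (t + 1) - AR (t + 1) := by
          simp only [Bs]
          rw [if_neg (by omega), show ((t : ℤ) + 1).toNat = t + 1 by omega]
        have h4 : Bs (t : ℤ) = FR t - AR t := by
          rcases Nat.eq_zero_or_pos t with rfl | ht
          · simp only [Bs]
            rw [if_pos (by simp)]
            simp only [Nat.cast_zero, neg_zero, Int.toNat_zero]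
            rw [hBL0, hFR0, hAR0, ← hαβ, add_sub_cancel_left]
          · simp only [Bs]
            rw [if_neg (by omega), Int.toNat_natCast]
        rw [h4, h5]
        exact h3
    have hβ0 : β y = 0 := by
      have := B.window_left r hr x y n₁ n₀ le_rfl hw Bs (-m) (fun p hp => by
        simp only [Bs]
        rw [if_pos (by omega)]
        exact hBLm _ (by omega)) hBs
      simp only [Bs] at this
      rw [if_pos le_rfl] at this
      simpa [hBL0] using this
    rw [← hαβ, LinearMap.add_apply, hα0, hβ0, add_zero]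
  -- step 4
  obtain ⟨u, hu, huy⟩ := S1 y n₀ step3
  obtain ⟨x', hx'⟩ := S2 u hu
  refine ⟨x', ?_⟩
  rw [nu_apply, hx', ← hyη, ← sub_eq_zero, ← map_sub]
  obtain ⟨a, ha, b, hb, hab⟩ := Submodule.mem_sup.1 huy
  rw [← hab, map_add, B.dl_LR _ _ _ ha, zero_add]
  -- the left part
  have key : ∀ (m : ℕ) (p : ℤ) (x : N), x ∈ B.rev.LR m p → B.dl (-p) x = 0 := by
    intro m
    induction m with
    | zero =>
      intro p x hx
      rw [(Submodule.mem_bot k).1 hx, map_zero]
    | succ m ih =>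
      rintro p x ⟨y, hy, hxy⟩
      rw [mem_rev] at hxy
      have h1 := B.dl_rel hxy
      rw [show -p - 1 + 1 = -p by ring] at h1
      rw [← h1]
      have h2 := ih (p + 1) y hy
      rwa [show -(p + 1) = -p - 1 by ring] at h2
  have := key n₀ 0 b hb
  rwa [neg_zero] at this

end BRel

end SAlg
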