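import Pool.Agent.Lib.MP_b9fd58_lc.R.RelD

/-!
# MP_b9fd58_lc, stream T: periodic sequences of linear relations (V)

The splitting `rho : PX → W`; pure injectivity of `QX` for dual sequences and for retracts.
-/

set_option autoImplicit false

namespace SAlg

open Finset Polynomial Module

universe u v w

variable {k : Type u} [Field k]

/-- Extension property of a `k[X]`-module along submodules with torsion free quotient. -/
def PureInj (k : Type u) [Field k] (Q : Type w) [AddCommGroup Q] [Module k[X] Q] : Prop :=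
  ∀ (P : Type w) [AddCommGroup P] [Module k P] [Module k[X] P] [IsScalarTower k k[X] P]
    (W : Submodule k[X] P), (∀ r : k[X], r ≠ 0 → ∀ x : P, r • x ∈ W → x ∈ W) →
    ∀ f : W →ₗ[k[X]] Q, ∃ g : P →ₗ[k[X]] Q, ∀ w : W, g w = f w

theorem PureInj.retract {Q Q' : Type w} [AddCommGroup Q] [Module k[X] Q] [AddCommGroup Q']
    [Module k[X] Q'] (h : PureInj k Q) (ι : Q' →ₗ[k[X]] Q) (π : Q →ₗ[k[X]] Q')
    (hιπ : ∀ x, π (ι x) = x) : PureInj k Q' := by
  intro P _ _ _ _ W hW f
  obtain ⟨g, hg⟩ := h P W hW (ι ∘ₗ f)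
  refine ⟨π ∘ₗ g, fun w => ?_⟩
  rw [LinearMap.comp_apply, hg, LinearMap.comp_apply, hιπ]

namespace BRel

variable {N : Type v} [AddCommGroup N] [Module k N] (B : BRel k N)

/-- The splitting. -/
theorem exists_rho
    (TF : ∀ r : k[X], r ≠ 0 → ∀ (η : B.PX) (x : B.QX), r • η = B.nu x → ∃ x', B.nu x' = η)
    (PI : ∀ (W' : Submodule k[X] B.PX), (∀ r : k[X], r ≠ 0 → ∀ x : B.PX, r • x ∈ W' → x ∈ W') →
      ∀ f : W' →ₗ[k[X]] B.QX, ∃ g : B.PX →ₗ[k[X]] B.QX, ∀ w : W', g w = f w) :
    ∃ (W : Submodule k[X] B.QX), IsCompl B.K0 W ∧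
      ∃ ρ : B.PX →ₗ[k[X]] W, ∀ w : W, ρ (B.nu w) = w := by
  obtain ⟨W, hW⟩ := B.exists_compl
  refine ⟨W, hW, ?_⟩
  -- `nu` restricted to `W` is an isomorphism onto the range of `nu`
  let ν' : W →ₗ[k[X]] LinearMap.range B.nu :=
    LinearMap.codRestrict (LinearMap.range B.nu) (B.nu ∘ₗ W.subtype) (fun w => ⟨w, rfl⟩)
  have hinj : Function.Injective ν' := by
    rw [injective_iff_map_eq_zero]
    intro w hw
    have h1 : B.nu (w : B.QX) = 0 := by
      have := congrArg Subtype.val hw
      exact this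
    have h2 : (w : B.QX) ∈ B.K0 := B.mem_K0_of_nu _ h1
    have h3 : (w : B.QX) ∈ B.K0 ⊓ W := ⟨h2, w.2⟩
    rw [hW.inf_eq_bot] at h3
    exact Subtype.ext ((Submodule.mem_bot _).1 h3)
  have hsurj : Function.Surjective ν' := by
    rintro ⟨_, x, rfl⟩
    have hx : x ∈ B.K0 ⊔ W := by rw [hW.sup_eq_top]; exact Submodule.mem_top
    obtain ⟨a, ha, w, hw, rfl⟩ := Submodule.mem_sup.1 hx
    refine ⟨⟨w, hw⟩, Subtype.ext ?_⟩
    show B.nu w = B.nu (a + w)
    rw [map_add, B.nu_K0 a ha, zero_add]
  let e : W ≃ₗ[k[X]] LinearMap.range B.nu := LinearEquiv.ofBijective ν' ⟨hinj, hsurj⟩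
  obtain ⟨g, hg⟩ := PI (LinearMap.range B.nu) (by
    rintro r hr x ⟨y, hy⟩
    obtain ⟨x', hx'⟩ := TF r hr x y hy.symm
    exact ⟨x', hx'⟩) (W.subtype ∘ₗ e.symm.toLinearMap)
  refine ⟨(Submodule.projectionOnto W B.K0 hW.symm) ∘ₗ g, fun w => ?_⟩
  have h1 : g (B.nu w) = w := by
    have h2 := hg ⟨B.nu w, w, rfl⟩
    have h3 : e.symm ⟨B.nu w, (w : B.QX), rfl⟩ = w := by
      rw [LinearEquiv.symm_apply_eq]
      rfl
    rw [LinearMap.comp_apply, LinearEquiv.coe_coe, h3] at h2
    exact h2
  rw [LinearMap.comp_apply, h1]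
  exact Submodule.projectionOnto_apply_left hW.symm w

/-- a chain of the dual sequence as a functional on the (reversed) coinvariants -/
noncomputable def psi (x : B.dual.QX) : B.rev.PX →ₗ[k] k :=
  B.rev.phi (fun p => B.dual.val x (-p)) (fun p => by
    rw [mem_rev_dual]
    have := B.dual.val_rel x (-p - 1)
    rw [show -p - 1 + 1 = -p by ring] at this
    rw [show -(p + 1) = -p - 1 by ring]
    exact this)

theorem psi_dl (x : B.dual.QX) (p : ℤ) (n : N) :
    B.psi x (B.rev.dl p n) = B.dual.val x (-p) n := B.rev.phi_dl _ _ _ _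

theorem PX_induction {M : BRel k N} {q : M.PX → Prop} (h0 : q 0)
    (hd : ∀ p n, q (M.dl p n)) (ha : ∀ x y, q x → q y → q (x + y)) (x : M.PX) : q x := by
  classical
  obtain ⟨z, -, rfl⟩ := M.exists_rep x
  rw [Finsupp.sum]
  induction z.support using Finset.induction_on with
  | empty => simpa using h0
  | insert a s ha' ih =>
    rw [Finset.sum_insert ha']
    exact ha _ _ (hd _ _) ih

theorem psi_add (x y : B.dual.QX) (η : B.rev.PX) : B.psi (x + y) η = B.psi x η + B.psi y η := by
  refine PX_induction (q := fun η => B.psi (x + y) η = B.psi x η + B.psi y η) ?_ ?_ ?_ η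
  · simp
  · intro p n
    rw [psi_dl, psi_dl, psi_dl, val_add, LinearMap.add_apply]
  · intro a b ha hb
    rw [map_add, map_add, map_add, ha, hb]
    ring

theorem psi_smul (c : k) (x : B.dual.QX) (η : B.rev.PX) : B.psi (c • x) η = c * B.psi x η := by
  refine PX_induction (q := fun η => B.psi (c • x) η = c * B.psi x η) ?_ ?_ ?_ η
  · simp
  · intro p n
    rw [psi_dl, psi_dl, val_smul, LinearMap.smul_apply, smul_eq_mul]
  · intro a b ha hb
    rw [map_add, map_add, ha, hb]
    ring

theorem psi_X (x : B.dual.QX) (η : B.rev.PX) :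
    B.psi ((X : k[X]) • x) η = B.psi x ((X : k[X]) • η) := by
  refine PX_induction
    (q := fun η => B.psi ((X : k[X]) • x) η = B.psi x ((X : k[X]) • η)) ?_ ?_ ?_ η
  · simp
  · intro p n
    rw [psi_dl, dl_X, psi_dl, val_X]
    have h1 : B.rev.l = B.l := rfl
    have h2 : B.dual.l = B.l := rfl
    rw [h1, h2]
    congr 2
    ring
  · intro a b ha hb
    rw [smul_add, map_add, map_add, ha, hb]

theorem psi_poly (r : k[X]) (x : B.dual.QX) (η : B.rev.PX) :
    B.psi (r • x) η = B.psi x (r • η) := by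
  induction r using Polynomial.induction_on' with
  | add p q hp hq => rw [add_smul, add_smul, psi_add, map_add, hp, hq]
  | monomial n a =>
    have key : ∀ (n : ℕ) (η : B.rev.PX),
        B.psi ((X ^ n : k[X]) • x) η = B.psi x ((X ^ n : k[X]) • η) := by
      intro n
      induction n with
      | zero => intro η; simp
      | succ n ih =>
        intro η
        rw [pow_succ', mul_smul, psi_X, ih, ← mul_smul, ← pow_succ, pow_succ']
    rw [monomial_smul_eq, monomial_smul_eq, psi_smul, key, (B.psi x).map_smul a, smul_eq_mul]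

/-- The module of chains of a dual sequence is pure injective. -/
theorem pureInj_dual (P : Type w) [AddCommGroup P] [Module k P] [Module k[X] P]
    [IsScalarTower k k[X] P] (W : Submodule k[X] P)
    (hW : ∀ r : k[X], r ≠ 0 → ∀ x : P, r • x ∈ W → x ∈ W) (f : W →ₗ[k[X]] B.dual.QX) :
    ∃ g : P →ₗ[k[X]] B.dual.QX, ∀ w : W, g w = f w := by
  have hfk : ∀ (c : k) (w : W), f (c • w) = c • f w := by
    intro c w
    have h1 : c • w = (C c : k[X]) • w := by
      apply Subtype.ext
      show c • (w : P) = (C c : k[X]) • (w : P)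
      rw [C_smul_eq]
    rw [h1, map_smul, C_smul_eq]
  let F : W →+ B.rev.PX →+ k := AddMonoidHom.mk' (fun w => (B.psi (f w)).toAddMonoidHom) (by
    intro w w'
    ext η
    show B.psi (f (w + w')) η = B.psi (f w) η + B.psi (f w') η
    rw [map_add, psi_add])
  have hF : ∀ w η, F w η = B.psi (f w) η := fun w η => rfl
  obtain ⟨F', h1, h2, h3⟩ := extend_bilin (k := k) (R := k[X]) (P := P) (L := B.rev.PX) W hW F
    (fun c w η => by rw [hF, hF, hfk, psi_smul])
    (fun r w η => by rw [hF, hF, map_smul, psi_poly])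
  have h4 : ∀ (p : P) (c : k) (η : B.rev.PX), F' p (c • η) = c * F' p η := by
    intro p c η
    rw [← C_smul_eq c η, ← h2, C_smul_eq, h1]
  let ch : P → ℤ → Dual k N := fun p q =>
    { toFun := fun n => F' p (B.rev.dl (-q) n)
      map_add' := fun a b => by rw [map_add, map_add]
      map_smul' := fun c a => by rw [map_smul, h4]; rfl }
  have hch : ∀ p q n, ch p q n = F' p (B.rev.dl (-q) n) := fun p q n => rfl
  have hrel : ∀ p q, (ch p q, ch p (q + 1)) ∈ B.dual.R q := by
    intro p q
    refine ⟨fun x y hxy => ?_, fun x => ?_, fun x => ?_⟩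
    · show F' p (B.rev.dl (-q) x) = F' p (B.rev.dl (-(q + 1)) y)
      have h5 : (y, x) ∈ B.rev.R (-(q + 1)) := by
        rw [mem_rev, show -(-(q + 1)) - 1 = q by ring]
        exact hxy
      have h6 := B.rev.dl_rel h5
      rw [show -(q + 1) + 1 = -q by ring] at h6
      rw [h6]
    · show F' p (B.rev.dl (-q) (B.e q x)) = F' p (B.rev.dl (-q) x)
      have h5 : B.e q = B.rev.e (-q) := by
        show B.e q = B.e (- -q)
        rw [neg_neg]
      rw [h5, dl_e]
    · show F' p (B.rev.dl (-(q + 1)) (B.e (q + 1) x)) = F' p (B.rev.dl (-(q + 1)) x)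
      have h5 : B.e (q + 1) = B.rev.e (-(q + 1)) := by
        show B.e (q + 1) = B.e (- -(q + 1))
        rw [neg_neg]
      rw [h5, dl_e]
  let g : P →ₗ[k[X]] B.dual.QX :=
    { toFun := fun p => B.dual.mkQ (ch p) (hrel p)
      map_add' := fun p p' => by
        apply B.dual.ext_val
        intro q
        rw [val_add, val_mkQ, val_mkQ, val_mkQ]
        ext n
        show F' (p + p') _ = F' p _ + F' p' _
        rw [map_add, AddMonoidHom.add_apply]
      map_smul' := fun r p => by
        apply B.dual.ext_val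
        intro q
        rw [RingHom.id_apply, val_poly, val_mkQ]
        ext n
        rw [LinearMap.sum_apply, hch, h2, dl_poly, map_sum]
        apply Finset.sum_congr rfl
        intro i _
        rw [h4, val_mkQ, LinearMap.smul_apply, hch, smul_eq_mul]
        have e1 : B.rev.l = B.l := rfl
        have e2 : B.dual.l = B.l := rfl
        rw [e1, e2]
        congr 3
        ring_nf }
  refine ⟨g, fun w => ?_⟩
  apply B.dual.ext_val
  intro q
  show B.dual.val (B.dual.mkQ (ch w) (hrel w)) q = _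
  rw [val_mkQ]
  ext n
  rw [hch, h3, hF, psi_dl, neg_neg]

end BRel

end SAlg
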