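import Pool.Agent.Lib.MP_b9fd58_lc.R.RelE
import Pool.Agent.Lib.MP_b9fd58_lc.R.Cl

/-!
# MP_b9fd58_lc, stream T: periodic sequences of linear relations (VI)

The two compactness hypotheses of `torsionFree` from a family of linearly compact subspaces.
-/

set_option autoImplicit false

namespace SAlg

open Finset Polynomial Module

universe u v w

variable {k : Type u} [Field k]

/-- A family of subspaces which is closed under `⊓` and `⊔` and linearly compact. -/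
structure CFam {N : Type v} [AddCommGroup N] [Module k N] (C : Submodule k N → Prop) : Prop where
  bot : C ⊥
  inf : ∀ A B, C A → C B → C (A ⊓ B)
  sup : ∀ A B, C A → C B → C (A ⊔ B)
  compact : ∀ (A : ℕ → Submodule k N), (∀ m, C (A m)) → ∀ y : ℕ → N,
    (∀ m, A (m + 1) ≤ A m) → (∀ m, y (m + 1) - y m ∈ A m) → ∃ z, ∀ m, z - y m ∈ A m

namespace BRel

variable {N : Type v} [AddCommGroup N] [Module k N] (B : BRel k N)

theorem pre_mono (p : ℤ) {A A' : Submodule k N} (h : A ≤ A') : B.pre p A ≤ B.pre p A' := by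
  rintro x ⟨y, hy, hxy⟩
  exact ⟨y, h hy, hxy⟩

theorem UR_succ_le (m : ℕ) (p : ℤ) : B.UR (m + 1) p ≤ B.UR m p := by
  induction m generalizing p with
  | zero =>
    rintro x ⟨y, -, hxy⟩
    exact ⟨x, B.R_left _ _ _ hxy⟩
  | succ m ih => exact B.pre_mono p (ih (p + 1))

theorem LR_le_succ (m : ℕ) (p : ℤ) : B.LR m p ≤ B.LR (m + 1) p := by
  induction m generalizing p with
  | zero => exact bot_le
  | succ m ih => exact B.pre_mono p (ih (p + 1))

theorem S1_of {C : Submodule k N → Prop} (hC : CFam C)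
    (hU : ∀ m, C (B.UR m 0)) (hU' : ∀ m, C (B.rev.UR m 0))
    (hL : ∀ m, C (B.LR m 0)) (hL' : ∀ m, C (B.rev.LR m 0)) (y : N) (n₀ : ℕ)
    (h : ∀ m, ∃ u ∈ B.UR m 0 ⊓ B.rev.UR m 0, u - y ∈ B.LR n₀ 0 ⊔ B.rev.LR n₀ 0) :
    ∃ u, (∀ m, u ∈ B.UR m 0 ⊓ B.rev.UR m 0) ∧ u - y ∈ B.LR n₀ 0 ⊔ B.rev.LR n₀ 0 := by
  choose u hu hu' using h
  set L : Submodule k N := B.LR n₀ 0 ⊔ B.rev.LR n₀ 0 with hLdef
  have hdecU : ∀ m, B.UR (m + 1) 0 ⊓ B.rev.UR (m + 1) 0 ≤ B.UR m 0 ⊓ B.rev.UR m 0 := fun m =>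
    inf_le_inf (B.UR_succ_le m 0) (B.rev.UR_succ_le m 0)
  obtain ⟨z, hz⟩ := hC.compact (fun m => (B.UR m 0 ⊓ B.rev.UR m 0) ⊓ L)
    (fun m => hC.inf _ _ (hC.inf _ _ (hU m) (hU' m)) (hC.sup _ _ (hL _) (hL' _))) u
    (fun m => inf_le_inf (hdecU m) le_rfl)
    (fun m => ⟨Submodule.sub_mem _ (hdecU m (hu (m + 1))) (hu m), by
      have : u (m + 1) - u m = (u (m + 1) - y) - (u m - y) := by abel
      rw [this]
      exact L.sub_mem (hu' _) (hu' _)⟩)
  refine ⟨z, fun m => ?_, ?_⟩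
  · have : z = (z - u m) + u m := by abel
    rw [this]
    exact Submodule.add_mem _ (hz m).1 (hu m)
  · have : z - y = (z - u 0) + (u 0 - y) := by abel
    rw [this]
    exact L.add_mem (hz 0).2 (hu' 0)

/-- the elements related to `0` -/
def Zr (p : ℤ) : Submodule k N where
  carrier := {y | ((0 : N), y) ∈ B.R p}
  add_mem' := by
    intro a b ha hb
    have := (B.R p).add_mem ha hb
    simpa using this
  zero_mem' := (B.R p).zero_mem
  smul_mem' := by
    intro c a ha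
    have := (B.R p).smul_mem c ha
    simpa using this

theorem exists_next {C : Submodule k N → Prop} (hC : CFam C)
    (hU : ∀ m p, C (B.UR m p)) (hZ : ∀ p, C (B.Zr p)) (p : ℤ) (u : N) (hu : ∀ m, u ∈ B.UR m p) :
    ∃ z, (u, z) ∈ B.R p ∧ ∀ m, z ∈ B.UR m (p + 1) := by
  have h : ∀ m, ∃ y ∈ B.UR m (p + 1), (u, y) ∈ B.R p := fun m => hu (m + 1)
  choose y hy hy' using h
  obtain ⟨z, hz⟩ := hC.compact (fun m => B.UR m (p + 1) ⊓ B.Zr p)
    (fun m => hC.inf _ _ (hU m _) (hZ p)) y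
    (fun m => inf_le_inf (B.UR_succ_le m _) le_rfl)
    (fun m => ⟨Submodule.sub_mem _ (B.UR_succ_le m _ (hy (m + 1))) (hy m), by
      have := (B.R p).sub_mem (hy' (m + 1)) (hy' m)
      rw [Prod.mk_sub_mk, sub_self] at this
      exact this⟩)
  refine ⟨z, ?_, fun m => ?_⟩
  · have h1 := (B.R p).add_mem (hz 0).2 (hy' 0)
    rw [Prod.mk_add_mk, zero_add, sub_add_cancel] at h1
    exact h1
  · have : z = (z - y m) + y m := by abel
    rw [this]
    exact Submodule.add_mem _ (hz m).1 (hy m)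

theorem exists_right {C : Submodule k N → Prop} (hC : CFam C)
    (hU : ∀ m p, C (B.UR m p)) (hZ : ∀ p, C (B.Zr p)) (p : ℤ) (u : N) (hu : ∀ m, u ∈ B.UR m p) :
    ∃ c : ℕ → N, c 0 = u ∧ ∀ i : ℕ, (c i, c (i + 1)) ∈ B.R (p + i) := by
  classical
  have key : ∀ (i : ℕ) (x : {x : N // ∀ m, x ∈ B.UR m (p + i)}),
      ∃ z : {x : N // ∀ m, x ∈ B.UR m (p + (i + 1 : ℕ))}, (x.1, z.1) ∈ B.R (p + i) := by
    intro i x
    obtain ⟨z, hz, hz'⟩ := B.exists_next hC hU hZ (p + i) x.1 x.2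
    refine ⟨⟨z, fun m => ?_⟩, hz⟩
    have := hz' m
    rw [show p + ((i + 1 : ℕ) : ℤ) = p + i + 1 by push_cast; ring]
    exact this
  choose nxt hnxt using key
  let c : (i : ℕ) → {x : N // ∀ m, x ∈ B.UR m (p + i)} := fun i =>
    Nat.rec (motive := fun i => {x : N // ∀ m, x ∈ B.UR m (p + (i : ℕ))})
      ⟨u, fun m => by simpa using hu m⟩ (fun i x => nxt i x) i
  refine ⟨fun i => (c i).1, rfl, fun i => ?_⟩
  exact hnxt i (c i)

theorem S2_of {C : Submodule k N → Prop} (hC : CFam C)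
    (hU : ∀ m p, C (B.UR m p)) (hU' : ∀ m p, C (B.rev.UR m p))
    (hZ : ∀ p, C (B.Zr p)) (hZ' : ∀ p, C (B.rev.Zr p)) (u : N)
    (hu : ∀ m, u ∈ B.UR m 0 ⊓ B.rev.UR m 0) : ∃ x : B.QX, B.val x 0 = u := by
  obtain ⟨c, hc0, hc⟩ := B.exists_right hC hU hZ 0 u (fun m => (hu m).1)
  obtain ⟨d, hd0, hd⟩ := B.rev.exists_right hC hU' hZ' 0 u (fun m => (hu m).2)
  let n : ℤ → N := fun p => if 0 ≤ p then c p.toNat else d (-p).toNat
  have hn : ∀ p, (n p, n (p + 1)) ∈ B.R p := by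
    intro p
    by_cases h0 : 0 ≤ p
    · obtain ⟨t, rfl⟩ := Int.eq_ofNat_of_zero_le h0
      have h1 := hc t
      rw [zero_add] at h1
      simp only [n]
      rw [if_pos h0, if_pos (by omega)]
      exact h1
    · obtain ⟨t, ht⟩ := Int.eq_ofNat_of_zero_le (show 0 ≤ -p - 1 by omega)
      have h1 := hd t
      rw [mem_rev, show -((0 : ℤ) + (t : ℤ)) - 1 = p by omega] at h1
      have h4 : n p = d (t + 1) := by
        simp only [n]
        rw [if_neg h0, show (-p).toNat = t + 1 by omega]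
      have h5 : n (p + 1) = d t := by
        by_cases h6 : 0 ≤ p + 1
        · have h7 : t = 0 := by omega
          subst h7
          simp only [n]
          rw [if_pos h6, show (p + 1).toNat = 0 by omega, hc0, hd0]
        · simp only [n]
          rw [if_neg h6, show (-(p + 1)).toNat = t by omega]
      rw [h4, h5]
      exact h1
  refine ⟨B.mkQ n hn, ?_⟩
  rw [val_mkQ]
  simp only [n]
  rw [if_pos le_rfl]
  exact hc0

/-- Abstract Theorem T: the chains modulo the chains `K0` split off. -/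
theorem abstractT {C : Submodule k N → Prop} (hC : CFam C)
    (hU : ∀ m p, C (B.UR m p)) (hU' : ∀ m p, C (B.rev.UR m p))
    (hL : ∀ m, C (B.LR m 0)) (hL' : ∀ m, C (B.rev.LR m 0))
    (hZ : ∀ p, C (B.Zr p)) (hZ' : ∀ p, C (B.rev.Zr p))
    (PI : ∀ (W' : Submodule k[X] B.PX), (∀ r : k[X], r ≠ 0 → ∀ x : B.PX, r • x ∈ W' → x ∈ W') →
      ∀ f : W' →ₗ[k[X]] B.QX, ∃ g : B.PX →ₗ[k[X]] B.QX, ∀ w : W', g w = f w) :
    ∃ (W : Submodule k[X] B.QX), IsCompl B.K0 W ∧
      ∃ ρ : B.PX →ₗ[k[X]] W, ∀ w : W, ρ (B.nu w) = w :=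
  B.exists_rho
    (fun r hr η x h => B.torsionFree
      (fun y n₀ h => B.S1_of hC (fun m => hU m 0) (fun m => hU' m 0) hL hL' y n₀ h)
      (fun u hu => B.S2_of hC hU hU' hZ hZ' u hu) r hr η x h) PI

end BRel

/-- The closed subspaces of a retract of a dual space form such a family. -/
theorem RCl.cfam {N : Type w} [AddCommGroup N] [Module k N] {Y : Type v} [AddCommGroup Y]
    [Module k Y] {ι : N →ₗ[k] Dual k Y} {π : Dual k Y →ₗ[k] N} (h : ∀ x, π (ι x) = x) :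
    CFam (RCl ι π) where
  bot := RCl.bot
  inf := fun _ _ hA hB => hA.inf hB
  sup := fun _ _ hA hB => hA.sup hB
  compact := fun A hA y hdec hy => RCl.compact h A hA y hdec hy

end SAlg
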